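import Pool.Agent.Lib.MP_e4ee3e_an.Setup
import Pool.Agent.Lib.MP_e4ee3e_an.S05
import Pool.Agent.Lib.MP_e4ee3e_an.S06

/-!
CR. Zeros of the Wronskian are critical points (the converse of the lemma used in T08).

Proof. Let y be a zero of P'Q - PQ' and suppose that f is injective on a neighbourhood of y.
Case Q y ≠ 0: g = P/Q is holomorphic near y, not constant (d >= 2, P and Q coprime), g' y = 0 and
g is injective on a disc B at y. Then g is open on B (AnalyticAt/AnalyticOnNhd open mapping), so its
inverse is continuous on g(B), holomorphic outside g y after shrinking B (g' ≠ 0 on B minus y by isolated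
zeros), hence holomorphic at g y (removable singularity), and the chain rule gives
(g^-1)' (g y) * g' y = 1, contradiction. (Or: g z - g y = (z - y)^k u z with k >= 2, u y ≠ 0, a local k-th
root of u, and the inverse function theorem.) Case Q y = 0: then P y ≠ 0; use Q/P: ratMap Q P x is
obtained from ratMap P Q x by the involution exchanging a/b and b/a (ratio a b ↦ ratio b a), so it is
injective on the same neighbourhood, and the Wronskian only changes sign.
-/

open MeasureTheory Filter Topology

namespace Pool.Agent.Lib.MP_e4ee3e_an.Q1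

/-- A holomorphic function with vanishing derivative at a point is injective on no neighbourhood
of this point. -/
theorem cr_aux {g : ℂ → ℂ} {y : ℂ} {V : Set ℂ} (hV : V ∈ 𝓝 y) (hg : AnalyticAt ℂ g y)
    (hinj : Set.InjOn g V) (hd : deriv g y = 0) : False := by
  have h1 : ∀ᶠ z in 𝓝 y, AnalyticAt ℂ g z := hg.eventually_analyticAt
  rcases hg.deriv.eventually_eq_zero_or_eventually_ne_zero with h2 | h2
  · obtain ⟨r, hr, hB⟩ := Metric.mem_nhds_iff.1 (Filter.inter_mem hV (Filter.inter_mem h1 h2))
    have hy : y ∈ Metric.ball y r := Metric.mem_ball_self hr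
    have hz : y + (r / 2 : ℝ) ∈ Metric.ball y r := by
      rw [Metric.mem_ball, dist_eq_norm, add_sub_cancel_left, Complex.norm_real,
        Real.norm_of_nonneg (by positivity)]
      linarith
    have h3 : g y = g (y + (r / 2 : ℝ)) :=
      Metric.isOpen_ball.is_const_of_deriv_eq_zero (convex_ball y r).isPreconnected
        (fun z hz => ((hB hz).2.1 : AnalyticAt ℂ g z).differentiableAt.differentiableWithinAt)
        (fun z hz => (hB hz).2.2) hy hz
    have h4 := hinj (hB hy).1 (hB hz).1 h3
    have h5 : ((r / 2 : ℝ) : ℂ) = 0 := by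
      have := congrArg (fun t => t - y) h4
      simpa using this.symm
    have h6 : r / 2 = 0 := by exact_mod_cast h5
    linarith
  · rw [eventually_nhdsWithin_iff] at h2
    obtain ⟨r, hr, hB⟩ := Metric.mem_nhds_iff.1 (Filter.inter_mem hV (Filter.inter_mem h1 h2))
    set B := Metric.ball y r with hBdef
    have hy : y ∈ B := Metric.mem_ball_self hr
    have hBo : IsOpen B := Metric.isOpen_ball
    have hinjB : Set.InjOn g B := hinj.mono (fun z hz => (hB hz).1)
    have hana : AnalyticOnNhd ℂ g B := fun z hz => (hB hz).2.1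
    have hopen : ∀ s ⊆ B, IsOpen s → IsOpen (g '' s) := by
      rcases hana.is_constant_or_isOpen (convex_ball y r).isPreconnected with h3 | h3
      · exfalso
        obtain ⟨w, hw⟩ := h3
        have hz : y + (r / 2 : ℝ) ∈ B := by
          rw [hBdef, Metric.mem_ball, dist_eq_norm, add_sub_cancel_left, Complex.norm_real,
            Real.norm_of_nonneg (by positivity)]
          linarith
        have h4 := hinjB hy hz ((hw _ hy).trans (hw _ hz).symm)
        have h5 : ((r / 2 : ℝ) : ℂ) = 0 := by
          have := congrArg (fun t => t - y) h4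
          simpa using this.symm
        have h6 : r / 2 = 0 := by exact_mod_cast h5
        linarith
      · exact h3
    set φ := Function.invFunOn g B with hφ
    have hleft : ∀ z ∈ B, φ (g z) = z := fun z hz => hinjB.leftInvOn_invFunOn hz
    have hWo : IsOpen (g '' B) := hopen B subset_rfl hBo
    have hcont : ContinuousOn φ (g '' B) := by
      rw [continuousOn_open_iff hWo]
      intro t ht
      have h3 : g '' B ∩ φ ⁻¹' t = g '' (B ∩ t) := by
        ext w
        constructor
        · rintro ⟨⟨z, hz, rfl⟩, hw⟩
          refine ⟨z, ⟨hz, ?_⟩, rfl⟩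
          have : φ (g z) ∈ t := hw
          rwa [hleft z hz] at this
        · rintro ⟨z, ⟨hz, hzt⟩, rfl⟩
          refine ⟨⟨z, hz, rfl⟩, ?_⟩
          show φ (g z) ∈ t
          rwa [hleft z hz]
      rw [h3]
      exact hopen _ Set.inter_subset_left (hBo.inter ht)
    have hWy : g '' B ∈ 𝓝 (g y) := hWo.mem_nhds ⟨y, hy, rfl⟩
    have hdiff : DifferentiableOn ℂ φ (g '' B) := by
      rw [← Complex.differentiableOn_compl_singleton_and_continuousAt_iff hWy]
      refine ⟨?_, hcont.continuousAt hWy⟩
      rintro w ⟨⟨z, hz, rfl⟩, hw⟩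
      have hzy : z ≠ y := by
        rintro rfl
        exact hw rfl
      have hdz : deriv g z ≠ 0 := (hB hz).2.2 hzy
      have hW : g '' B ∈ 𝓝 (g z) := hWo.mem_nhds ⟨z, hz, rfl⟩
      have hgz : HasDerivAt g (deriv g z) (φ (g z)) := by
        rw [hleft z hz]
        exact ((hB hz).2.1 : AnalyticAt ℂ g z).differentiableAt.hasDerivAt
      have h5 : HasDerivAt φ (deriv g z)⁻¹ (g z) := by
        refine HasDerivAt.of_local_left_inverse (hcont.continuousAt hW) hgz hdz ?_
        filter_upwards [hW] with w hw
        obtain ⟨x, hx, rfl⟩ := hw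
        rw [hleft x hx]
      exact h5.differentiableAt.differentiableWithinAt
    have hφd : DifferentiableAt ℂ φ (g y) := hdiff.differentiableAt hWy
    have h6 : HasDerivAt (φ ∘ g) (deriv φ (g y) * deriv g y) y :=
      hφd.hasDerivAt.comp y hg.differentiableAt.hasDerivAt
    have h7 : (φ ∘ g) =ᶠ[𝓝 y] id := by
      filter_upwards [hBo.mem_nhds hy] with z hz
      exact hleft z hz
    have h8 : HasDerivAt id (deriv φ (g y) * deriv g y) y := h6.congr_of_eventuallyEq h7.symm
    have h9 := h8.unique (hasDerivAt_id y)
    rw [hd, mul_zero] at h9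
    exact zero_ne_one h9

theorem isCritPt_of_wronskian {P Q : Polynomial ℂ} {d : ℕ} (h : RatData P Q d) {y : ℂ}
    (hy : (Polynomial.derivative P * Q - P * Polynomial.derivative Q).eval y = 0) :
    IsCritPt (ratMap P Q) (y : OnePoint ℂ) := by
  intro U hU hinj
  have hV : (fun x : ℂ => (x : OnePoint ℂ)) ⁻¹' U ∈ 𝓝 y := by
    rw [OnePoint.nhds_coe_eq] at hU
    exact hU
  rw [Polynomial.eval_sub, Polynomial.eval_mul, Polynomial.eval_mul] at hy
  by_cases hQ : Q.eval y = 0
  · have hP : P.eval y ≠ 0 := fun hP => s05_no_common_zero h.cop y hP hQ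
    have hP1 : {x : ℂ | P.eval x ≠ 0} ∈ 𝓝 y :=
      (P.continuous.continuousAt).eventually_ne hP
    have hd := (Q.hasDerivAt y).div (P.hasDerivAt y) hP
    refine cr_aux (g := fun x => Q.eval x / P.eval x) (Filter.inter_mem hV hP1) ?_ ?_ ?_
    · exact (AnalyticOnNhd.eval_polynomial Q y (Set.mem_univ y)).div
        (AnalyticOnNhd.eval_polynomial P y (Set.mem_univ y)) hP
    · rintro x ⟨hx, hx1⟩ x' ⟨hx', hx1'⟩ hxx
      have h2 : ratMap P Q (x : OnePoint ℂ) = ratMap P Q (x' : OnePoint ℂ) := by
        rw [s06_ratMap_coe, s06_ratMap_coe]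
        have hxx' : Q.eval x / P.eval x = Q.eval x' / P.eval x' := hxx
        unfold ratio
        have hPx : P.eval x ≠ 0 := hx1
        have hPx' : P.eval x' ≠ 0 := hx1'
        by_cases h0 : Q.eval x = 0
        · have h0' : Q.eval x' = 0 := by
            rw [h0, zero_div] at hxx'
            rcases div_eq_zero_iff.1 hxx'.symm with h | h
            · exact h
            · exact absurd h hPx'
          rw [if_pos h0, if_pos h0']
        · have h0' : Q.eval x' ≠ 0 := by
            intro h0'
            rw [h0', zero_div] at hxx'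
            rcases div_eq_zero_iff.1 hxx' with h | h
            · exact h0 h
            · exact hPx h
          rw [if_neg h0, if_neg h0', ← inv_div (Q.eval x), ← inv_div (Q.eval x'), hxx']
      exact OnePoint.coe_injective (hinj hx hx' h2)
    · refine hd.deriv.trans ?_
      have h3 : (Polynomial.derivative Q).eval y * P.eval y -
          Q.eval y * (Polynomial.derivative P).eval y = 0 := by
        linear_combination -hy
      rw [h3, zero_div]
  · have hQ1 : {x : ℂ | Q.eval x ≠ 0} ∈ 𝓝 y :=
      (Q.continuous.continuousAt).eventually_ne hQ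
    have hd := (P.hasDerivAt y).div (Q.hasDerivAt y) hQ
    refine cr_aux (g := fun x => P.eval x / Q.eval x) (Filter.inter_mem hV hQ1) ?_ ?_ ?_
    · exact (AnalyticOnNhd.eval_polynomial P y (Set.mem_univ y)).div
        (AnalyticOnNhd.eval_polynomial Q y (Set.mem_univ y)) hQ
    · rintro x ⟨hx, hx1⟩ x' ⟨hx', hx1'⟩ hxx
      have h2 : ratMap P Q (x : OnePoint ℂ) = ratMap P Q (x' : OnePoint ℂ) := by
        rw [s06_ratMap_coe, s06_ratMap_coe]
        have hxx' : P.eval x / Q.eval x = P.eval x' / Q.eval x' := hxx
        unfold ratio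
        rw [if_neg hx1, if_neg hx1', hxx']
      exact OnePoint.coe_injective (hinj hx hx' h2)
    · refine hd.deriv.trans ?_
      rw [hy, zero_div]

end Pool.Agent.Lib.MP_e4ee3e_an.Q1
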