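import Pool.Agent.Lib.MP_e4ee3e_an.Setup
import Pool.Agent.Lib.MP_e4ee3e_an.S01
import Pool.Agent.Lib.MP_e4ee3e_an.S05

/-!
MO. Conjugation by a Moebius map sending b to infinity: M x = 1 / (x - b), M b = ∞, M ∞ = 0, i.e.
M (ratio u v) = ratio v (u - b v) for (u, v) ≠ 0. It is a homeomorphism (continuous bijection of a compact
Hausdorff space; continuity for instance by the chordal metric: dist_ratio of S01 shows that ratMap of a
coprime pair is Lipschitz: M is ratMap 1 (X - b), see ratMap_lipschitz / ratMap_continuous: those need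
degree >= 2, but the proof for degree 1 is the same; inverse: w ↦ b + 1/w, ratMap (1 + b X) X).
P' = reflect d (Q.comp (X + C b)), Q' = reflect d ((P - C b * Q).comp (X + C b)):
eval w P' = w^d Q(b + 1/w), eval w Q' = w^d (P - bQ)(b + 1/w) for w ≠ 0 (Polynomial.eval₂_reflect_mul_pow
or reverse lemmas). Coprime: a common zero w ≠ 0 gives a common zero b + 1/w of Q and P - bQ; a common
zero w = 0 means that the coefficients of degree d of Q and P - bQ vanish, impossible since
max (natDegree P) (natDegree Q) = d. Degree: the coefficients of degree d of P', Q' are Q(b), P(b) - bQ(b), not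
both 0. Over ℂ coprimality follows from the absence of common zeros (Polynomial.isCoprime_of_... or via
gcd / splits). Conjugacy: check x = ∞, x = b, and x = other finite point.
-/

open MeasureTheory Filter Topology

namespace Pool.Agent.Lib.MP_e4ee3e_an.Q1

/-- Homogeneous coordinates are determined up to a factor. -/
theorem mo_ratio_mul {t : ℂ} (ht : t ≠ 0) (a b : ℂ) : ratio (t * a) (t * b) = ratio a b := by
  unfold ratio
  by_cases hb : b = 0
  · rw [if_pos hb, if_pos (by rw [hb, mul_zero])]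
  · rw [if_neg hb, if_neg (mul_ne_zero ht hb), mul_div_mul_left _ _ ht]

theorem mo_ratio_hom (p : OnePoint ℂ) : ratio (hom p).1 (hom p).2 = p := by
  cases p using OnePoint.rec with
  | infty => simp [ratio]
  | coe x => simp [ratio]

theorem mo_hom_ne (p : OnePoint ℂ) : ((hom p).1, (hom p).2) ≠ ((0, 0) : ℂ × ℂ) := hom_ne_zero p

/-- The map x ↦ 1 / (x - b). -/
noncomputable def mo_M (b : ℂ) (p : OnePoint ℂ) : OnePoint ℂ :=
  ratio (hom p).2 ((hom p).1 - b * (hom p).2)

/-- The map w ↦ b + 1 / w. -/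
noncomputable def mo_N (b : ℂ) (p : OnePoint ℂ) : OnePoint ℂ :=
  ratio ((hom p).2 + b * (hom p).1) (hom p).1

theorem mo_M_ratio (b : ℂ) {u v : ℂ} (h : (u, v) ≠ ((0, 0) : ℂ × ℂ)) :
    mo_M b (ratio u v) = ratio v (u - b * v) := by
  obtain ⟨t, ht, h1, h2⟩ := s01_hom h
  have e1 : u - b * v = t * ((hom (ratio u v)).1 - b * (hom (ratio u v)).2) := by
    calc u - b * v = t * (hom (ratio u v)).1 - b * (t * (hom (ratio u v)).2) := by rw [← h1, ← h2]
      _ = _ := by ring
  have e2 : ratio v (u - b * v) = ratio (t * (hom (ratio u v)).2)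
      (t * ((hom (ratio u v)).1 - b * (hom (ratio u v)).2)) := by
    rw [← e1, ← h2]
  rw [e2, mo_ratio_mul ht]
  rfl

theorem mo_N_ratio (b : ℂ) {u v : ℂ} (h : (u, v) ≠ ((0, 0) : ℂ × ℂ)) :
    mo_N b (ratio u v) = ratio (v + b * u) u := by
  obtain ⟨t, ht, h1, h2⟩ := s01_hom h
  have e1 : v + b * u = t * ((hom (ratio u v)).2 + b * (hom (ratio u v)).1) := by
    calc v + b * u = t * (hom (ratio u v)).2 + b * (t * (hom (ratio u v)).1) := by rw [← h1, ← h2]
      _ = _ := by ring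
  have e2 : ratio (v + b * u) u = ratio (t * ((hom (ratio u v)).2 + b * (hom (ratio u v)).1))
      (t * (hom (ratio u v)).1) := by
    rw [← e1, ← h1]
  rw [e2, mo_ratio_mul ht]
  rfl

theorem mo_left (b : ℂ) (p : OnePoint ℂ) : mo_N b (mo_M b p) = p := by
  have h0 := mo_hom_ne p
  have h1 : ((hom p).2, (hom p).1 - b * (hom p).2) ≠ ((0, 0) : ℂ × ℂ) := by
    intro h
    rw [Prod.mk.injEq] at h
    apply h0
    rw [Prod.mk.injEq]
    refine ⟨?_, h.1⟩
    have := h.2
    rw [h.1, mul_zero, sub_zero] at this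
    exact this
  show mo_N b (ratio (hom p).2 ((hom p).1 - b * (hom p).2)) = p
  rw [mo_N_ratio b h1, sub_add_cancel, mo_ratio_hom]

theorem mo_right (b : ℂ) (p : OnePoint ℂ) : mo_M b (mo_N b p) = p := by
  have h0 := mo_hom_ne p
  have h1 : ((hom p).2 + b * (hom p).1, (hom p).1) ≠ ((0, 0) : ℂ × ℂ) := by
    intro h
    rw [Prod.mk.injEq] at h
    apply h0
    rw [Prod.mk.injEq]
    refine ⟨h.2, ?_⟩
    have := h.1
    rw [h.2, mul_zero, add_zero] at this
    exact this
  show mo_M b (ratio ((hom p).2 + b * (hom p).1) (hom p).1) = p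
  rw [mo_M_ratio b h1, add_sub_cancel_right, mo_ratio_hom]

/-- The Moebius map as an equivalence. -/
noncomputable def mo_equiv (b : ℂ) : OnePoint ℂ ≃ OnePoint ℂ where
  toFun := mo_M b
  invFun := mo_N b
  left_inv := mo_left b
  right_inv := mo_right b

theorem mo_nrm_le (b : ℂ) (u : ℂ × ℂ) :
    nrm u ^ 2 ≤ ((1 + ‖b‖) ^ 2 + 1) * nrm (u.2, u.1 - b * u.2) ^ 2 := by
  rw [nrm_sq, nrm_sq]
  have h1 : ‖u.1‖ ≤ ‖u.1 - b * u.2‖ + ‖b‖ * ‖u.2‖ := by
    calc ‖u.1‖ = ‖(u.1 - b * u.2) + b * u.2‖ := by rw [sub_add_cancel]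
      _ ≤ ‖u.1 - b * u.2‖ + ‖b * u.2‖ := norm_add_le _ _
      _ = _ := by rw [norm_mul]
  have h2 := norm_nonneg (u.1 - b * u.2)
  have h3 := norm_nonneg u.2
  have h4 := norm_nonneg b
  have h5 := norm_nonneg u.1
  have h6 : ‖u.1‖ ^ 2 ≤ (‖u.1 - b * u.2‖ + ‖b‖ * ‖u.2‖) ^ 2 := by
    apply pow_le_pow_left₀ h5 h1
  have h7 : (‖u.1 - b * u.2‖ + ‖b‖ * ‖u.2‖) ^ 2 ≤
      (1 + ‖b‖ ^ 2) * (‖u.1 - b * u.2‖ ^ 2 + ‖u.2‖ ^ 2) := by
    nlinarith [sq_nonneg (‖b‖ * ‖u.1 - b * u.2‖ - ‖u.2‖)]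
  have h8 : (1 + ‖b‖ ^ 2) * (‖u.1 - b * u.2‖ ^ 2 + ‖u.2‖ ^ 2) + ‖u.2‖ ^ 2 ≤
      ((1 + ‖b‖) ^ 2 + 1) * (‖u.2‖ ^ 2 + ‖u.1 - b * u.2‖ ^ 2) := by
    nlinarith [mul_nonneg h4 (add_nonneg (sq_nonneg ‖u.1 - b * u.2‖) (sq_nonneg ‖u.2‖)),
      sq_nonneg ‖u.1 - b * u.2‖, sq_nonneg ‖u.2‖]
  linarith

section metric

attribute [local instance] chMetric

theorem mo_dist_le (b : ℂ) (p q : OnePoint ℂ) :
    dist (mo_M b p) (mo_M b q) ≤ ((1 + ‖b‖) ^ 2 + 1) * dist p q := by
  have ne (p : OnePoint ℂ) : ((hom p).2, (hom p).1 - b * (hom p).2) ≠ ((0, 0) : ℂ × ℂ) := by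
    intro h
    rw [Prod.mk.injEq] at h
    apply mo_hom_ne p
    rw [Prod.mk.injEq]
    refine ⟨?_, h.1⟩
    have := h.2
    rw [h.1, mul_zero, sub_zero] at this
    exact this
  have hd : dist (mo_M b p) (mo_M b q) = _ := dist_ratio (ne p) (ne q)
  rw [hd, dist_eq_chd]
  unfold chd wdg
  have e1 : (hom p).2 * ((hom q).1 - b * (hom q).2) - ((hom p).1 - b * (hom p).2) * (hom q).2 =
      -((hom p).1 * (hom q).2 - (hom p).2 * (hom q).1) := by ring
  rw [e1, norm_neg]
  set S : ℝ := (1 + ‖b‖) ^ 2 + 1 with hS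
  have hS1 : 1 ≤ S := by
    rw [hS]
    nlinarith [sq_nonneg (1 + ‖b‖)]
  have np := nrm_hom_pos p
  have nq := nrm_hom_pos q
  have mp : 0 < nrm ((hom p).2, (hom p).1 - b * (hom p).2) := nrm_pos_of_ne (ne p)
  have mq : 0 < nrm ((hom q).2, (hom q).1 - b * (hom q).2) := nrm_pos_of_ne (ne q)
  have kp := mo_nrm_le b (hom p)
  have kq := mo_nrm_le b (hom q)
  have hprod : nrm (hom p) * nrm (hom q) ≤ S * (nrm ((hom p).2, (hom p).1 - b * (hom p).2) *
      nrm ((hom q).2, (hom q).1 - b * (hom q).2)) := by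
    rw [← sq_le_sq₀ (by positivity) (by positivity)]
    calc (nrm (hom p) * nrm (hom q)) ^ 2 = nrm (hom p) ^ 2 * nrm (hom q) ^ 2 := by ring
      _ ≤ (S * nrm ((hom p).2, (hom p).1 - b * (hom p).2) ^ 2) *
          (S * nrm ((hom q).2, (hom q).1 - b * (hom q).2) ^ 2) := by
            apply mul_le_mul kp kq (by positivity) (by positivity)
      _ = _ := by ring
  rw [← mul_div_assoc, div_le_div_iff₀ (by positivity) (by positivity)]
  have hw := norm_nonneg ((hom p).1 * (hom q).2 - (hom p).2 * (hom q).1)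
  nlinarith [mul_le_mul_of_nonneg_left hprod hw]

theorem mo_continuous (b : ℂ) : Continuous (mo_M b) := by
  rw [continuous_iff_continuousAt]
  intro p
  rw [ContinuousAt, tendsto_iff_dist_tendsto_zero]
  have h1 : Tendsto (fun q => ((1 + ‖b‖) ^ 2 + 1) * dist q p) (𝓝 p) (𝓝 0) := by
    have h2 : Tendsto (fun q : OnePoint ℂ => dist q p) (𝓝 p) (𝓝 0) :=
      tendsto_iff_dist_tendsto_zero.1 tendsto_id
    simpa using h2.const_mul ((1 + ‖b‖) ^ 2 + 1)
  exact squeeze_zero (fun q => dist_nonneg) (fun q => mo_dist_le b q p) h1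

end metric

/-- The Moebius map as a homeomorphism. -/
noncomputable def mo_homeo (b : ℂ) : OnePoint ℂ ≃ₜ OnePoint ℂ :=
  Continuous.homeoOfEquivCompactToT2 (f := mo_equiv b) (mo_continuous b)

theorem mo_homeo_apply (b : ℂ) (p : OnePoint ℂ) : mo_homeo b p = mo_M b p := rfl

open Polynomial in
theorem mo_eval_reflect {d : ℕ} {A : Polynomial ℂ} (hA : A.natDegree ≤ d) {w : ℂ} (hw : w ≠ 0) :
    (reflect d A).eval w = w ^ d * A.eval w⁻¹ := by
  have hw' : w⁻¹ ≠ 0 := inv_ne_zero hw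
  let _ : Invertible w⁻¹ := invertibleOfNonzero hw'
  have h1 := Polynomial.eval₂_reflect_mul_pow (RingHom.id ℂ) w⁻¹ d A hA
  rw [invOf_eq_inv, inv_inv] at h1
  rw [← Polynomial.eval₂_id, ← Polynomial.eval₂_id, ← h1, mul_comm (w ^ d), mul_assoc, ← mul_pow,
    inv_mul_cancel₀ hw, one_pow, mul_one]

open Polynomial in
theorem mo_comp_natDegree (A : Polynomial ℂ) (b : ℂ) : (A.comp (X + C b)).natDegree = A.natDegree := by
  rw [← Polynomial.taylor_apply, Polynomial.natDegree_taylor]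

open Polynomial in
theorem mo_comp_coeff {d : ℕ} {A : Polynomial ℂ} (hA : A.natDegree ≤ d) (b : ℂ) :
    (A.comp (X + C b)).coeff d = A.coeff d := by
  rcases hA.lt_or_eq with h | h
  · rw [Polynomial.coeff_eq_zero_of_natDegree_lt h, Polynomial.coeff_eq_zero_of_natDegree_lt]
    rw [mo_comp_natDegree]
    exact h
  · rw [← Polynomial.taylor_apply, ← h, Polynomial.coeff_taylor_natDegree, Polynomial.leadingCoeff]

open Polynomial in
theorem mo_eval_zero {d : ℕ} {A : Polynomial ℂ} (hA : A.natDegree ≤ d) (b : ℂ) :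
    (reflect d (A.comp (X + C b))).eval 0 = A.coeff d := by
  rw [← Polynomial.coeff_zero_eq_eval_zero, Polynomial.coeff_reflect, Polynomial.revAt_zero,
    mo_comp_coeff hA]

open Polynomial in
theorem mo_coeff_top (d : ℕ) (A : Polynomial ℂ) (b : ℂ) :
    (reflect d (A.comp (X + C b))).coeff d = A.eval b := by
  rw [Polynomial.coeff_reflect, Polynomial.revAt_le le_rfl, Nat.sub_self,
    Polynomial.coeff_zero_eq_eval_zero, Polynomial.eval_comp]
  simp

open Polynomial in
theorem mo_eval_other {d : ℕ} {A : Polynomial ℂ} (hA : A.natDegree ≤ d) (b : ℂ) {w : ℂ}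
    (hw : w ≠ 0) : (reflect d (A.comp (X + C b))).eval w = w ^ d * A.eval (w⁻¹ + b) := by
  rw [mo_eval_reflect (by rw [mo_comp_natDegree]; exact hA) hw, Polynomial.eval_comp]
  simp

theorem mo_coeff_ne {P Q : Polynomial ℂ} {d : ℕ} (h : RatData P Q d) :
    (P.coeff d, Q.coeff d) ≠ ((0, 0) : ℂ × ℂ) := by
  intro h0
  rw [Prod.mk.injEq] at h0
  have hd := h.deg
  have hd2 := h.two
  rcases le_total P.natDegree Q.natDegree with hle | hle
  · rw [max_eq_right hle] at hd
    have h5 : Q = 0 := by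
      rw [← Polynomial.leadingCoeff_eq_zero, Polynomial.leadingCoeff, hd]
      exact h0.2
    rw [h5] at hd
    simp at hd
    omega
  · rw [max_eq_left hle] at hd
    have h5 : P = 0 := by
      rw [← Polynomial.leadingCoeff_eq_zero, Polynomial.leadingCoeff, hd]
      exact h0.1
    rw [h5] at hd
    simp at hd
    omega

theorem mo_eval_ne {P Q : Polynomial ℂ} (h : IsCoprime P Q) (x : ℂ) :
    (P.eval x, Q.eval x) ≠ ((0, 0) : ℂ × ℂ) := by
  intro h0
  rw [Prod.mk.injEq] at h0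
  exact s05_no_common_zero h x h0.1 h0.2

open Polynomial in
theorem exists_conj {P Q : Polynomial ℂ} {d : ℕ} (h : RatData P Q d) (b : ℂ) :
    ∃ (M : OnePoint ℂ ≃ₜ OnePoint ℂ) (P' Q' : Polynomial ℂ), RatData P' Q' d ∧
      M (b : OnePoint ℂ) = OnePoint.infty ∧ ∀ x, ratMap P' Q' (M x) = M (ratMap P Q x) := by
  have hPd : P.natDegree ≤ d := h.deg ▸ le_max_left _ _
  have hQd : Q.natDegree ≤ d := h.deg ▸ le_max_right _ _
  have hRd : (P - C b * Q).natDegree ≤ d := by
    refine (Polynomial.natDegree_sub_le _ _).trans (max_le hPd ?_)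
    refine Polynomial.natDegree_mul_le.trans ?_
    rw [Polynomial.natDegree_C]
    omega
  have hRe (x : ℂ) : (P - C b * Q).eval x = P.eval x - b * Q.eval x := by
    rw [Polynomial.eval_sub, Polynomial.eval_mul, Polynomial.eval_C]
  have hRc : (P - C b * Q).coeff d = P.coeff d - b * Q.coeff d := by
    rw [Polynomial.coeff_sub, Polynomial.coeff_C_mul]
  set P' : Polynomial ℂ := reflect d (Q.comp (X + C b)) with hP'
  set Q' : Polynomial ℂ := reflect d ((P - C b * Q).comp (X + C b)) with hQ'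
  have hP'd : P'.natDegree ≤ d := by
    refine (Polynomial.natDegree_reflect_le).trans (max_le le_rfl ?_)
    rw [mo_comp_natDegree]
    exact hQd
  have hQ'd : Q'.natDegree ≤ d := by
    refine (Polynomial.natDegree_reflect_le).trans (max_le le_rfl ?_)
    rw [mo_comp_natDegree]
    exact hRd
  have hP'c : P'.coeff d = Q.eval b := mo_coeff_top d Q b
  have hQ'c : Q'.coeff d = P.eval b - b * Q.eval b := by
    rw [hQ', mo_coeff_top, hRe]
  have hdeg : max P'.natDegree Q'.natDegree = d := by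
    apply le_antisymm (max_le hP'd hQ'd)
    by_contra hlt
    rw [not_le, max_lt_iff] at hlt
    have h1 : P'.coeff d = 0 := Polynomial.coeff_eq_zero_of_natDegree_lt hlt.1
    have h2 : Q'.coeff d = 0 := Polynomial.coeff_eq_zero_of_natDegree_lt hlt.2
    rw [hP'c] at h1
    rw [hQ'c, h1, mul_zero, sub_zero] at h2
    exact s05_no_common_zero h.cop b h2 h1
  have hcop : IsCoprime P' Q' := by
    rw [Polynomial.isCoprime_iff_aeval_ne_zero_of_isAlgClosed ℂ ℂ]
    intro w
    rw [Polynomial.coe_aeval_eq_eval]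
    by_contra hno
    rw [not_or, not_not, not_not] at hno
    obtain ⟨h1, h2⟩ := hno
    by_cases hw : w = 0
    · rw [hw] at h1 h2
      rw [hP', mo_eval_zero hQd] at h1
      rw [hQ', mo_eval_zero hRd, hRc, h1, mul_zero, sub_zero] at h2
      exact mo_coeff_ne h (by rw [h1, h2])
    · rw [hP', mo_eval_other hQd b hw] at h1
      rw [hQ', mo_eval_other hRd b hw, hRe] at h2
      have h3 : Q.eval (w⁻¹ + b) = 0 := by
        rcases mul_eq_zero.1 h1 with h | h
        · exact absurd h (pow_ne_zero _ hw)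
        · exact h
      have h4 : P.eval (w⁻¹ + b) = 0 := by
        rcases mul_eq_zero.1 h2 with h | h
        · exact absurd h (pow_ne_zero _ hw)
        · rw [h3, mul_zero, sub_zero] at h
          exact h
      exact s05_no_common_zero h.cop _ h4 h3
  refine ⟨mo_homeo b, P', Q', ⟨hcop, hdeg, h.two⟩, ?_, ?_⟩
  · rw [mo_homeo_apply]
    simp [mo_M, ratio]
  · intro x
    rw [mo_homeo_apply, mo_homeo_apply]
    cases x using OnePoint.rec with
    | infty =>
      have e1 : mo_M b OnePoint.infty = ((0 : ℂ) : OnePoint ℂ) := by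
        simp [mo_M, ratio]
      have e2 : ratMap P Q OnePoint.infty = ratio (P.coeff d) (Q.coeff d) := by
        show ratio (P.coeff (max P.natDegree Q.natDegree))
          (Q.coeff (max P.natDegree Q.natDegree)) = _
        rw [h.deg]
      rw [e1, e2, mo_M_ratio b (mo_coeff_ne h)]
      show ratio (P'.eval 0) (Q'.eval 0) = _
      rw [hP', mo_eval_zero hQd, hQ', mo_eval_zero hRd, hRc]
    | coe x =>
      have e2 : ratMap P Q (x : OnePoint ℂ) = ratio (P.eval x) (Q.eval x) := rfl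
      rw [e2, mo_M_ratio b (mo_eval_ne h.cop x)]
      by_cases hx : x = b
      · have e1 : mo_M b (x : OnePoint ℂ) = OnePoint.infty := by
          rw [hx]
          simp [mo_M, ratio]
        rw [e1]
        show ratio (P'.coeff (max P'.natDegree Q'.natDegree))
          (Q'.coeff (max P'.natDegree Q'.natDegree)) = _
        rw [hdeg, hP'c, hQ'c, hx]
      · have hxb : x - b ≠ 0 := sub_ne_zero.2 hx
        have e1 : mo_M b (x : OnePoint ℂ) = (((x - b)⁻¹ : ℂ) : OnePoint ℂ) := by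
          simp [mo_M, ratio, hxb]
        rw [e1]
        show ratio (P'.eval (x - b)⁻¹) (Q'.eval (x - b)⁻¹) = _
        have hw : (x - b)⁻¹ ≠ 0 := inv_ne_zero hxb
        rw [hP', mo_eval_other hQd b hw, hQ', mo_eval_other hRd b hw, inv_inv, sub_add_cancel, hRe,
          mo_ratio_mul (pow_ne_zero _ hw)]

end Pool.Agent.Lib.MP_e4ee3e_an.Q1
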