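import Pool.Agent.Lib.MP_e4ee3e_an.Q1.Defs

/-!
TP. Transport by a topological conjugacy M of the sphere, f' o M = M o f.

codes_of_conj: from a tree T' of f' with root M a build the tree T of f with root a: child i =
M⁻¹ (T'.child i), curves and edges composed with M⁻¹; vertices and limits correspond
(T.vertex n α = M⁻¹ (T'.vertex n α)), same domain, codingMap = M⁻¹ o T'.codingMap on the domain. For a
measure m on F take m' = m.map M, a probability on M '' F, and its μ: μ.map T'.codingMap = m.map M, so
μ.map T.codingMap = m (AEMeasurable of T'.codingMap: limit of the measurable vertex maps; if needed use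
Measure.map_map via AEMeasurable: note μ.map T'.codingMap = m.map M ≠ 0 forces AEMeasurable of
T'.codingMap (Measure.map_of_not_aemeasurable gives 0)). Critical points correspond (isCritPt_conj).
-/

open MeasureTheory Filter Topology

namespace Pool.Agent.Lib.MP_e4ee3e_an.Q1

variable {f f' : OnePoint ℂ → OnePoint ℂ} (M : OnePoint ℂ ≃ₜ OnePoint ℂ)

theorem iterate_conj (hM : ∀ x, f' (M x) = M (f x)) (n : ℕ) (x : OnePoint ℂ) :
    f'^[n] (M x) = M (f^[n] x) := by
  have h : Function.Semiconj M f f' := fun y => (hM y).symm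
  exact ((h.iterate_right n) x).symm

theorem isCritPt_conj (hM : ∀ x, f' (M x) = M (f x)) {c : OnePoint ℂ} :
    IsCritPt f' (M c) ↔ IsCritPt f c := by
  constructor
  · intro h U hU hinj
    refine h (M '' U) ?_ ?_
    · rw [← M.map_nhds_eq]; exact Filter.image_mem_map hU
    · rintro _ ⟨x, hx, rfl⟩ _ ⟨y, hy, rfl⟩ hxy
      rw [hM, hM] at hxy
      rw [hinj hx hy (M.injective hxy)]
  · intro h V hV hinj
    refine h (M ⁻¹' V) (M.continuous.continuousAt.preimage_mem_nhds hV) ?_
    intro x hx y hy hxy
    refine M.injective (hinj hx hy ?_)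
    rw [hM, hM, hxy]

theorem isAttracting_conj (hM : ∀ x, f' (M x) = M (f x)) {a : OnePoint ℂ}
    (ha : IsAttracting f a) : IsAttracting f' (M a) := by
  obtain ⟨h1, V, hV, h2⟩ := ha
  refine ⟨by rw [hM, h1], M '' V, ?_, ?_⟩
  · rw [← M.map_nhds_eq]; exact Filter.image_mem_map hV
  · intro U hU
    filter_upwards [h2 (M ⁻¹' U) (M.continuous.continuousAt.preimage_mem_nhds hU)] with n hn
    rintro _ ⟨z, hz, rfl⟩
    rw [iterate_conj M hM]
    exact hn z hz

theorem basin_conj (hM : ∀ x, f' (M x) = M (f x)) (a : OnePoint ℂ) :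
    basin f' (M a) = M '' basin f a := by
  have key : ∀ x, M x ∈ basin f' (M a) ↔ x ∈ basin f a := by
    intro x
    have e : (fun n => f'^[n] (M x)) = M ∘ (fun n => f^[n] x) := by
      funext n
      exact iterate_conj M hM n x
    show Tendsto (fun n => f'^[n] (M x)) atTop (𝓝 (M a)) ↔ Tendsto (fun n => f^[n] x) atTop (𝓝 a)
    rw [e]
    exact M.isInducing.tendsto_nhds_iff.symm
  ext y
  constructor
  · intro hy
    refine ⟨M.symm y, ?_, M.apply_symm_apply y⟩
    rw [← key, M.apply_symm_apply]
    exact hy
  · rintro ⟨x, hx, rfl⟩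
    exact (key x).2 hx

theorem immediateBasin_conj (hM : ∀ x, f' (M x) = M (f x)) {a : OnePoint ℂ} (ha : f a = a) :
    immediateBasin f' (M a) = M '' immediateBasin f a := by
  have hmem : a ∈ basin f a := by
    show Tendsto (fun n => f^[n] a) atTop (𝓝 a)
    have e : (fun n => f^[n] a) = fun _ => a := by
      funext n
      exact Function.iterate_fixed ha n
    rw [e]
    exact tendsto_const_nhds
  unfold immediateBasin
  rw [basin_conj M hM, M.image_connectedComponentIn hmem]

theorem frontier_immediateBasin_conj (hM : ∀ x, f' (M x) = M (f x)) {a : OnePoint ℂ}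
    (ha : f a = a) :
    frontier (immediateBasin f' (M a)) = M '' frontier (immediateBasin f a) := by
  rw [immediateBasin_conj M hM ha, M.image_frontier]

theorem tp_symm (hM : ∀ x, f' (M x) = M (f x)) (x : OnePoint ℂ) :
    f (M.symm x) = M.symm (f' x) := by
  apply M.injective
  rw [← hM, M.apply_symm_apply, M.apply_symm_apply]

/-- the pulled back curve -/
noncomputable def tp_curve (γ : C(unitInterval, OnePoint ℂ)) : C(unitInterval, OnePoint ℂ) :=
  ⟨fun t => M.symm (γ t), M.symm.continuous.comp γ.continuous⟩

/-- the pulled back tree -/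
noncomputable def tp_tree (hM : ∀ x, f' (M x) = M (f x)) {d : ℕ} {a : OnePoint ℂ} (T' : CodingTree f' d)
    (hr : T'.root = M a) : CodingTree f d where
  root := a
  child i := M.symm (T'.child i)
  child_injective := fun i j hij => T'.child_injective (M.symm.injective hij)
  map_child i := by rw [tp_symm M hM, T'.map_child, hr, M.symm_apply_apply]
  curve i := tp_curve M (T'.curve i)
  curve_zero i := by
    show M.symm (T'.curve i 0) = a
    rw [T'.curve_zero, hr, M.symm_apply_apply]
  curve_one i := by
    show M.symm (T'.curve i 1) = M.symm (T'.child i)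
    rw [T'.curve_one]
  edge n α := tp_curve M (T'.edge n α)
  edge_zero α := by rw [T'.edge_zero]
  edge_succ_map n α t := by
    show f (M.symm (T'.edge (n + 1) α t)) = M.symm (T'.edge n (shift α) t)
    rw [tp_symm M hM, T'.edge_succ_map]
  edge_succ_start n α := by
    show M.symm (T'.edge (n + 1) α 0) = M.symm (T'.edge n α 1)
    rw [T'.edge_succ_start]

theorem codes_of_conj [MeasurableSpace (OnePoint ℂ)] [BorelSpace (OnePoint ℂ)]
    (hM : ∀ x, f' (M x) = M (f x)) {d : ℕ} {a : OnePoint ℂ} {F : Set (OnePoint ℂ)}
    (hc : Codes f' d (M a) (M '' F)) : Codes f d a F := by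
  obtain ⟨T', hroot, hul, hav, hme⟩ := hc
  have hv : ∀ n α, (tp_tree M hM T' hroot).vertex n α = M.symm (T'.vertex n α) := fun _ _ => rfl
  have hdom : ∀ α x, Tendsto (fun n => T'.vertex n α) atTop (𝓝 x) →
      Tendsto (fun n => (tp_tree M hM T' hroot).vertex n α) atTop (𝓝 (M.symm x)) := by
    intro α x hx
    exact (M.symm.continuous.tendsto x).comp hx
  refine ⟨tp_tree M hM T' hroot, rfl, ?_, ?_, ?_⟩
  · intro n α γ h1 h0
    have h2 : (⟨fun t => M (γ t), M.continuous.comp γ.continuous⟩ : C(unitInterval, OnePoint ℂ)) =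
        T'.edge (n + 1) α := by
      apply hul n α
      · intro t
        show f' (M (γ t)) = T'.edge n (shift α) t
        rw [hM, h1 t]
        exact M.apply_symm_apply _
      · show M (γ 0) = T'.edge n α 1
        rw [h0]
        exact M.apply_symm_apply _
    ext t
    show γ t = M.symm (T'.edge (n + 1) α t)
    rw [← h2]
    exact (M.symm_apply_apply (γ t)).symm
  · intro c hc n hn i t h
    refine hav (M c) ((isCritPt_conj M hM).2 hc) n hn i t ?_
    rw [iterate_conj M hM, ← h]
    exact (M.apply_symm_apply _).symm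
  · intro m hm hF
    have hmeas : Measurable M := M.continuous.measurable
    have hmeas' : Measurable M.symm := M.symm.continuous.measurable
    have hm' : IsProbabilityMeasure (m.map M) := Measure.isProbabilityMeasure_map hmeas.aemeasurable
    have hF' : (m.map M) (M '' F)ᶜ = 0 := by
      have := M.toMeasurableEquiv.map_apply (μ := m) (M '' F)ᶜ
      rw [show (M.toMeasurableEquiv : OnePoint ℂ → OnePoint ℂ) = M from rfl] at this
      rw [this, Set.preimage_compl, Set.preimage_image_eq _ M.injective, hF]
    obtain ⟨μ, hμ, hμd, hμm⟩ := hme (m.map M) hm' hF'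
    have hae : AEMeasurable T'.codingMap μ := by
      by_contra hcon
      rw [Measure.map_of_not_aemeasurable hcon] at hμm
      have h1 : (m.map M) Set.univ = 1 := hm'.measure_univ
      rw [← hμm] at h1
      simp at h1
    refine ⟨μ, hμ, ?_, ?_⟩
    · refine measure_mono_null ?_ hμd
      apply Set.compl_subset_compl.2
      rintro α ⟨x, hx⟩
      exact ⟨M.symm x, hdom α x hx⟩
    · have hcong : (tp_tree M hM T' hroot).codingMap =ᵐ[μ] fun α => M.symm (T'.codingMap α) := by
        have : ∀ᵐ α ∂μ, α ∈ T'.domain := by
          rw [ae_iff]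
          exact hμd
        filter_upwards [this] with α hα
        obtain ⟨x, hx⟩ := hα
        have e1 : T'.codingMap α = x := hx.limUnder_eq
        have e2 : (tp_tree M hM T' hroot).codingMap α = M.symm x := (hdom α x hx).limUnder_eq
        rw [e1, e2]
      rw [Measure.map_congr hcong]
      have h3 : μ.map (fun α => M.symm (T'.codingMap α)) = (μ.map T'.codingMap).map M.symm :=
        (AEMeasurable.map_map_of_aemeasurable hmeas'.aemeasurable hae).symm
      rw [h3, hμm, Measure.map_map hmeas' hmeas]
      have h4 : (M.symm : OnePoint ℂ → OnePoint ℂ) ∘ M = id := by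
        funext x
        exact M.symm_apply_apply x
      rw [h4, Measure.map_id]

end Pool.Agent.Lib.MP_e4ee3e_an.Q1
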