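import Pool.Agent.Lib.MP_e4ee3e_an.Q1.BA

/-!
BC. Good discs and circles.

exists_disc_ok: take r₁ < ‖q - a₀‖ / 2 with the disc of radius r₁ about q inside the basin (isOpen_basin).
If f^k c is in that disc for some k then c is in the basin, f^k c → a₀, so f^k c is in the disc for
finitely many k only. The marked set is finite (marked_finite), so finitely many pairs (k, c) have f^k c
in the disc; all these values are different from q (q is good): decrease r.
exists_good_circle: the set Goodᶜ is countable; so the set of distances to a₀ of its finite points is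
countable, and there is ρ in (0, δ) outside it. countable_preimage: fibres of f are finite (see
fiber_finite / ratMap facts in S04, S05, T07 or X files; or the fibre over y is the zero set of P - yQ).
-/

open MeasureTheory Filter Topology

namespace Pool.Agent.Lib.MP_e4ee3e_an.Q1

attribute [local instance] chMetric

variable {P Q : Polynomial ℂ} {d : ℕ}

theorem countable_compl_good (h : RatData P Q d) : ((Good P Q)ᶜ).Countable := by
  have h1 : ({OnePoint.infty} ∪ ⋃ k : ℕ, ⋃ c ∈ marked P Q, {(ratMap P Q)^[k] c} :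
      Set (OnePoint ℂ)).Countable := by
    refine (Set.countable_singleton _).union (Set.countable_iUnion fun k => ?_)
    exact (marked_finite h).countable.biUnion fun c _ => Set.countable_singleton _
  refine h1.mono ?_
  intro y hy
  by_cases hinf : y = OnePoint.infty
  · exact Or.inl hinf
  · right
    by_contra hcon
    apply hy
    refine ⟨hinf, ?_⟩
    intro k _ c hc hk
    apply hcon
    rw [Set.mem_iUnion]
    refine ⟨k, ?_⟩
    rw [Set.mem_iUnion₂]
    exact ⟨c, hc, hk.symm⟩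

theorem countable_preimage (h : RatData P Q d) (n : ℕ)
    {C : Set (OnePoint ℂ)} (hC : C.Countable) : ((ratMap P Q)^[n] ⁻¹' C).Countable := by
  have h1 : (⋃ y ∈ C, {x | (ratMap P Q)^[n] x = y}).Countable :=
    hC.biUnion fun y _ => (ratMap_iter_fiber_finite h n y).countable
  refine h1.mono ?_
  intro x hx
  rw [Set.mem_iUnion₂]
  exact ⟨_, hx, rfl⟩

theorem bc_iter_basin {f : OnePoint ℂ → OnePoint ℂ} {a c : OnePoint ℂ} (k : ℕ)
    (h : f^[k] c ∈ basin f a) : c ∈ basin f a := (iterate_mem_basin_iff k).1 h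

/-- Near a good point of the basin different from `a` there is no iterated image of a marked point. -/
theorem exists_disc_ok (h : RatData P Q d) {a₀ : ℂ}
    (ha : IsAttracting (ratMap P Q) (a₀ : OnePoint ℂ)) {q : ℂ}
    (hq : (q : OnePoint ℂ) ∈ basin (ratMap P Q) a₀) (hqa : q ≠ a₀)
    (hgood : (q : OnePoint ℂ) ∈ Good P Q) :
    ∃ r : ℝ, 0 < r ∧ (∀ n, DiscOK P Q n q r) ∧ r < ‖q - a₀‖ ∧
      ∀ w ∈ Metric.ball q r, (w : OnePoint ℂ) ∈ basin (ratMap P Q) a₀ := by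
  have hBo : IsOpen (((↑) : ℂ → OnePoint ℂ) ⁻¹' basin (ratMap P Q) a₀) :=
    (isOpen_basin h ha).preimage OnePoint.continuous_coe
  obtain ⟨ρ, hρ0, hρ⟩ := Metric.isOpen_iff.1 hBo q hq
  have hnq : 0 < ‖q - a₀‖ := norm_pos_iff.2 (sub_ne_zero.2 hqa)
  set r₁ : ℝ := min ρ (‖q - a₀‖ / 2) with hr₁
  have hr₁0 : 0 < r₁ := lt_min hρ0 (by linarith)
  have hr₁ρ : r₁ ≤ ρ := min_le_left _ _
  have hr₁q : r₁ ≤ ‖q - a₀‖ / 2 := min_le_right _ _
  have hcl : IsClosed (((↑) : ℂ → OnePoint ℂ) '' Metric.closedBall q r₁) :=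
    ((isCompact_closedBall q r₁).image OnePoint.continuous_coe).isClosed
  have hnh : (((↑) : ℂ → OnePoint ℂ) '' Metric.closedBall q r₁)ᶜ ∈ 𝓝 (a₀ : OnePoint ℂ) := by
    refine hcl.isOpen_compl.mem_nhds ?_
    rintro ⟨z, hz, hz2⟩
    have h1 := OnePoint.coe_injective hz2
    subst h1
    rw [Metric.mem_closedBall, dist_comm, dist_eq_norm] at hz
    linarith
  have hfin : ∀ c : OnePoint ℂ, ({k : ℕ | ∃ z ∈ Metric.ball q r₁, (ratMap P Q)^[k] c = (z : OnePoint ℂ)}).Finite := by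
    intro c
    by_cases hc : c ∈ basin (ratMap P Q) (a₀ : OnePoint ℂ)
    · have h1 : ∀ᶠ k in atTop, (ratMap P Q)^[k] c ∈
          (((↑) : ℂ → OnePoint ℂ) '' Metric.closedBall q r₁)ᶜ :=
        (hc : Tendsto (fun n => (ratMap P Q)^[n] c) atTop (𝓝 (a₀ : OnePoint ℂ))) hnh
      obtain ⟨N, hN⟩ := eventually_atTop.1 h1
      refine (Set.finite_lt_nat N).subset ?_
      rintro k ⟨z, hz, hzk⟩
      by_contra hk
      have hk' : N ≤ k := not_lt.1 hk
      exact hN k hk' ⟨z, Metric.ball_subset_closedBall hz, hzk.symm⟩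
    · refine Set.finite_empty.subset ?_
      rintro k ⟨z, hz, hzk⟩
      apply hc
      apply bc_iter_basin k
      rw [hzk]
      exact hρ (Metric.ball_subset_ball hr₁ρ hz)
  have hW : ({z : ℂ | z ∈ Metric.ball q r₁ ∧ ∃ k, 1 ≤ k ∧ ∃ c ∈ marked P Q,
      (ratMap P Q)^[k] c = (z : OnePoint ℂ)}).Finite := by
    have h1 : (⋃ c ∈ marked P Q, ⋃ k ∈ {k : ℕ | ∃ z ∈ Metric.ball q r₁, (ratMap P Q)^[k] c = (z : OnePoint ℂ)},
        {z : ℂ | (ratMap P Q)^[k] c = (z : OnePoint ℂ)}).Finite := by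
      refine (marked_finite h).biUnion fun c _ => (hfin c).biUnion fun k _ => ?_
      refine Set.Subsingleton.finite ?_
      intro z hz w hw
      have hz' : (ratMap P Q)^[k] c = (z : OnePoint ℂ) := hz
      have hw' : (ratMap P Q)^[k] c = (w : OnePoint ℂ) := hw
      exact OnePoint.coe_injective (hz'.symm.trans hw')
    refine h1.subset ?_
    rintro z ⟨hz, k, _, c, hc, hk⟩
    rw [Set.mem_iUnion₂]
    refine ⟨c, hc, ?_⟩
    rw [Set.mem_iUnion₂]
    exact ⟨k, ⟨z, hz, hk⟩, hk⟩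
  have hqW : q ∉ {z : ℂ | z ∈ Metric.ball q r₁ ∧ ∃ k, 1 ≤ k ∧ ∃ c ∈ marked P Q,
      (ratMap P Q)^[k] c = (z : OnePoint ℂ)} := by
    rintro ⟨_, k, hk1, c, hc, hk⟩
    exact hgood.2 k hk1 c hc hk
  obtain ⟨r₂, hr₂0, hr₂⟩ := Metric.isOpen_iff.1 hW.isClosed.isOpen_compl q hqW
  refine ⟨min r₁ r₂, lt_min hr₁0 hr₂0, ?_, ?_, ?_⟩
  · intro n w hw k hk1 _ c hc hk
    have hw1 : w ∈ Metric.ball q r₁ := Metric.ball_subset_ball (min_le_left _ _) hw
    have hw2 : w ∈ Metric.ball q r₂ := Metric.ball_subset_ball (min_le_right _ _) hw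
    exact hr₂ hw2 ⟨hw1, k, hk1, c, hc, hk⟩
  · have := min_le_left r₁ r₂
    linarith
  · intro w hw
    exact hρ (Metric.ball_subset_ball ((min_le_left _ _).trans hr₁ρ) hw)

/-- Small circles about `a` consisting of good points. -/
theorem exists_good_circle (h : RatData P Q d) (a₀ : ℂ) (δ : ℝ) (hδ : 0 < δ) :
    ∃ ρ : ℝ, 0 < ρ ∧ ρ < δ ∧ ∀ z : ℂ, ‖z - a₀‖ = ρ → (z : OnePoint ℂ) ∈ Good P Q := by
  have h1 : ((((↑) : ℂ → OnePoint ℂ) ⁻¹' (Good P Q)ᶜ)).Countable :=
    (countable_compl_good h).preimage_of_injOn OnePoint.coe_injective.injOn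
  have h2 : ((fun z : ℂ => ‖z - a₀‖) '' (((↑) : ℂ → OnePoint ℂ) ⁻¹' (Good P Q)ᶜ)).Countable :=
    h1.image _
  have h3 := h2.dense_compl ℝ
  obtain ⟨ρ, hρ1, hρ2⟩ := h3.inter_open_nonempty (Set.Ioo 0 δ) isOpen_Ioo
    (Set.nonempty_Ioo.2 hδ)
  refine ⟨ρ, hρ1.1, hρ1.2, ?_⟩
  intro z hz
  by_contra hcon
  exact hρ2 ⟨z, hcon, hz⟩

/-- Small discs about the attracting fixed point are in the basin. -/
theorem exists_disc_basin (h : RatData P Q d) {a₀ : ℂ}
    (ha : IsAttracting (ratMap P Q) (a₀ : OnePoint ℂ)) :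
    ∃ ρ : ℝ, 0 < ρ ∧ DD a₀ ρ ⊆ basin (ratMap P Q) a₀ := by
  have hBo : IsOpen (((↑) : ℂ → OnePoint ℂ) ⁻¹' basin (ratMap P Q) a₀) :=
    (isOpen_basin h ha).preimage OnePoint.continuous_coe
  obtain ⟨ρ, hρ0, hρ⟩ := Metric.isOpen_iff.1 hBo a₀ (self_mem_basin ha)
  refine ⟨ρ, hρ0, ?_⟩
  rintro x ⟨z, hz, rfl⟩
  exact hρ hz

end Pool.Agent.Lib.MP_e4ee3e_an.Q1
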