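import Pool.Agent.Lib.MP_e4ee3e_an.KDefs

/-!
MP_e4ee3e_an, question Q1, immediate basins of attracting fixed points: definitions.
-/

open MeasureTheory Filter Topology

namespace Pool.Agent.Lib.MP_e4ee3e_an

/-- The fixed point `a` of `f` is attracting: the iterates of `f` converge to `a` uniformly on a
neighbourhood of `a`. -/
def IsAttracting (f : OnePoint ℂ → OnePoint ℂ) (a : OnePoint ℂ) : Prop :=
  f a = a ∧ ∃ V ∈ 𝓝 a, ∀ U ∈ 𝓝 a, ∀ᶠ n in atTop, ∀ z ∈ V, f^[n] z ∈ U

/-- The basin of `a`: the points whose orbit converges to `a`. -/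
def basin (f : OnePoint ℂ → OnePoint ℂ) (a : OnePoint ℂ) : Set (OnePoint ℂ) :=
  {z | Tendsto (fun n => f^[n] z) atTop (𝓝 a)}

/-- The immediate basin of `a`: the connected component of the basin that contains `a`. -/
def immediateBasin (f : OnePoint ℂ → OnePoint ℂ) (a : OnePoint ℂ) : Set (OnePoint ℂ) :=
  connectedComponentIn (basin f a) a

/-- The map `f` has a geometric coding tree with root `a`, `d` children, unique lifts and curves
avoiding the critical values of the iterates, through which every Borel probability measure on `F`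
is an image of a probability measure on the sequences. -/
def Codes [MeasurableSpace (OnePoint ℂ)] (f : OnePoint ℂ → OnePoint ℂ) (d : ℕ) (a : OnePoint ℂ)
    (F : Set (OnePoint ℂ)) : Prop :=
  ∃ T : CodingTree f d, T.root = a ∧ T.UniqueLifts ∧ T.AvoidsCriticalValues ∧
    ∀ m : Measure (OnePoint ℂ), IsProbabilityMeasure m → m Fᶜ = 0 →
      ∃ μ : Measure (ℕ → Fin d), IsProbabilityMeasure μ ∧ μ T.domainᶜ = 0 ∧
        μ.map T.codingMap = m

namespace Q1

/-- Good points: finite, and not an iterated image of a marked point (the marked points are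
infinity and the zeros of the Wronskian; all critical points are marked). -/
def Good (P Q : Polynomial ℂ) : Set (OnePoint ℂ) :=
  {y | y ≠ OnePoint.infty ∧ ∀ k, 1 ≤ k → ∀ c ∈ marked P Q, (ratMap P Q)^[k] c ≠ y}

/-- The disc of radius r about a₀, in the sphere. -/
def DD (a₀ : ℂ) (r : ℝ) : Set (OnePoint ℂ) := ((↑) : ℂ → OnePoint ℂ) '' Metric.ball a₀ r

/-- Standing hypotheses of the main construction. -/
structure Ctx (P Q : Polynomial ℂ) (d : ℕ) (a₀ : ℂ) : Prop where
  data : RatData P Q d
  attr : IsAttracting (ratMap P Q) (a₀ : OnePoint ℂ)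
  good : (a₀ : OnePoint ℂ) ∈ Good P Q

theorem good_iff {P Q : Polynomial ℂ} {y : OnePoint ℂ} :
    y ∈ Good P Q ↔ y ≠ OnePoint.infty ∧ ∀ n, AvoidN P Q n y :=
  ⟨fun h => ⟨h.1, fun _ k hk _ => h.2 k hk⟩, fun h => ⟨h.1, fun k hk => h.2 k k hk le_rfl⟩⟩

theorem goodPath_iff {P Q : Polynomial ℂ} {γ : C(unitInterval, OnePoint ℂ)} :
    GoodPath P Q γ ↔ ∀ t, γ t ∈ Good P Q :=
  ⟨fun h t => good_iff.2 (h t), fun h t => good_iff.1 (h t)⟩

/-- Points whose iterated image is good are good. -/
theorem good_of_image {P Q : Polynomial ℂ} {n : ℕ} {x : OnePoint ℂ}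
    (hx : (ratMap P Q)^[n] x ∈ Good P Q) : x ∈ Good P Q := by
  refine ⟨fun h => ?_, fun k hk c hc h => ?_⟩
  · rcases Nat.eq_zero_or_pos n with rfl | hn
    · exact hx.1 h
    · exact hx.2 n hn _ (Or.inl h) rfl
  · refine hx.2 (n + k) (by omega) c hc ?_
    rw [Function.iterate_add_apply, h]

end Q1

end Pool.Agent.Lib.MP_e4ee3e_an
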