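import Pool.Agent.Lib.MP_e4ee3e_an.K05
import Pool.Agent.Lib.MP_e4ee3e_an.Q1.Defs

/-!
PT. Curves in open connected subsets of the sphere avoiding a countable set. See K05 for the plane
(k05_ball: a ball of the plane minus a countable set is path connected). Every point x of the sphere has
arbitrarily small open neighbourhoods N such that N \ C is path connected for every countable C
(at infinity: transport by the homeomorphism z ↦ 1/z of the sphere, exchanging 0 and ∞; or directly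
{‖z‖ > R} ∪ {∞}: take the image of a ball at 0 under it). Then the argument of exists_path_avoid in K05
(the set of x in U with a neighbourhood N as above whose points outside C are joined to u in U \ C is
open, and so is its complement in U).

exists_curve_from: the curve avoids C for t > 0 but may start at a point of C: if u = v take the constant
curve; otherwise take a curve avoiding C \ {u}, let t₁ be the last time at u (compactness) and
reparametrise the restriction to [t₁, 1].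
-/

open MeasureTheory Filter Topology

namespace Pool.Agent.Lib.MP_e4ee3e_an.Q1

/-- inversion, as a map from the plane to the sphere -/
noncomputable def ptInv (w : ℂ) : OnePoint ℂ :=
  if w = 0 then OnePoint.infty else ((w⁻¹ : ℂ) : OnePoint ℂ)

theorem ptInv_zero : ptInv 0 = OnePoint.infty := by simp [ptInv]

theorem ptInv_ne {w : ℂ} (h : w ≠ 0) : ptInv w = ((w⁻¹ : ℂ) : OnePoint ℂ) := by simp [ptInv, h]

theorem ptInv_injective : Function.Injective ptInv := by
  intro a b h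
  by_cases ha : a = 0 <;> by_cases hb : b = 0
  · rw [ha, hb]
  · rw [ha, ptInv_zero, ptInv_ne hb] at h
    exact absurd h.symm (OnePoint.coe_ne_infty _)
  · rw [hb, ptInv_zero, ptInv_ne ha] at h
    exact absurd h (OnePoint.coe_ne_infty _)
  · rw [ptInv_ne ha, ptInv_ne hb] at h
    exact inv_injective (OnePoint.coe_injective h)

theorem ptInv_continuous : Continuous ptInv := by
  rw [continuous_iff_continuousAt]
  intro w
  by_cases hw : w = 0
  · subst hw
    rw [ContinuousAt, ptInv_zero]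
    intro U hU
    obtain ⟨s, ⟨_, hs⟩, hsU⟩ := OnePoint.hasBasis_nhds_infty.mem_iff.1 hU
    obtain ⟨R, hR⟩ := hs.isBounded.subset_closedBall 0
    have hR1 : 0 < |R| + 1 := by positivity
    rw [Filter.mem_map]
    refine Filter.mem_of_superset (Metric.ball_mem_nhds (0 : ℂ) (inv_pos.2 hR1)) ?_
    intro z hz
    rw [Set.mem_preimage]
    by_cases hz0 : z = 0
    · rw [hz0, ptInv_zero]
      exact hsU (Or.inr rfl)
    · rw [ptInv_ne hz0]
      apply hsU
      left
      refine ⟨z⁻¹, ?_, rfl⟩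
      intro hzs
      have h1 := hR hzs
      rw [Metric.mem_closedBall, dist_zero_right, norm_inv] at h1
      rw [Metric.mem_ball, dist_zero_right] at hz
      have h2 : 0 < ‖z‖ := norm_pos_iff.2 hz0
      have h3 : |R| + 1 < ‖z‖⁻¹ := by
        rw [lt_inv_comm₀ hR1 h2]; exact hz
      have h4 := le_abs_self R
      linarith
  · have h1 : ContinuousAt (fun z : ℂ => ((z⁻¹ : ℂ) : OnePoint ℂ)) w :=
      (OnePoint.continuous_coe.continuousAt).comp (continuousAt_inv₀ hw)
    refine h1.congr ?_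
    filter_upwards [isOpen_ne.mem_nhds hw] with z hz
    exact (ptInv_ne hz).symm

theorem ptInv_isOpen {ρ : ℝ} (hρ : 0 < ρ) : IsOpen (ptInv '' Metric.ball 0 ρ) := by
  have h1 : (ptInv '' Metric.ball 0 ρ)ᶜ = ((↑) : ℂ → OnePoint ℂ) '' Metric.closedBall 0 ρ⁻¹ := by
    ext x
    constructor
    · intro hx
      induction x using OnePoint.rec with
      | infty =>
        exfalso
        exact hx ⟨0, Metric.mem_ball_self hρ, ptInv_zero⟩
      | coe z =>
        refine ⟨z, ?_, rfl⟩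
        by_contra hz
        rw [Metric.mem_closedBall, dist_zero_right, not_le] at hz
        have hz0 : z ≠ 0 := by
          rintro rfl
          rw [norm_zero] at hz
          exact absurd hz (not_lt.2 (inv_pos.2 hρ).le)
        apply hx
        refine ⟨z⁻¹, ?_, ?_⟩
        · rw [Metric.mem_ball, dist_zero_right, norm_inv]
          exact inv_lt_of_inv_lt₀ hρ hz
        · rw [ptInv_ne (inv_ne_zero hz0), inv_inv]
    · rintro ⟨z, hz, rfl⟩ ⟨w, hw, hwz⟩
      by_cases hw0 : w = 0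
      · rw [hw0, ptInv_zero] at hwz
        exact OnePoint.coe_ne_infty _ hwz.symm
      · rw [ptInv_ne hw0] at hwz
        have h2 : w⁻¹ = z := OnePoint.coe_injective hwz
        rw [Metric.mem_closedBall, dist_zero_right, ← h2, norm_inv] at hz
        rw [Metric.mem_ball, dist_zero_right] at hw
        have h3 : 0 < ‖w‖ := norm_pos_iff.2 hw0
        have h4 : ρ ≤ ‖w‖ := (inv_le_inv₀ h3 hρ).1 hz
        linarith
  rw [← isClosed_compl_iff, h1]
  exact ((isCompact_closedBall (0 : ℂ) ρ⁻¹).image OnePoint.continuous_coe).isClosed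

theorem pt_image {f : ℂ → OnePoint ℂ} (hf : Continuous f) (hinj : Function.Injective f)
    {C : Set (OnePoint ℂ)} (hC : C.Countable) {c : ℂ} {r : ℝ} (hr : 0 < r) :
    IsPathConnected (f '' Metric.ball c r \ C) := by
  have h1 : (f ⁻¹' C).Countable := hC.preimage hinj
  have h2 := (k05_ball (c := c) hr h1).image hf
  have h3 : f '' (Metric.ball c r \ f ⁻¹' C) = f '' Metric.ball c r \ C := by
    ext x
    constructor
    · rintro ⟨z, ⟨hz1, hz2⟩, rfl⟩
      exact ⟨⟨z, hz1, rfl⟩, hz2⟩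
    · rintro ⟨⟨z, hz1, rfl⟩, hz2⟩
      exact ⟨z, ⟨hz1, hz2⟩, rfl⟩
  rwa [h3] at h2

theorem pt_local (x : OnePoint ℂ) {C W : Set (OnePoint ℂ)} (hC : C.Countable) (hW : W ∈ 𝓝 x) :
    ∃ N, IsOpen N ∧ x ∈ N ∧ N ⊆ W ∧ IsPathConnected (N \ C) := by
  induction x using OnePoint.rec with
  | infty =>
    have h1 : ptInv ⁻¹' W ∈ 𝓝 (0 : ℂ) := by
      apply ptInv_continuous.continuousAt
      rw [ptInv_zero]
      exact hW
    obtain ⟨ρ, hρ, hρW⟩ := Metric.mem_nhds_iff.1 h1
    refine ⟨ptInv '' Metric.ball 0 ρ, ptInv_isOpen hρ, ⟨0, Metric.mem_ball_self hρ, ptInv_zero⟩,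
      Set.image_subset_iff.2 hρW, pt_image ptInv_continuous ptInv_injective hC hρ⟩
  | coe z =>
    have h1 : ((↑) : ℂ → OnePoint ℂ) ⁻¹' W ∈ 𝓝 z := OnePoint.continuous_coe.continuousAt hW
    obtain ⟨ρ, hρ, hρW⟩ := Metric.mem_nhds_iff.1 h1
    refine ⟨((↑) : ℂ → OnePoint ℂ) '' Metric.ball z ρ,
      OnePoint.isOpenEmbedding_coe.isOpenMap _ Metric.isOpen_ball,
      ⟨z, Metric.mem_ball_self hρ, rfl⟩, Set.image_subset_iff.2 hρW,
      pt_image OnePoint.continuous_coe OnePoint.coe_injective hC hρ⟩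

theorem pt_joined {U C : Set (OnePoint ℂ)} (hU : IsOpen U) (hc : IsPreconnected U)
    (hC : C.Countable) {u v : OnePoint ℂ} (hu : u ∈ U) (hv : v ∈ U) (huC : u ∉ C) (hvC : v ∉ C) :
    JoinedIn (U \ C) u v := by
  set U1 : Set (OnePoint ℂ) := {z | ∃ N, IsOpen N ∧ z ∈ N ∧
    ∀ w ∈ N \ C, JoinedIn (U \ C) u w} with hU1
  set U2 : Set (OnePoint ℂ) := {z | ∃ N, IsOpen N ∧ z ∈ N ∧
    ∀ w ∈ N \ C, ¬ JoinedIn (U \ C) u w} with hU2
  have ho1 : IsOpen U1 := by
    rw [isOpen_iff_mem_nhds]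
    rintro z ⟨N, hN, hz, hj⟩
    exact Filter.mem_of_superset (hN.mem_nhds hz) fun z' hz' => ⟨N, hN, hz', hj⟩
  have ho2 : IsOpen U2 := by
    rw [isOpen_iff_mem_nhds]
    rintro z ⟨N, hN, hz, hj⟩
    exact Filter.mem_of_superset (hN.mem_nhds hz) fun z' hz' => ⟨N, hN, hz', hj⟩
  have hdisj : Disjoint U1 U2 := by
    rw [Set.disjoint_left]
    rintro z ⟨N, hN, hz, hj⟩ ⟨N', hN', hz', hj'⟩
    obtain ⟨M, _, _, hM, hMc⟩ := pt_local z hC (Filter.inter_mem (hN.mem_nhds hz) (hN'.mem_nhds hz'))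
    obtain ⟨w, hw⟩ := hMc.nonempty
    exact hj' w ⟨(hM hw.1).2, hw.2⟩ (hj w ⟨(hM hw.1).1, hw.2⟩)
  have hcov : U ⊆ U1 ∪ U2 := by
    intro z hz
    obtain ⟨M, hMo, hzM, hM, hMc⟩ := pt_local z hC (hU.mem_nhds hz)
    by_cases hex : ∃ w ∈ M \ C, JoinedIn (U \ C) u w
    · obtain ⟨w, hw, huw⟩ := hex
      exact Or.inl ⟨M, hMo, hzM, fun w' hw' =>
        huw.trans ((hMc.joinedIn w hw w' hw').mono (Set.sdiff_subset_sdiff_left hM))⟩
    · push Not at hex
      exact Or.inr ⟨M, hMo, hzM, hex⟩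
  have hx1 : (U ∩ U1).Nonempty := by
    obtain ⟨M, hMo, hzM, hM, hMc⟩ := pt_local u hC (hU.mem_nhds hu)
    exact ⟨u, hu, M, hMo, hzM, fun w' hw' =>
      (hMc.joinedIn u ⟨hzM, huC⟩ w' hw').mono (Set.sdiff_subset_sdiff_left hM)⟩
  have hsub := hc.subset_left_of_subset_union ho1 ho2 hdisj hcov hx1
  obtain ⟨N, _, hvN, hj⟩ := hsub hv
  exact hj v ⟨hvN, hvC⟩

attribute [local instance] chMetric

/-- In an open connected set of the sphere two points outside a countable set can be joined by a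
curve outside the countable set. -/
theorem exists_curve_avoiding {U C : Set (OnePoint ℂ)} (hU : IsOpen U) (hc : IsPreconnected U)
    (hC : C.Countable) {u v : OnePoint ℂ} (hu : u ∈ U) (hv : v ∈ U) (huC : u ∉ C) (hvC : v ∉ C) :
    ∃ γ : C(unitInterval, OnePoint ℂ), γ 0 = u ∧ γ 1 = v ∧ ∀ t, γ t ∈ U ∧ γ t ∉ C := by
  obtain ⟨γ, hγ⟩ := pt_joined hU hc hC hu hv huC hvC
  exact ⟨γ.toContinuousMap, γ.source, γ.target, hγ⟩

theorem exists_curve_from {U C : Set (OnePoint ℂ)} (hU : IsOpen U) (hc : IsPreconnected U)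
    (hC : C.Countable) {u v : OnePoint ℂ} (hu : u ∈ U) (hv : v ∈ U) (hvC : v ∉ C) :
    ∃ γ : C(unitInterval, OnePoint ℂ), γ 0 = u ∧ γ 1 = v ∧ (∀ t, γ t ∈ U) ∧
      ∀ t, 0 < t → γ t ∉ C := by
  by_cases huv : u = v
  · subst huv
    exact ⟨ContinuousMap.const _ u, rfl, rfl, fun _ => hu, fun _ _ => hvC⟩
  obtain ⟨γ, h0, h1, hγ⟩ := exists_curve_avoiding hU hc (hC.mono (Set.sdiff_subset (s := C) (t := {u})))
    hu hv (fun h => h.2 rfl) (fun h => hvC h.1)
  have hcl : IsClosed (γ ⁻¹' {u}) := isClosed_singleton.preimage γ.continuous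
  have hne : (γ ⁻¹' {u}).Nonempty := ⟨0, h0⟩
  obtain ⟨t₁, ht₁, hmax⟩ := hcl.isCompact.exists_isGreatest hne
  have ht₁' : γ t₁ = u := ht₁
  have ht₁lt : t₁ < 1 := by
    refine lt_of_le_of_ne t₁.2.2 fun h => huv ?_
    have : t₁ = 1 := Subtype.ext (congrArg Subtype.val h)
    rw [← ht₁', this, h1]
  have hlt : (t₁ : ℝ) < 1 := ht₁lt
  have hmem : ∀ s : unitInterval, (t₁ : ℝ) + s * (1 - t₁) ∈ unitInterval := by
    intro s
    have hs0 := s.2.1
    have hs1 := s.2.2
    have ht0 := t₁.2.1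
    refine ⟨by nlinarith, by nlinarith⟩
  let φ : C(unitInterval, unitInterval) :=
    ⟨fun s => ⟨(t₁ : ℝ) + s * (1 - t₁), hmem s⟩, by fun_prop⟩
  refine ⟨γ.comp φ, ?_, ?_, fun t => (hγ _).1, ?_⟩
  · have e : φ 0 = t₁ := by
      apply Subtype.ext
      show (t₁ : ℝ) + ((0 : unitInterval) : ℝ) * (1 - t₁) = t₁
      simp
    rw [ContinuousMap.comp_apply, e, ht₁']
  · have e : φ 1 = 1 := by
      apply Subtype.ext
      show (t₁ : ℝ) + ((1 : unitInterval) : ℝ) * (1 - t₁) = 1
      simp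
    rw [ContinuousMap.comp_apply, e, h1]
  · intro t ht hC'
    rw [ContinuousMap.comp_apply] at hC'
    have h2 := (hγ (φ t)).2
    apply h2
    refine ⟨hC', fun h3 => ?_⟩
    have h4 : φ t ≤ t₁ := hmax h3
    have h5 : (t₁ : ℝ) + t * (1 - t₁) ≤ t₁ := h4
    have ht' : (0 : ℝ) < t := ht
    nlinarith

end Pool.Agent.Lib.MP_e4ee3e_an.Q1
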