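import Pool.Agent.Lib.MP_e4ee3e_an.K01
import Pool.Agent.Lib.MP_e4ee3e_an.T05
import Pool.Agent.Lib.MP_e4ee3e_an.T08
import Pool.Agent.Lib.MP_e4ee3e_an.Q1.Defs

/-!
TR. The coding tree with given good curves. See T05, T06, T08 (t05_G, G_unique, G_congr,
codingTree_exists) for the same construction over a tame root and K07 for the tree with two curves: define
the edges by recursion with a chosen lift; invariant f^[n] (edge n α t) = curve (α n) t; then
edge (n + 1) α = liftN (n + 1) (curve (α (n + 1))) (edge n α 1) by liftN_unique. Critical points are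
marked (see the use of marked_of_isCritPt in T08).
-/

open MeasureTheory Filter Topology

namespace Pool.Agent.Lib.MP_e4ee3e_an.Q1

attribute [local instance] chMetric

variable {P Q : Polynomial ℂ} {d : ℕ}

/-- The vertices: `tr_v n α` has read the first `n` letters. -/
noncomputable def tr_v (P Q : Polynomial ℂ) {d : ℕ} (root : OnePoint ℂ)
    (curve : Fin d → C(unitInterval, OnePoint ℂ)) : ℕ → (ℕ → Fin d) → OnePoint ℂ
  | 0, _ => root
  | n + 1, α => liftEnd P Q n (curve (α n)) (tr_v P Q root curve n α)

/-- The edges. -/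
noncomputable def tr_e (P Q : Polynomial ℂ) {d : ℕ} (root : OnePoint ℂ)
    (curve : Fin d → C(unitInterval, OnePoint ℂ)) (n : ℕ) (α : ℕ → Fin d) :
    C(unitInterval, OnePoint ℂ) :=
  liftN P Q n (curve (α n)) (tr_v P Q root curve n α)

theorem tr_v_congr (root : OnePoint ℂ) (curve : Fin d → C(unitInterval, OnePoint ℂ)) (n : ℕ)
    (α β : ℕ → Fin d) (h : ∀ i < n, α i = β i) :
    tr_v P Q root curve n α = tr_v P Q root curve n β := by
  induction n with
  | zero => rfl
  | succ n ih =>
    simp only [tr_v]
    rw [ih (fun i hi => h i (by omega)), h n (by omega)]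

section

variable (h : RatData P Q d) {root : OnePoint ℂ} {child : Fin d → OnePoint ℂ}
  (hmap : ∀ i, ratMap P Q (child i) = root) {curve : Fin d → C(unitInterval, OnePoint ℂ)}
  (h0 : ∀ i, curve i 0 = root) (h1 : ∀ i, curve i 1 = child i)
  (hgood : ∀ i, GoodPath P Q (curve i))

include h hmap h0 h1 hgood

theorem tr_fiber (n : ℕ) (α : ℕ → Fin d) :
    (ratMap P Q)^[n] (tr_v P Q root curve n α) = root := by
  induction n with
  | zero => rfl
  | succ n ih =>
    rw [Function.iterate_succ_apply']
    simp only [tr_v]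
    rw [liftEnd_fiber h (hgood _) n (by rw [ih, h0]), h1, hmap]

theorem tr_spec (n : ℕ) (α : ℕ → Fin d) :
    tr_e P Q root curve n α 0 = tr_v P Q root curve n α ∧
      ∀ t, (ratMap P Q)^[n] (tr_e P Q root curve n α t) = curve (α n) t :=
  liftN_spec h (hgood _) n (by rw [tr_fiber h hmap h0 h1 hgood, h0])

theorem tr_one (α : ℕ → Fin d) : tr_v P Q root curve 1 α = child (α 0) := by
  have h2 := (tr_spec h hmap h0 h1 hgood 0 α).2 1
  rw [h1] at h2
  exact h2

theorem tr_shift (n : ℕ) (α : ℕ → Fin d) :
    ratMap P Q (tr_v P Q root curve (n + 1) α) = tr_v P Q root curve n (shift α) := by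
  induction n with
  | zero =>
    rw [zero_add, tr_one h hmap h0 h1 hgood, hmap]
    rfl
  | succ n ih =>
    have h3 : tr_v P Q root curve (n + 1 + 1) α =
      liftEnd P Q (n + 1) (curve (α (n + 1))) (tr_v P Q root curve (n + 1) α) := rfl
    have h4 : tr_v P Q root curve (n + 1) (shift α) =
      liftEnd P Q n (curve (α (n + 1))) (tr_v P Q root curve n (shift α)) := rfl
    rw [h3, h4]
    have h5 := liftEnd_iter h (hgood (α (n + 1))) 1 n (y := tr_v P Q root curve (n + 1) α) (by
      rw [add_comm 1 n, tr_fiber h hmap h0 h1 hgood, h0])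
    rw [add_comm 1 n] at h5
    simp only [Function.iterate_one] at h5
    rw [h5, ih]

theorem tr_map (n : ℕ) (α : ℕ → Fin d) (t : unitInterval) :
    ratMap P Q (tr_e P Q root curve (n + 1) α t) = tr_e P Q root curve n (shift α) t := by
  let γ' : C(unitInterval, OnePoint ℂ) :=
    ⟨fun t => ratMap P Q (tr_e P Q root curve (n + 1) α t),
      (ratMap_continuous h).comp (tr_e P Q root curve (n + 1) α).continuous⟩
  have h2 := tr_spec h hmap h0 h1 hgood (n + 1) α
  have h3 : γ' = tr_e P Q root curve n (shift α) := by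
    refine liftN_unique h (hgood _) n γ' ?_ fun t => ?_
    · change ratMap P Q (tr_e P Q root curve (n + 1) α 0) = _
      rw [h2.1, tr_shift h hmap h0 h1 hgood]
    · change (ratMap P Q)^[n] (ratMap P Q (tr_e P Q root curve (n + 1) α t)) = _
      rw [← Function.iterate_succ_apply, h2.2]
      rfl
  exact congrArg (fun g : C(unitInterval, OnePoint ℂ) => g t) h3

theorem tr_zero (α : ℕ → Fin d) : tr_e P Q root curve 0 α = curve (α 0) := by
  ext t
  exact (tr_spec h hmap h0 h1 hgood 0 α).2 t

theorem tr_unique (n : ℕ) (α : ℕ → Fin d) (γ : C(unitInterval, OnePoint ℂ))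
    (hγ : ∀ t, ratMap P Q (γ t) = tr_e P Q root curve n (shift α) t)
    (hγ0 : γ 0 = tr_e P Q root curve n α 1) : γ = tr_e P Q root curve (n + 1) α := by
  refine liftN_unique h (hgood _) (n + 1) γ hγ0 fun t => ?_
  rw [Function.iterate_succ_apply, hγ, (tr_spec h hmap h0 h1 hgood n (shift α)).2]
  rfl

end

theorem tree_of_curves {P Q : Polynomial ℂ} {d : ℕ} (h : RatData P Q d) (root : OnePoint ℂ)
    (child : Fin d → OnePoint ℂ) (hinj : Function.Injective child)
    (hmap : ∀ i, ratMap P Q (child i) = root) (curve : Fin d → C(unitInterval, OnePoint ℂ))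
    (h0 : ∀ i, curve i 0 = root) (h1 : ∀ i, curve i 1 = child i)
    (hgood : ∀ i, GoodPath P Q (curve i)) :
    ∃ T : CodingTree (ratMap P Q) d, T.root = root ∧ T.UniqueLifts ∧ T.AvoidsCriticalValues ∧
      (∀ n α β, (∀ i ≤ n, α i = β i) → T.vertex n α = T.vertex n β) ∧
      (∀ α, T.vertex 0 α = child (α 0)) ∧
      (∀ n α, (ratMap P Q)^[n + 1] (T.vertex n α) = root) ∧
      ∀ n α, T.vertex (n + 1) α = liftEnd P Q (n + 1) (curve (α (n + 1))) (T.vertex n α) := by
  refine ⟨{ root := root
            child := child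
            child_injective := hinj
            map_child := hmap
            curve := curve
            curve_zero := h0
            curve_one := h1
            edge := tr_e P Q root curve
            edge_zero := tr_zero h hmap h0 h1 hgood
            edge_succ_map := tr_map h hmap h0 h1 hgood
            edge_succ_start := fun n α => (tr_spec h hmap h0 h1 hgood (n + 1) α).1 },
    rfl, ?_, ?_, ?_, ?_, ?_, ?_⟩
  · intro n α γ hγ hγ0
    exact tr_unique h hmap h0 h1 hgood n α γ hγ hγ0
  · intro c hc n hn i t hct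
    exact (hgood i t).2 n n hn le_rfl c (marked_of_isCritPt h hc) hct.symm
  · intro n α β hαβ
    exact tr_v_congr root curve (n + 1) α β fun i hi => hαβ i (by omega)
  · intro α
    exact tr_one h hmap h0 h1 hgood α
  · intro n α
    exact tr_fiber h hmap h0 h1 hgood (n + 1) α
  · intro n α
    rfl

end Pool.Agent.Lib.MP_e4ee3e_an.Q1
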