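import Pool.Agent.Lib.MP_e4ee3e_an.K08
import Pool.Agent.Lib.MP_e4ee3e_an.D08
import Pool.Agent.Lib.MP_e4ee3e_an.Q1.TR
import Pool.Agent.Lib.MP_e4ee3e_an.K07
import Pool.Agent.Lib.MP_e4ee3e_an.S05
import Pool.Agent.Lib.MP_e4ee3e_an.Q1.PT
import Pool.Agent.Lib.MP_e4ee3e_an.Q1.BC

/-!
CO. From the wild curve to the coding of all measures on F.

Proof. Let child (regular_fiber), i₀ with child i₀ = a₀, i₁ with child i₁ = a' (i₀ ≠ i₁). Curves:
constant a₀ for i₀, γ for i₁, and for the other i a good path from a₀ to child i: exists_curve_avoiding of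
module PT in the whole sphere (isPreconnected_univ) outside Goodᶜ (countable_compl_good of BC; child i is
good by good_of_image with n = 1). T from tree_of_curves. φ : Fin 2 → Fin d, φ 0 = i₀, φ 1 = i₁.
Claim: T.vertex n (φ o α) = vtx P Q γ (n + 1) α (induction on n; a lift of a constant path is constant:
liftN_unique; k07_fiber of K07 or K06 lemmas for f^n (vtx n) = a₀). U k = balls of radius 1/(m+1) about a
dense sequence, indexed by ℕ via Nat.unpair or Denumerable; G = {k | U k meets F}. hwild gives the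
hypothesis hV of exists_measurable_code (for V n = vtx P Q γ n), so A measurable with
vtx n (A x) → x for x in F. s x = φ o A x is measurable. coding_measure (D08) gives μ, since
T.vertex n (s x) = vtx (n + 1) (A x) → x for x in F, hence m-a.e.
-/

open MeasureTheory Filter Topology

namespace Pool.Agent.Lib.MP_e4ee3e_an.Q1

attribute [local instance] chMetric

theorem co_good1 {P Q : Polynomial ℂ} {y : OnePoint ℂ} (hy : y ∈ Good P Q) : y ∈ good1 P Q :=
  ⟨hy.1, fun c hc h => hy.2 1 le_rfl c hc h⟩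

/-- The lift of a constant path is constant. -/
theorem co_const {P Q : Polynomial ℂ} {d : ℕ} (h : RatData P Q d) {a y : OnePoint ℂ}
    (ha : a ∈ Good P Q) (n : ℕ) (hy : (ratMap P Q)^[n] y = a) :
    liftEnd P Q n (ContinuousMap.const _ a) y = y := by
  have hg : GoodPath P Q (ContinuousMap.const _ a) := goodPath_iff.2 fun _ => ha
  have := liftN_unique h hg n (y := y) (ContinuousMap.const _ y) rfl (fun _ => hy)
  unfold liftEnd
  rw [← this]
  rfl

/-- The letters `0`, `1` become the indices `i₀`, `i₁`. -/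
def co_phi {d : ℕ} (i₀ i₁ : Fin d) (j : Fin 2) : Fin d := if j = 0 then i₀ else i₁

theorem codes_of_wild [MeasurableSpace (OnePoint ℂ)] [BorelSpace (OnePoint ℂ)]
    {P Q : Polynomial ℂ} {d : ℕ} (h : RatData P Q d) {a₀ : ℂ}
    (hfa : ratMap P Q (a₀ : OnePoint ℂ) = (a₀ : OnePoint ℂ)) (hgood : (a₀ : OnePoint ℂ) ∈ Good P Q)
    {a' : OnePoint ℂ} (hne : a' ≠ (a₀ : OnePoint ℂ)) (hfa' : ratMap P Q a' = (a₀ : OnePoint ℂ))
    {γ : C(unitInterval, OnePoint ℂ)} (hγ : GoodPath P Q γ) (h0 : γ 0 = (a₀ : OnePoint ℂ))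
    (h1 : γ 1 = a') (F : Set (OnePoint ℂ))
    (hwild : ∀ (w : List (Fin 2)) (O : Set (OnePoint ℂ)), IsOpen O → (O ∩ F).Nonempty →
      ∃ M : ℕ, ∀ α : ℕ → Fin 2, StartsWith (w ++ List.replicate M 0 ++ [1]) α →
        vtx P Q γ (w.length + M + 1) α ∈ O) :
    Codes (ratMap P Q) d (a₀ : OnePoint ℂ) F := by
  obtain ⟨child, hinj, hmap, hfin, hsurj⟩ := regular_fiber h (co_good1 hgood)
  obtain ⟨i₀, hi₀⟩ := hsurj _ hfa
  obtain ⟨i₁, hi₁⟩ := hsurj _ hfa'
  have hchild : ∀ i, child i ∈ Good P Q := by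
    intro i
    refine good_of_image (n := 1) ?_
    rw [Function.iterate_one, hmap]
    exact hgood
  have hpath : ∀ i, ∃ g : C(unitInterval, OnePoint ℂ), g 0 = (a₀ : OnePoint ℂ) ∧ g 1 = child i ∧
      ∀ t, g t ∈ Good P Q := by
    intro i
    obtain ⟨g, hg0, hg1, hg⟩ := exists_curve_avoiding (U := Set.univ) (C := (Good P Q)ᶜ)
      isOpen_univ isPreconnected_univ (countable_compl_good h) (Set.mem_univ (a₀ : OnePoint ℂ))
      (Set.mem_univ (child i)) (fun hc => hc hgood) (fun hc => hc (hchild i))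
    exact ⟨g, hg0, hg1, fun t => not_not.1 (hg t).2⟩
  choose g hg0 hg1 hg using hpath
  have hi01 : i₁ ≠ i₀ := by
    intro he
    rw [he, hi₀] at hi₁
    exact hne hi₁.symm
  set curve : Fin d → C(unitInterval, OnePoint ℂ) := fun i =>
    if i = i₀ then ContinuousMap.const _ (a₀ : OnePoint ℂ) else if i = i₁ then γ else g i
    with hcurve
  have hc0 : curve i₀ = ContinuousMap.const _ (a₀ : OnePoint ℂ) := by simp [hcurve]
  have hc1 : curve i₁ = γ := by simp [hcurve, hi01]
  have hstart : ∀ i, curve i 0 = (a₀ : OnePoint ℂ) := by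
    intro i
    simp only [hcurve]
    split_ifs
    · rfl
    · exact h0
    · exact hg0 i
  have hend : ∀ i, curve i 1 = child i := by
    intro i
    simp only [hcurve]
    split_ifs with e1 e2
    · rw [e1, hi₀]
      rfl
    · rw [e2, hi₁, h1]
    · exact hg1 i
  have hcgood : ∀ i, GoodPath P Q (curve i) := by
    intro i
    simp only [hcurve]
    split_ifs with e1 e2
    · exact goodPath_iff.2 fun _ => hgood
    · exact hγ
    · exact goodPath_iff.2 (hg i)
  obtain ⟨T, hTr, hTu, hTa, hTc, hT0, hTf, hTs⟩ :=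
    tree_of_curves h (a₀ : OnePoint ℂ) child hinj hmap curve hstart hend hcgood
  have hvtx : ∀ n (α : ℕ → Fin 2), T.vertex n (co_phi i₀ i₁ ∘ α) = vtx P Q γ (n + 1) α := by
    intro n α
    induction n with
    | zero =>
      rw [hT0]
      simp only [vtx, co_phi, Function.comp]
      split_ifs with e
      · rw [hi₀, h0]
      · rw [hi₁]
        unfold liftEnd
        rw [k07_lift0 h hγ, h1]
    | succ n ih =>
      rw [hTs, ih]
      have e1 : vtx P Q γ (n + 1 + 1) α = if α (n + 1) = 0 then vtx P Q γ (n + 1) α else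
        liftEnd P Q (n + 1) γ (vtx P Q γ (n + 1) α) := rfl
      rw [e1]
      have e2 : (co_phi i₀ i₁ ∘ α) (n + 1) = if α (n + 1) = 0 then i₀ else i₁ := rfl
      rw [e2]
      split_ifs with e
      · rw [hc0]
        exact co_const h hgood (n + 1) (k07_fiber h hγ h0 h1 hfa hfa' (n + 1) α)
      · rw [hc1]
  have hsep : TopologicalSpace.SeparableSpace (OnePoint ℂ) := inferInstance
  obtain ⟨q, hq⟩ := TopologicalSpace.exists_dense_seq (OnePoint ℂ)
  let U : ℕ → Set (OnePoint ℂ) := fun k => Metric.ball (q k.unpair.1) (1 / (k.unpair.2 + 1))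
  let G : Set ℕ := {k | (U k ∩ F).Nonempty}
  have hbase : ∀ x ∈ F, ∀ ε : ℝ, 0 < ε → ∃ k ∈ G, x ∈ U k ∧
      ∀ y ∈ U k, ∀ z ∈ U k, dist y z ≤ ε := by
    intro x hx ε hε
    obtain ⟨n, hn⟩ := exists_nat_one_div_lt (show (0:ℝ) < ε / 2 by positivity)
    have hpos : (0:ℝ) < 1 / ((n:ℝ) + 1) := by positivity
    obtain ⟨i, hi⟩ := Metric.denseRange_iff.1 hq x (1 / ((n:ℝ) + 1)) hpos
    have hmem : x ∈ U (Nat.pair i n) := by
      simp only [U, Nat.unpair_pair]
      exact Metric.mem_ball.2 hi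
    refine ⟨Nat.pair i n, ⟨x, hmem, hx⟩, hmem, ?_⟩
    intro y hy z hz
    simp only [U, Nat.unpair_pair, Metric.mem_ball] at hy hz
    have h6 := dist_triangle_right y z (q i)
    linarith
  obtain ⟨A, hA, hAJ⟩ := exists_measurable_code F G U
    (fun k => Metric.isOpen_ball.measurableSet) hbase (vtx P Q γ)
    (fun n α hα => by simp [vtx, hα]) (fun w k hk => hwild w (U k) Metric.isOpen_ball hk)
  have htend : ∀ x ∈ F, Tendsto (fun n => T.vertex n (co_phi i₀ i₁ ∘ A x)) atTop (𝓝 x) := by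
    intro x hx
    simp only [hvtx]
    exact (hAJ x hx).comp (tendsto_add_atTop_nat 1)
  refine ⟨T, hTr, hTu, hTa, fun m hm hmF => ?_⟩
  have hs : Measurable (fun x => co_phi i₀ i₁ ∘ A x) := by
    refine measurable_pi_iff.2 fun n => ?_
    exact (measurable_of_countable (co_phi i₀ i₁)).comp ((measurable_pi_apply n).comp hA)
  refine coding_measure T hTc m (fun x => co_phi i₀ i₁ ∘ A x) hs ?_
  have h2 : ∀ᵐ x ∂m, x ∈ F := hmF
  filter_upwards [h2] with x hx
  exact htend x hx

end Pool.Agent.Lib.MP_e4ee3e_an.Q1
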