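import Pool.Agent.Lib.MP_e4ee3e_an.Q1.PL

/-!
BA. Elementary facts on the basin of an attracting fixed point.

isOpen_basin: the neighbourhood V of a of the definition is contained in the basin (uniform convergence);
if f^k z is in the interior of V then a neighbourhood of z is mapped into V by f^k, and
iterate_mem_basin_iff. basin_compact: cover K by finitely many open sets W with f^k W inside V.
isOpen_immediateBasin: components of open sets are open (IsOpen.connectedComponentIn, needs
locallyConnectedSpace_sphere).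
-/

open MeasureTheory Filter Topology

namespace Pool.Agent.Lib.MP_e4ee3e_an.Q1

attribute [local instance] chMetric

variable {P Q : Polynomial ℂ} {d : ℕ} {a : OnePoint ℂ}

theorem iterate_mem_basin_iff {f : OnePoint ℂ → OnePoint ℂ} {a z : OnePoint ℂ} (n : ℕ) :
    f^[n] z ∈ basin f a ↔ z ∈ basin f a := by
  unfold basin
  simp only [Set.mem_ofPred_eq]
  rw [← tendsto_add_atTop_iff_nat (f := fun m => f^[m] z) n]
  simp only [Function.iterate_add_apply]

theorem self_mem_basin {f : OnePoint ℂ → OnePoint ℂ} {a : OnePoint ℂ} (ha : IsAttracting f a) :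
    a ∈ basin f a := by
  unfold basin
  simp only [Set.mem_ofPred_eq]
  have h1 : (fun n => f^[n] a) = fun _ => a := by
    funext n
    exact Function.iterate_fixed ha.1 n
  rw [h1]
  exact tendsto_const_nhds

/-- Every point of the basin has a neighbourhood on which the iterates converge uniformly. -/
theorem ba_local (h : RatData P Q d) (ha : IsAttracting (ratMap P Q) a) {z : OnePoint ℂ}
    (hz : z ∈ basin (ratMap P Q) a) :
    ∃ W, IsOpen W ∧ z ∈ W ∧ ∀ U ∈ 𝓝 a, ∀ᶠ n in atTop, ∀ w ∈ W, (ratMap P Q)^[n] w ∈ U := by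
  obtain ⟨_, V, hV, hVU⟩ := ha
  have h1 : interior V ∈ 𝓝 a := interior_mem_nhds.2 hV
  obtain ⟨n, hn⟩ := (hz.eventually h1).exists
  refine ⟨(ratMap P Q)^[n] ⁻¹' interior V, isOpen_interior.preimage (ratMap_iter_continuous h n),
    hn, fun U hU => ?_⟩
  have h2 := hVU U hU
  rw [eventually_atTop] at h2 ⊢
  obtain ⟨N, hN⟩ := h2
  refine ⟨N + n, fun m hm w hw => ?_⟩
  have h3 := hN (m - n) (by omega) ((ratMap P Q)^[n] w) (interior_subset hw)
  rw [← Function.iterate_add_apply] at h3
  rwa [show m - n + n = m by omega] at h3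

theorem isOpen_basin (h : RatData P Q d) (ha : IsAttracting (ratMap P Q) a) :
    IsOpen (basin (ratMap P Q) a) := by
  rw [isOpen_iff_mem_nhds]
  intro z hz
  obtain ⟨W, hW, hzW, hWU⟩ := ba_local h ha hz
  refine Filter.mem_of_superset (hW.mem_nhds hzW) fun w hw => ?_
  unfold basin
  simp only [Set.mem_ofPred_eq]
  intro U hU
  exact (hWU U hU).mono fun n hn => hn w hw

/-- Uniform convergence on compact subsets of the basin. -/
theorem basin_compact (h : RatData P Q d) (ha : IsAttracting (ratMap P Q) a)
    {K : Set (OnePoint ℂ)} (hK : IsCompact K) (hKb : K ⊆ basin (ratMap P Q) a)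
    {U : Set (OnePoint ℂ)} (hU : U ∈ 𝓝 a) : ∀ᶠ n in atTop, ∀ z ∈ K, (ratMap P Q)^[n] z ∈ U := by
  refine hK.induction_on (p := fun s => ∀ᶠ n in atTop, ∀ z ∈ s, (ratMap P Q)^[n] z ∈ U)
    ?_ ?_ ?_ ?_
  · exact Eventually.of_forall fun n z hz => absurd hz (Set.notMem_empty z)
  · intro s t hst ht
    exact ht.mono fun n hn z hz => hn z (hst hz)
  · intro s t hs ht
    filter_upwards [hs, ht] with n hn1 hn2 z hz
    rcases hz with hz | hz
    · exact hn1 z hz
    · exact hn2 z hz
  · intro x hx
    obtain ⟨W, hW, hxW, hWU⟩ := ba_local h ha (hKb hx)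
    exact ⟨W, mem_nhdsWithin_of_mem_nhds (hW.mem_nhds hxW), hWU U hU⟩

theorem isOpen_immediateBasin (h : RatData P Q d) (ha : IsAttracting (ratMap P Q) a) :
    IsOpen (immediateBasin (ratMap P Q) a) := by
  have := locallyConnectedSpace_sphere
  exact (isOpen_basin h ha).connectedComponentIn

theorem isPreconnected_immediateBasin : IsPreconnected (immediateBasin (ratMap P Q) a) :=
  isPreconnected_connectedComponentIn

theorem self_mem_immediateBasin (ha : IsAttracting (ratMap P Q) a) :
    a ∈ immediateBasin (ratMap P Q) a :=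
  mem_connectedComponentIn (self_mem_basin ha)

theorem immediateBasin_subset : immediateBasin (ratMap P Q) a ⊆ basin (ratMap P Q) a :=
  connectedComponentIn_subset _ _

/-- A curve in the basin with one point in the immediate basin stays there. -/
theorem curve_mem_immediateBasin (γ : C(unitInterval, OnePoint ℂ)) (t₀ : unitInterval)
    (h0 : γ t₀ ∈ immediateBasin (ratMap P Q) a) (hγ : ∀ t, γ t ∈ basin (ratMap P Q) a)
    (t : unitInterval) : γ t ∈ immediateBasin (ratMap P Q) a := by
  have h1 : Set.range γ ⊆ connectedComponentIn (basin (ratMap P Q) a) (γ t₀) :=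
    (isPreconnected_range γ.continuous).subset_connectedComponentIn ⟨t₀, rfl⟩
      (Set.range_subset_iff.2 hγ)
  have h2 : immediateBasin (ratMap P Q) a = connectedComponentIn (basin (ratMap P Q) a) (γ t₀) :=
    connectedComponentIn_eq h0
  rw [h2]
  exact h1 ⟨t, rfl⟩

/-- The component of the preimage of a set inside the basin that meets the immediate basin is
contained in it. -/
theorem component_subset (n : ℕ) {D : Set (OnePoint ℂ)} (hD : D ⊆ basin (ratMap P Q) a)
    {x : OnePoint ℂ} (hx : x ∈ immediateBasin (ratMap P Q) a) :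
    connectedComponentIn ((ratMap P Q)^[n] ⁻¹' D) x ⊆ immediateBasin (ratMap P Q) a := by
  have h2 : immediateBasin (ratMap P Q) a = connectedComponentIn (basin (ratMap P Q) a) x :=
    connectedComponentIn_eq hx
  rw [h2]
  refine connectedComponentIn_mono x fun z hz => ?_
  exact (iterate_mem_basin_iff n).1 (hD hz)

/-- The immediate basin is forward invariant. -/
theorem iterate_mem_immediateBasin (h : RatData P Q d) (ha : IsAttracting (ratMap P Q) a) (n : ℕ)
    {x : OnePoint ℂ} (hx : x ∈ immediateBasin (ratMap P Q) a) :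
    (ratMap P Q)^[n] x ∈ immediateBasin (ratMap P Q) a := by
  have h1 : IsPreconnected ((ratMap P Q)^[n] '' immediateBasin (ratMap P Q) a) :=
    isPreconnected_immediateBasin.image _ (ratMap_iter_continuous h n).continuousOn
  have h2 : a ∈ (ratMap P Q)^[n] '' immediateBasin (ratMap P Q) a :=
    ⟨a, self_mem_immediateBasin ha, Function.iterate_fixed ha.1 n⟩
  have h3 : (ratMap P Q)^[n] '' immediateBasin (ratMap P Q) a ⊆ basin (ratMap P Q) a := by
    rintro _ ⟨z, hz, rfl⟩
    exact (iterate_mem_basin_iff n).2 (immediateBasin_subset hz)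
  exact h1.subset_connectedComponentIn h2 h3 ⟨x, hx, rfl⟩

/-- A connected subset of the basin containing a is contained in the immediate basin. -/
theorem disc_subset_immediateBasin {a₀ : ℂ} {r : ℝ} (hr : 0 < r)
    (h : DD a₀ r ⊆ basin (ratMap P Q) (a₀ : OnePoint ℂ)) :
    DD a₀ r ⊆ immediateBasin (ratMap P Q) (a₀ : OnePoint ℂ) := by
  have h1 : IsPreconnected (DD a₀ r) :=
    (convex_ball a₀ r).isPreconnected.image _ OnePoint.continuous_coe.continuousOn
  exact h1.subset_connectedComponentIn ⟨a₀, Metric.mem_ball_self hr, rfl⟩ h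

end Pool.Agent.Lib.MP_e4ee3e_an.Q1
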