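import Pool.Agent.Lib.MP_e4ee3e_an.Q1.BA
import Pool.Agent.Lib.MP_e4ee3e_an.Q1.PT

/-!
BB. eventually_mem_component: join a to y by a curve in the immediate basin (exists_curve_avoiding with
C = ∅); the compact curve is mapped into U by f^n for large n (basin_compact); it is connected and
contains a. frontier_component: a point p of the closure of the component O at a of f^-n U (U open),
mapped by f^n into U, is in O; in particular f^n p is not in U for p in frontier O.
-/

open MeasureTheory Filter Topology

namespace Pool.Agent.Lib.MP_e4ee3e_an.Q1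

attribute [local instance] chMetric

variable {P Q : Polynomial ℂ} {d : ℕ} {a : OnePoint ℂ}

/-- Every point of the immediate basin is, for large n, in the component at `a` of the n-th preimage
of a given neighbourhood of `a`. -/
theorem eventually_mem_component (h : RatData P Q d) (ha : IsAttracting (ratMap P Q) a)
    {U : Set (OnePoint ℂ)} (hU : U ∈ 𝓝 a) {y : OnePoint ℂ}
    (hy : y ∈ immediateBasin (ratMap P Q) a) :
    ∀ᶠ n in atTop, y ∈ connectedComponentIn ((ratMap P Q)^[n] ⁻¹' U) a := by
  obtain ⟨γ, h0, h1, hγ⟩ := exists_curve_avoiding (C := ∅) (isOpen_immediateBasin h ha)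
    isPreconnected_immediateBasin Set.countable_empty (self_mem_immediateBasin ha) hy
    (Set.notMem_empty a) (Set.notMem_empty y)
  have hK : IsCompact (Set.range γ) := isCompact_range γ.continuous
  have hKb : Set.range γ ⊆ basin (ratMap P Q) a := by
    rintro _ ⟨t, rfl⟩
    exact immediateBasin_subset (hγ t).1
  refine (basin_compact h ha hK hKb hU).mono fun n hn => ?_
  have h2 : Set.range γ ⊆ connectedComponentIn ((ratMap P Q)^[n] ⁻¹' U) a :=
    (isPreconnected_range γ.continuous).subset_connectedComponentIn ⟨0, h0⟩ fun z hz => hn z hz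
  exact h2 ⟨1, h1⟩

theorem isOpen_component (h : RatData P Q d) (n : ℕ) {U : Set (OnePoint ℂ)} (hU : IsOpen U)
    (x : OnePoint ℂ) : IsOpen (connectedComponentIn ((ratMap P Q)^[n] ⁻¹' U) x) := by
  have := locallyConnectedSpace_sphere
  exact (hU.preimage (ratMap_iter_continuous h n)).connectedComponentIn

theorem mem_component_of_closure (h : RatData P Q d) (n : ℕ) {U : Set (OnePoint ℂ)}
    (hU : IsOpen U) {x p : OnePoint ℂ}
    (hp : p ∈ closure (connectedComponentIn ((ratMap P Q)^[n] ⁻¹' U) x))
    (hpU : (ratMap P Q)^[n] p ∈ U) : p ∈ connectedComponentIn ((ratMap P Q)^[n] ⁻¹' U) x := by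
  have h1 : p ∈ connectedComponentIn ((ratMap P Q)^[n] ⁻¹' U) p := mem_connectedComponentIn hpU
  obtain ⟨q, hq1, hq2⟩ := mem_closure_iff.1 hp _ (isOpen_component h n hU p) h1
  rw [connectedComponentIn_eq hq2, ← connectedComponentIn_eq hq1]
  exact h1

/-- A curve whose image under the n-th iterate is in U and which has a point in the component stays
in the component. -/
theorem curve_mem_component (n : ℕ) {U : Set (OnePoint ℂ)} {x : OnePoint ℂ}
    (γ : C(unitInterval, OnePoint ℂ)) (t₀ : unitInterval)
    (h0 : γ t₀ ∈ connectedComponentIn ((ratMap P Q)^[n] ⁻¹' U) x)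
    (hγ : ∀ t, (ratMap P Q)^[n] (γ t) ∈ U) (t : unitInterval) :
    γ t ∈ connectedComponentIn ((ratMap P Q)^[n] ⁻¹' U) x := by
  have h1 : Set.range γ ⊆ connectedComponentIn ((ratMap P Q)^[n] ⁻¹' U) (γ t₀) :=
    (isPreconnected_range γ.continuous).subset_connectedComponentIn ⟨t₀, rfl⟩
      (Set.range_subset_iff.2 hγ)
  rw [connectedComponentIn_eq h0]
  exact h1 ⟨t, rfl⟩

end Pool.Agent.Lib.MP_e4ee3e_an.Q1
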