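import Pool.Agent.Lib.MP_e4ee3e_an.K02
import Pool.Agent.Lib.MP_e4ee3e_an.K03
import Pool.Agent.Lib.MP_e4ee3e_an.Q1.Defs

/-!
K06. Engine: infinite construction. Enumerate the pairs (w, k), k ∈ G. Stage j: current good path ξ_j (from a to a'), radius ε_j (decreasing, < 2^-j), all later changes take place inside ball a ε_j and times < ε_j. Task (w,k): y = vtx ξ_j |w| (w continued by anything); let ε <= ε_j such that DiscOK |w|+1 in ball a ε (exists_discOK); hT gives ξ' = ξ_(j+1) and n >= |w| with liftEnd n ξ' y ∈ U k; ε_(j+1) < ε such that DiscOK (n+1) in ball a ε_(j+1) and ε_(j+1) < τ. Limit γ: γ t = eventual value for t > 0, γ 0 = a (continuous at 0 because all ξ_i stay in ball a ε_j on [0, τ_j]); γ arises from ξ_(j+1) by a change inside ball a ε_(j+1); so by liftEnd_congr vtx γ = vtx ξ_(j+1) up to level n + 1, which gives the task (M = n - |w|, vertex of the waiting word w 0^M is y).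
-/

open MeasureTheory Filter Topology

namespace Pool.Agent.Lib.MP_e4ee3e_an.Q1

attribute [local instance] chMetric

/-- Changes inside a disc, no condition on the time. -/
def EnMod (a : ℂ) (η : ℝ) (γ γ' : C(unitInterval, OnePoint ℂ)) : Prop :=
  ∃ τ : unitInterval, (∀ t, τ ≤ t → γ t = γ' t) ∧
    ∀ t, t ≤ τ → (∃ z ∈ Metric.ball a η, γ t = ((z : ℂ) : OnePoint ℂ)) ∧
      ∃ z ∈ Metric.ball a η, γ' t = ((z : ℂ) : OnePoint ℂ)

theorem en_mod_mono {a : ℂ} {η η' : ℝ} (hle : η ≤ η') {γ γ' : C(unitInterval, OnePoint ℂ)}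
    (h : EnMod a η γ γ') : EnMod a η' γ γ' := by
  obtain ⟨τ, h1, h2⟩ := h
  refine ⟨τ, h1, fun t ht => ?_⟩
  obtain ⟨⟨z, hz, hz'⟩, w, hw, hw'⟩ := h2 t ht
  exact ⟨⟨z, Metric.ball_subset_ball hle hz, hz'⟩, w, Metric.ball_subset_ball hle hw, hw'⟩

theorem en_near0 {a : ℂ} {ξ : C(unitInterval, OnePoint ℂ)} (h0 : ξ 0 = (a : OnePoint ℂ))
    {ε : ℝ} (hε : 0 < ε) : ∃ δ : ℝ, 0 < δ ∧ ∀ t : unitInterval, (t : ℝ) ≤ δ →
      ∃ z ∈ Metric.ball a ε, ξ t = ((z : ℂ) : OnePoint ℂ) := by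
  have h1 : IsOpen ((fun z : ℂ => (z : OnePoint ℂ)) '' Metric.ball a ε) :=
    OnePoint.isOpenEmbedding_coe.isOpenMap _ Metric.isOpen_ball
  have h2 : ξ ⁻¹' ((fun z : ℂ => (z : OnePoint ℂ)) '' Metric.ball a ε) ∈ 𝓝 (0 : unitInterval) :=
    ξ.continuous.continuousAt (h1.mem_nhds (by rw [h0]; exact ⟨a, Metric.mem_ball_self hε, rfl⟩))
  obtain ⟨δ, hδ, hδ2⟩ := Metric.mem_nhds_iff.1 h2
  refine ⟨δ / 2, by positivity, fun t ht => ?_⟩
  have h3 : t ∈ Metric.ball (0 : unitInterval) δ := by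
    rw [Metric.mem_ball, Subtype.dist_eq, Real.dist_eq]
    have := t.2.1
    simp only [Set.Icc.coe_zero, sub_zero]
    rw [abs_of_nonneg this]
    linarith
  obtain ⟨z, hz, hz'⟩ := hδ2 h3
  exact ⟨z, hz, hz'.symm⟩

theorem en_modifies_refl {a : ℂ} {ξ : C(unitInterval, OnePoint ℂ)} (h0 : ξ 0 = (a : OnePoint ℂ))
    {ε : ℝ} (hε : 0 < ε) : Modifies a ε ξ ξ := by
  obtain ⟨δ, hδ, hδ2⟩ := en_near0 h0 hε
  have hpos : 0 < min (min δ (ε / 2)) 1 := by positivity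
  refine ⟨⟨min (min δ (ε / 2)) 1, hpos.le, min_le_right _ _⟩, hpos, ?_, fun t _ => rfl, ?_⟩
  · have h1 : min (min δ (ε / 2)) 1 ≤ ε / 2 := (min_le_left _ _).trans (min_le_right _ _)
    show min (min δ (ε / 2)) 1 < ε
    linarith
  · intro t ht
    have h1 : (t : ℝ) ≤ δ := by
      have h2 : (t : ℝ) ≤ min (min δ (ε / 2)) 1 := ht
      exact h2.trans ((min_le_left _ _).trans (min_le_left _ _))
    exact ⟨hδ2 t h1, hδ2 t h1⟩

theorem en_discOK_mono {P Q : Polynomial ℂ} {n m : ℕ} (hnm : n ≤ m) {a : ℂ} {η η' : ℝ}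
    (hη : η ≤ η') (h : DiscOK P Q m a η') : DiscOK P Q n a η := by
  intro w hw k hk1 hk2 c hc
  exact h w (Metric.ball_subset_ball hη hw) k hk1 (hk2.trans hnm) c hc

section Vtx

variable {P Q : Polynomial ℂ} {d : ℕ}

theorem en_vtx_congr (γ : C(unitInterval, OnePoint ℂ)) (n : ℕ) (α β : ℕ → Fin 2)
    (h : ∀ i < n, α i = β i) : vtx P Q γ n α = vtx P Q γ n β := by
  induction n with
  | zero => rfl
  | succ n ih =>
    have h1 := ih fun i hi => h i (hi.trans (Nat.lt_succ_self n))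
    have h2 := h n (Nat.lt_succ_self n)
    simp only [vtx, h1, h2]

theorem en_vtx_zeros (γ : C(unitInterval, OnePoint ℂ)) (n m : ℕ) (α : ℕ → Fin 2)
    (h : ∀ i, n ≤ i → i < n + m → α i = 0) : vtx P Q γ (n + m) α = vtx P Q γ n α := by
  induction m with
  | zero => rfl
  | succ m ih =>
    have h1 := ih fun i hi hi2 => h i hi (by omega)
    have h2 := h (n + m) (by omega) (by omega)
    rw [← add_assoc, vtx, if_pos h2, h1]

theorem en_vtx_fiber (h : RatData P Q d) {γ : C(unitInterval, OnePoint ℂ)} (hγ : GoodPath P Q γ)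
    {a a' : OnePoint ℂ} (h0 : γ 0 = a) (h1 : γ 1 = a') (hfa : ratMap P Q a = a)
    (hfa' : ratMap P Q a' = a) (n : ℕ) (α : ℕ → Fin 2) :
    (ratMap P Q)^[n] (vtx P Q γ n α) = a := by
  induction n with
  | zero => exact h0
  | succ n ih =>
    rw [vtx, Function.iterate_succ_apply']
    split_ifs with hα
    · rw [ih, hfa]
    · rw [liftEnd_fiber h hγ n (by rw [ih, h0]), h1, hfa']

theorem en_vtx_mem (h : RatData P Q d) {γ : C(unitInterval, OnePoint ℂ)} (hγ : GoodPath P Q γ)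
    {a a' : OnePoint ℂ} (h0 : γ 0 = a) (h1 : γ 1 = a') (hfa : ratMap P Q a = a)
    (hfa' : ratMap P Q a' = a) (Y : Set (OnePoint ℂ)) (haY : a ∈ Y)
    (hY : ∀ (N : ℕ), ∀ y ∈ Y, (ratMap P Q)^[N] y = a → liftEnd P Q N γ y ∈ Y) (n : ℕ)
    (α : ℕ → Fin 2) : vtx P Q γ n α ∈ Y := by
  induction n with
  | zero =>
    show γ 0 ∈ Y
    rw [h0]
    exact haY
  | succ n ih =>
    rw [vtx]
    split_ifs with hα
    · exact ih
    · exact hY n _ ih (en_vtx_fiber h hγ h0 h1 hfa hfa' n α)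

theorem en_vtx_mod (h : RatData P Q d) {γ γ' : C(unitInterval, OnePoint ℂ)}
    (hγ : GoodPath P Q γ) (hγ' : GoodPath P Q γ') {a : ℂ} {a' : OnePoint ℂ}
    (h0 : γ 0 = (a : OnePoint ℂ)) (h0' : γ' 0 = (a : OnePoint ℂ)) (h1 : γ 1 = a')
    (hfa : ratMap P Q (a : OnePoint ℂ) = (a : OnePoint ℂ))
    (hfa' : ratMap P Q a' = (a : OnePoint ℂ)) {η : ℝ} (hη : 0 < η) {N : ℕ}
    (hok : DiscOK P Q N a η) (hm : EnMod a η γ γ') (n : ℕ) (hn : n ≤ N + 1) (α : ℕ → Fin 2) :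
    vtx P Q γ n α = vtx P Q γ' n α := by
  induction n with
  | zero => simp only [vtx, h0, h0']
  | succ n ih =>
    have h2 := ih (by omega)
    obtain ⟨τ, hτ1, hτ2⟩ := hm
    simp only [vtx, ← h2]
    split_ifs with hα
    · rfl
    · exact liftEnd_congr h hγ hγ' n a η hη (en_discOK_mono (by omega) le_rfl hok) h0 h0' τ hτ1
        (fun t ht => (hτ2 t ht).1) (fun t ht => (hτ2 t ht).2)
        (en_vtx_fiber h hγ h0 h1 hfa hfa' n α)

end Vtx

/-- States of the construction. -/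
def EnState (P Q : Polynomial ℂ) (C : C(unitInterval, OnePoint ℂ) → Prop) (a : ℂ)
    (a' : OnePoint ℂ) : Type :=
  {s : C(unitInterval, OnePoint ℂ) × ℝ // (GoodPath P Q s.1 ∧ C s.1) ∧ s.1 0 = (a : OnePoint ℂ) ∧
    s.1 1 = a' ∧ 0 < s.2}

/-- The word continued by zeros. -/
def encont (w : List (Fin 2)) : ℕ → Fin 2 := fun i => w.getD i 0

theorem en_step {P Q : Polynomial ℂ} {d : ℕ} (h : RatData P Q d) (a : ℂ) (a' : OnePoint ℂ)
    (ha : ∀ n, AvoidN P Q n (a : OnePoint ℂ)) (hfa : ratMap P Q (a : OnePoint ℂ) = (a : OnePoint ℂ))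
    (hfa' : ratMap P Q a' = (a : OnePoint ℂ))
    (C : C(unitInterval, OnePoint ℂ) → Prop) (Y : Set (OnePoint ℂ)) (haY : (a : OnePoint ℂ) ∈ Y)
    (hCY : ∀ ξ, GoodPath P Q ξ → C ξ → ξ 0 = (a : OnePoint ℂ) → ξ 1 = a' → ∀ (N : ℕ), ∀ y ∈ Y,
      (ratMap P Q)^[N] y = (a : OnePoint ℂ) → liftEnd P Q N ξ y ∈ Y)
    (G : Set ℕ) (U : ℕ → Set (OnePoint ℂ))
    (hT : ∀ k ∈ G, ∀ ξ, GoodPath P Q ξ → C ξ → ξ 0 = (a : OnePoint ℂ) → ξ 1 = a' →
      ∀ (N : ℕ), ∀ y ∈ Y, (ratMap P Q)^[N] y = (a : OnePoint ℂ) → ∀ ε : ℝ, 0 < ε →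
      ∃ ξ' n, N ≤ n ∧ GoodPath P Q ξ' ∧ C ξ' ∧ ξ' 0 = (a : OnePoint ℂ) ∧ ξ' 1 = a' ∧
        Modifies a ε ξ ξ' ∧ liftEnd P Q n ξ' y ∈ U k)
    (j : ℕ) (s : EnState P Q C a a') :
    ∃ s' : EnState P Q C a a', Modifies a s.1.2 s.1.1 s'.1.1 ∧ s'.1.2 ≤ s.1.2 / 2 ∧
      (∀ t : unitInterval, (t : ℝ) ≤ s'.1.2 →
        ∃ z ∈ Metric.ball a s.1.2, s'.1.1 t = ((z : ℂ) : OnePoint ℂ)) ∧
      ∀ w : List (Fin 2), ∀ k : ℕ, Encodable.decode (α := List (Fin 2) × ℕ) j = some (w, k) →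
        k ∈ G → ∃ M : ℕ, DiscOK P Q (w.length + M) a s'.1.2 ∧
          liftEnd P Q (w.length + M) s'.1.1 (vtx P Q s'.1.1 w.length (encont w)) ∈ U k := by
  obtain ⟨⟨ξ, ε⟩, ⟨hξ, hC⟩, h0, h1, hε⟩ := s
  simp only at hξ hC h0 h1 hε ⊢
  by_cases hj : ∃ w : List (Fin 2), ∃ k : ℕ,
      Encodable.decode (α := List (Fin 2) × ℕ) j = some (w, k) ∧ k ∈ G
  · obtain ⟨w, k, hwk, hk⟩ := hj
    obtain ⟨η, hη, hok⟩ := exists_discOK h a w.length (ha _)
    have hy := en_vtx_fiber h hξ h0 h1 hfa hfa' w.length (encont w)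
    have hyY := en_vtx_mem h hξ h0 h1 hfa hfa' Y haY (hCY ξ hξ hC h0 h1) w.length (encont w)
    obtain ⟨ξ', n, hn, hξ', hC', h0', h1', hmod, hU⟩ := hT k hk ξ hξ hC h0 h1 w.length _ hyY hy
      (min ε η) (lt_min hε hη)
    obtain ⟨η2, hη2, hok2⟩ := exists_discOK h a n (ha _)
    obtain ⟨δ, hδ, hδ2⟩ := en_near0 h0' hε
    refine ⟨⟨(ξ', min (ε / 2) (min η2 δ)), ⟨hξ', hC'⟩, h0', h1',
      lt_min (by positivity) (lt_min hη2 hδ)⟩, ?_, min_le_left _ _, ?_, ?_⟩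
    · obtain ⟨τ, hτ0, hτ1, hτ2, hτ3⟩ := hmod
      refine ⟨τ, hτ0, hτ1.trans_le (min_le_left _ _), hτ2, fun t ht => ?_⟩
      obtain ⟨⟨z, hz, hz'⟩, v, hv, hv'⟩ := hτ3 t ht
      exact ⟨⟨z, Metric.ball_subset_ball (min_le_left _ _) hz, hz'⟩,
        v, Metric.ball_subset_ball (min_le_left _ _) hv, hv'⟩
    · intro t ht
      exact hδ2 t (ht.trans ((min_le_right _ _).trans (min_le_right _ _)))
    · intro w' k' hwk' _
      rw [hwk] at hwk'
      obtain ⟨rfl, rfl⟩ : w = w' ∧ k = k' := by simpa using hwk'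
      refine ⟨n - w.length, ?_, ?_⟩
      · rw [Nat.add_sub_cancel' hn]
        exact en_discOK_mono le_rfl ((min_le_right _ _).trans (min_le_left _ _)) hok2
      · rw [Nat.add_sub_cancel' hn]
        have h3 : vtx P Q ξ w.length (encont w) = vtx P Q ξ' w.length (encont w) := by
          obtain ⟨τ, -, -, hτ2, hτ3⟩ := hmod
          exact en_vtx_mod h hξ hξ' h0 h0' h1 hfa hfa' (lt_min hε hη)
            (en_discOK_mono le_rfl (min_le_right _ _) hok) ⟨τ, hτ2, hτ3⟩ w.length (by omega) _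
        simp only
        rw [← h3]
        exact hU
  · obtain ⟨δ, hδ, hδ2⟩ := en_near0 h0 hε
    refine ⟨⟨(ξ, min (ε / 2) δ), ⟨hξ, hC⟩, h0, h1, lt_min (by positivity) hδ⟩, en_modifies_refl h0 hε,
      min_le_left _ _, fun t ht => hδ2 t (ht.trans (min_le_right _ _)), ?_⟩
    intro w k hwk hk
    exact absurd ⟨w, k, hwk, hk⟩ hj

theorem en_startsWith_lt {l : List (Fin 2)} {α : ℕ → Fin 2} (h : StartsWith l α) (i : ℕ)
    (hi : i < l.length) : α i = l[i] := by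
  have h1 : (List.ofFn (fun i : Fin l.length => α i))[i]'(by simpa using hi) = l[i] := by
    congr 1
  rw [← h1, List.getElem_ofFn]

theorem engine_class {P Q : Polynomial ℂ} {d : ℕ} (h : RatData P Q d) (a : ℂ) (a' : OnePoint ℂ)
    (ha : ∀ n, AvoidN P Q n (a : OnePoint ℂ)) (hfa : ratMap P Q (a : OnePoint ℂ) = (a : OnePoint ℂ))
    (hfa' : ratMap P Q a' = (a : OnePoint ℂ))
    (C : C(unitInterval, OnePoint ℂ) → Prop) (Y : Set (OnePoint ℂ)) (haY : (a : OnePoint ℂ) ∈ Y)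
    (hCY : ∀ ξ, GoodPath P Q ξ → C ξ → ξ 0 = (a : OnePoint ℂ) → ξ 1 = a' → ∀ (N : ℕ), ∀ y ∈ Y,
      (ratMap P Q)^[N] y = (a : OnePoint ℂ) → liftEnd P Q N ξ y ∈ Y)
    (G : Set ℕ) (U : ℕ → Set (OnePoint ℂ))
    (hξ₀ : ∃ ξ, GoodPath P Q ξ ∧ C ξ ∧ ξ 0 = (a : OnePoint ℂ) ∧ ξ 1 = a')
    (hT : ∀ k ∈ G, ∀ ξ, GoodPath P Q ξ → C ξ → ξ 0 = (a : OnePoint ℂ) → ξ 1 = a' →
      ∀ (N : ℕ), ∀ y ∈ Y, (ratMap P Q)^[N] y = (a : OnePoint ℂ) → ∀ ε : ℝ, 0 < ε →
      ∃ ξ' n, N ≤ n ∧ GoodPath P Q ξ' ∧ C ξ' ∧ ξ' 0 = (a : OnePoint ℂ) ∧ ξ' 1 = a' ∧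
        Modifies a ε ξ ξ' ∧ liftEnd P Q n ξ' y ∈ U k) :
    ∃ γ, GoodPath P Q γ ∧ γ 0 = (a : OnePoint ℂ) ∧ γ 1 = a' ∧
      ∀ (w : List (Fin 2)), ∀ k ∈ G, ∃ M : ℕ, ∀ α : ℕ → Fin 2,
        StartsWith (w ++ List.replicate M 0 ++ [1]) α → vtx P Q γ (w.length + M + 1) α ∈ U k := by
  classical
  obtain ⟨ξ₀, hξ₀, hC₀, h0₀, h1₀⟩ := hξ₀
  choose nxt hn1 hn2 hn3 hn4 using en_step h a a' ha hfa hfa' C Y haY hCY G U hT
  let S : ℕ → EnState P Q C a a' := fun j =>
    Nat.rec (motive := fun _ => EnState P Q C a a') ⟨(ξ₀, 1), ⟨hξ₀, hC₀⟩, h0₀, h1₀, one_pos⟩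
      (fun j s => nxt j s) j
  have hS0 : (S 0).1.2 = 1 := rfl
  have hSs : ∀ j, S (j + 1) = nxt j (S j) := fun j => rfl
  -- abbreviations
  let X : ℕ → C(unitInterval, OnePoint ℂ) := fun j => (S j).1.1
  let e : ℕ → ℝ := fun j => (S j).1.2
  have hXg : ∀ j, GoodPath P Q (X j) := fun j => (S j).2.1.1
  have hX0 : ∀ j, X j 0 = (a : OnePoint ℂ) := fun j => (S j).2.2.1
  have hX1 : ∀ j, X j 1 = a' := fun j => (S j).2.2.2.1
  have he : ∀ j, 0 < e j := fun j => (S j).2.2.2.2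
  have hmod : ∀ j, Modifies a (e j) (X j) (X (j + 1)) := fun j => hn1 j (S j)
  have hhalf : ∀ j, e (j + 1) ≤ e j / 2 := fun j => hn2 j (S j)
  have hin : ∀ j, ∀ t : unitInterval, (t : ℝ) ≤ e (j + 1) →
      ∃ z ∈ Metric.ball a (e j), X (j + 1) t = ((z : ℂ) : OnePoint ℂ) := fun j => hn3 j (S j)
  have htask : ∀ j, ∀ w : List (Fin 2), ∀ k : ℕ,
      Encodable.decode (α := List (Fin 2) × ℕ) j = some (w, k) →
        k ∈ G → ∃ M : ℕ, DiscOK P Q (w.length + M) a (e (j + 1)) ∧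
          liftEnd P Q (w.length + M) (X (j + 1)) (vtx P Q (X (j + 1)) w.length (encont w)) ∈ U k :=
    fun j => hn4 j (S j)
  have hanti : Antitone e := antitone_nat_of_succ_le fun j => by
    have := hhalf j
    have := he j
    linarith
  have hle : ∀ j, e j ≤ (1 / 2) ^ j := by
    intro j
    induction j with
    | zero => simp [e, hS0]
    | succ j ih =>
      have := hhalf j
      rw [pow_succ]
      linarith
  have hto : Tendsto e atTop (𝓝 0) :=
    squeeze_zero (fun j => (he j).le) hle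
      (tendsto_pow_atTop_nhds_zero_of_lt_one (by norm_num) (by norm_num))
  have he1 : ∀ j, e j ≤ 1 := fun j => by
    have := hanti (Nat.zero_le j)
    simpa [e, hS0] using this
  -- eventual equality
  have hE : ∀ j, ∀ t : unitInterval, e j ≤ t → ∀ i, j ≤ i → X i t = X j t := by
    intro j t ht i hi
    induction i, hi using Nat.le_induction with
    | base => rfl
    | succ i hi ih =>
      obtain ⟨τ, -, hτ1, hτ2, -⟩ := hmod i
      rw [← ih, hτ2 t]
      have h1 : (τ : ℝ) ≤ t := (hτ1.le.trans (hanti hi)).trans ht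
      exact h1
  have hB : ∀ j, ∀ t : unitInterval, (t : ℝ) ≤ e (j + 1) → ∀ i, j + 1 ≤ i →
      ∃ z ∈ Metric.ball a (e j), X i t = ((z : ℂ) : OnePoint ℂ) := by
    intro j t ht i hi
    induction i, hi using Nat.le_induction with
    | base => exact hin j t ht
    | succ i hi ih =>
      obtain ⟨τ, -, -, hτ2, hτ3⟩ := hmod i
      rcases le_total t τ with h1 | h1
      · obtain ⟨-, z, hz, hz'⟩ := hτ3 t h1
        exact ⟨z, Metric.ball_subset_ball (hanti (by omega)) hz, hz'⟩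
      · rw [← hτ2 t h1]
        exact ih
  -- the limit
  have hev : ∀ t : unitInterval, ∃ v, ∀ᶠ i in atTop, X i t = v := by
    intro t
    rcases (t.2.1 : (0 : ℝ) ≤ t).eq_or_lt with h1 | h1
    · have h2 : t = 0 := Subtype.ext h1.symm
      exact ⟨a, Eventually.of_forall fun i => by rw [h2]; exact hX0 i⟩
    · obtain ⟨j, hj⟩ := (hto.eventually (gt_mem_nhds h1)).exists
      exact ⟨X j t, eventually_atTop.2 ⟨j, fun i hi => hE j t hj.le i hi⟩⟩
  choose g hg using hev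
  have hG1 : ∀ j, ∀ t : unitInterval, e j ≤ t → g t = X j t := by
    intro j t ht
    obtain ⟨i, hi, hij⟩ := ((hg t).and (eventually_ge_atTop j)).exists
    rw [← hi, hE j t ht i hij]
  have hG2 : ∀ j, ∀ t : unitInterval, (t : ℝ) ≤ e (j + 1) →
      ∃ z ∈ Metric.ball a (e j), g t = ((z : ℂ) : OnePoint ℂ) := by
    intro j t ht
    obtain ⟨i, hi, hij⟩ := ((hg t).and (eventually_ge_atTop (j + 1))).exists
    rw [← hi]
    exact hB j t ht i hij
  have hg0 : g 0 = (a : OnePoint ℂ) := by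
    obtain ⟨i, hi⟩ := (hg 0).exists
    rw [← hi, hX0]
  have hg1 : g 1 = a' := by
    obtain ⟨i, hi⟩ := (hg 1).exists
    rw [← hi, hX1]
  have hcont : Continuous g := by
    rw [continuous_iff_continuousAt]
    intro t
    rcases (t.2.1 : (0 : ℝ) ≤ t).eq_or_lt with h1 | h1
    · have h2 : t = 0 := Subtype.ext h1.symm
      rw [h2, ContinuousAt, hg0]
      intro s hs
      have h3 : (fun z : ℂ => (z : OnePoint ℂ)) ⁻¹' s ∈ 𝓝 a :=
        OnePoint.continuous_coe.continuousAt hs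
      obtain ⟨r, hr, hrs⟩ := Metric.mem_nhds_iff.1 h3
      obtain ⟨j, hj⟩ := (hto.eventually (gt_mem_nhds hr)).exists
      rw [mem_map]
      refine Metric.mem_nhds_iff.2 ⟨e (j + 1), he (j + 1), fun u hu => ?_⟩
      have h4 : (u : ℝ) ≤ e (j + 1) := by
        rw [Metric.mem_ball, Subtype.dist_eq, Real.dist_eq] at hu
        simp only [Set.Icc.coe_zero, sub_zero] at hu
        exact (le_abs_self _).trans hu.le
      obtain ⟨z, hz, hz'⟩ := hG2 j u h4
      have h5 := hrs (Metric.ball_subset_ball hj.le hz)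
      show g u ∈ s
      rw [hz']
      exact h5
    · obtain ⟨j, hj⟩ := (hto.eventually (gt_mem_nhds h1)).exists
      have h2 : {u : unitInterval | e j < u} ∈ 𝓝 t :=
        (isOpen_lt continuous_const continuous_subtype_val).mem_nhds hj
      refine ((X j).continuous.continuousAt (x := t)).congr ?_
      filter_upwards [h2] with u hu
      exact (hG1 j u (le_of_lt hu)).symm
  let γ : C(unitInterval, OnePoint ℂ) := ⟨g, hcont⟩
  have hγg : GoodPath P Q γ := by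
    intro t
    obtain ⟨i, hi⟩ := (hg t).exists
    have h1 : γ t = X i t := hi.symm
    rw [h1]
    exact hXg i t
  have hγm : ∀ j, EnMod a (e j) (X j) γ := by
    intro j
    obtain ⟨τ, -, -, hτ2, hτ3⟩ := hmod j
    let σ : unitInterval := ⟨e (j + 1), (he (j + 1)).le, he1 (j + 1)⟩
    refine ⟨max τ σ, fun t ht => ?_, fun t ht => ?_⟩
    · have h1 : τ ≤ t := (le_max_left _ _).trans ht
      have h2 : σ ≤ t := (le_max_right _ _).trans ht
      show X j t = g t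
      rw [hG1 (j + 1) t h2, hτ2 t h1]
    · constructor
      · rcases le_total t τ with h1 | h1
        · exact (hτ3 t h1).1
        · rcases le_total t σ with h2 | h2
          · rw [hτ2 t h1]
            exact hin j t h2
          · have h3 : t ≤ τ ∨ t ≤ σ := le_max_iff.1 ht
            rcases h3 with h3 | h3
            · exact (hτ3 t h3).1
            · rw [hτ2 t h1]
              exact hin j t h3
      · show ∃ z ∈ Metric.ball a (e j), g t = ((z : ℂ) : OnePoint ℂ)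
        rcases le_total t σ with h2 | h2
        · exact hG2 j t h2
        · rw [hG1 (j + 1) t h2]
          have h3 : t ≤ τ ∨ t ≤ σ := le_max_iff.1 ht
          rcases h3 with h3 | h3
          · exact (hτ3 t h3).2
          · exact hin j t h3
  refine ⟨γ, hγg, hg0, hg1, ?_⟩
  intro w k hk
  obtain ⟨M, hok, hM⟩ := htask (Encodable.encode (w, k)) w k (Encodable.encodek _) hk
  refine ⟨M, fun α hα => ?_⟩
  set j := Encodable.encode (w, k)
  have hlen : (w ++ List.replicate M 0 ++ [1] : List (Fin 2)).length = w.length + M + 1 := by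
    simp [add_assoc]
  have hα1 : α (w.length + M) = 1 := by
    rw [en_startsWith_lt hα _ (by rw [hlen]; omega)]
    rw [List.getElem_append_right (by simp)]
    simp
  have hα0 : ∀ i, w.length ≤ i → i < w.length + M → α i = 0 := by
    intro i hi hi2
    rw [en_startsWith_lt hα _ (by rw [hlen]; omega)]
    rw [List.getElem_append_left (by simp; omega), List.getElem_append_right hi]
    simp
  have hαw : ∀ i < w.length, α i = encont w i := by
    intro i hi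
    rw [en_startsWith_lt hα _ (by rw [hlen]; omega)]
    rw [List.getElem_append_left (by simp; omega), List.getElem_append_left hi]
    simp [encont, hi]
  rw [← en_vtx_mod h (hXg (j + 1)) hγg (hX0 (j + 1)) hg0 (hX1 (j + 1)) hfa hfa' (he (j + 1)) hok
    (hγm (j + 1)) (w.length + M + 1) le_rfl α]
  rw [vtx, if_neg (by rw [hα1]; decide), en_vtx_zeros _ _ _ _ hα0,
    en_vtx_congr _ _ _ _ hαw]
  exact hM

end Pool.Agent.Lib.MP_e4ee3e_an.Q1
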