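import Pool.Agent.Lib.MP_e4ee3e_an.L09
import Pool.Agent.Lib.MP_e4ee3e_an.L10
import Pool.Agent.Lib.MP_e4ee3e_an.Q1.BA

/-!
JU. If the immediate basin is completely invariant, the Julia set is contained in its frontier.
-/

open MeasureTheory Filter Topology

namespace Pool.Agent.Lib.MP_e4ee3e_an.Q1

attribute [local instance] chMetric

/-- An open nonempty set of the sphere contains three different finite points. -/
theorem ju_three {U : Set (OnePoint ℂ)} (hU : IsOpen U) (hne : U.Nonempty) :
    ∃ u v w : OnePoint ℂ, u ∈ U ∧ v ∈ U ∧ w ∈ U ∧ u ≠ v ∧ v ≠ w ∧ u ≠ w := by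
  obtain ⟨x, hx⟩ := (OnePoint.denseRange_coe (X := ℂ)).exists_mem_open hU hne
  have hpre : IsOpen ((fun z : ℂ => (z : OnePoint ℂ)) ⁻¹' U) := hU.preimage OnePoint.continuous_coe
  obtain ⟨r, hr, hball⟩ := Metric.isOpen_iff.1 hpre x hx
  have h1 : x + ((r / 2 : ℝ) : ℂ) ∈ Metric.ball x r := by
    rw [Metric.mem_ball, dist_eq_norm, add_sub_cancel_left, Complex.norm_real, Real.norm_eq_abs,
      abs_of_pos (by positivity)]
    linarith
  have h2 : x + ((r / 3 : ℝ) : ℂ) ∈ Metric.ball x r := by
    rw [Metric.mem_ball, dist_eq_norm, add_sub_cancel_left, Complex.norm_real, Real.norm_eq_abs,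
      abs_of_pos (by positivity)]
    linarith
  refine ⟨(x : OnePoint ℂ), ((x + ((r / 2 : ℝ) : ℂ) : ℂ) : OnePoint ℂ),
    ((x + ((r / 3 : ℝ) : ℂ) : ℂ) : OnePoint ℂ), hx, hball h1, hball h2, ?_, ?_, ?_⟩
  · intro h
    have h3 := OnePoint.coe_injective h
    have h4 : ((r / 2 : ℝ) : ℂ) = 0 := by linear_combination -h3
    have h5 : r / 2 = 0 := by exact_mod_cast h4
    linarith
  · intro h
    have h3 := OnePoint.coe_injective h
    have h4 : ((r / 2 : ℝ) : ℂ) = ((r / 3 : ℝ) : ℂ) := by linear_combination h3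
    have h5 : r / 2 = r / 3 := by exact_mod_cast h4
    linarith
  · intro h
    have h3 := OnePoint.coe_injective h
    have h4 : ((r / 3 : ℝ) : ℂ) = 0 := by linear_combination -h3
    have h5 : r / 3 = 0 := by exact_mod_cast h4
    linarith

theorem julia_subset_frontier {P Q : Polynomial ℂ} {d : ℕ} (h : RatData P Q d) {a : OnePoint ℂ}
    (ha : IsAttracting (ratMap P Q) a)
    (hinv : ratMap P Q ⁻¹' immediateBasin (ratMap P Q) a ⊆ immediateBasin (ratMap P Q) a) :
    julia (ratMap P Q) ⊆ frontier (immediateBasin (ratMap P Q) a) := by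
  set A := immediateBasin (ratMap P Q) a with hA
  have hAo : IsOpen A := isOpen_immediateBasin h ha
  have haA : a ∈ A := self_mem_immediateBasin ha
  -- finite points
  have hfin : ∀ x : ℂ, (x : OnePoint ℂ) ∈ julia (ratMap P Q) → (x : OnePoint ℂ) ∈ frontier A := by
    intro x hx
    by_contra hxF
    by_cases hxA : (x : OnePoint ℂ) ∈ A
    · obtain ⟨u, v, w, hu, hv, hw, huv, hvw, huw⟩ := ju_three (U := ({a} : Set (OnePoint ℂ))ᶜ)
        isOpen_compl_singleton (by
          obtain ⟨u, v, w, -, -, -, huv, -, -⟩ := ju_three (U := Set.univ) isOpen_univ ⟨a, trivial⟩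
          by_cases hua : u = a
          · exact ⟨v, fun hva => huv (hua.trans (Set.mem_singleton_iff.1 hva).symm)⟩
          · exact ⟨u, hua⟩)
      have hpre : IsOpen ((fun z : ℂ => (z : OnePoint ℂ)) ⁻¹' A) :=
        hAo.preimage OnePoint.continuous_coe
      obtain ⟨r, hr, hball⟩ := Metric.isOpen_iff.1 hpre x hxA
      have hK : IsCompact ((fun z : ℂ => (z : OnePoint ℂ)) '' Metric.closedBall x (r / 2)) :=
        (isCompact_closedBall x (r / 2)).image OnePoint.continuous_coe
      have hKb : (fun z : ℂ => (z : OnePoint ℂ)) '' Metric.closedBall x (r / 2) ⊆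
          basin (ratMap P Q) a := by
        rintro _ ⟨z, hz, rfl⟩
        apply immediateBasin_subset
        apply hball
        rw [Metric.mem_ball]
        have := Metric.mem_closedBall.1 hz
        linarith
      have hU : (({u, v, w} : Set (OnePoint ℂ))ᶜ) ∈ 𝓝 a := by
        apply IsOpen.mem_nhds
        · exact (Set.toFinite _).isClosed.isOpen_compl
        · rintro (h1 | h1 | h1)
          · exact hu h1.symm
          · exact hv h1.symm
          · exact hw (Set.mem_singleton_iff.1 h1).symm
      obtain ⟨N₁, hN₁⟩ := eventually_atTop.1 (basin_compact h ha hK hKb hU)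
      refine not_julia_of_triples h x (r / 2) (min (dist u v) (min (dist v w) (dist u w)))
        (by positivity) (lt_min (dist_pos.2 huv) (lt_min (dist_pos.2 hvw) (dist_pos.2 huw))) N₁
        (fun N hN => ⟨u, v, w, min_le_left _ _, (min_le_right _ _).trans (min_le_left _ _),
          (min_le_right _ _).trans (min_le_right _ _), fun z hz => ?_⟩) hx
      have h1 := hN₁ N hN (z : OnePoint ℂ) ⟨z, Metric.ball_subset_closedBall hz, rfl⟩
      refine ⟨fun h2 => h1 (Or.inl h2), fun h2 => h1 (Or.inr (Or.inl h2)),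
        fun h2 => h1 (Or.inr (Or.inr h2))⟩
    · have hxc : (x : OnePoint ℂ) ∉ closure A := by
        intro hc
        exact hxF ⟨hc, fun hi => hxA (interior_subset hi)⟩
      obtain ⟨u, v, w, hu, hv, hw, huv, hvw, huw⟩ := ju_three (U := A) hAo ⟨a, haA⟩
      have hpre : IsOpen ((fun z : ℂ => (z : OnePoint ℂ)) ⁻¹' (closure A)ᶜ) :=
        isClosed_closure.isOpen_compl.preimage OnePoint.continuous_coe
      obtain ⟨r, hr, hball⟩ := Metric.isOpen_iff.1 hpre x hxc
      have hout : ∀ (N : ℕ) (z : OnePoint ℂ), z ∉ A → (ratMap P Q)^[N] z ∉ A := by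
        intro N
        induction N with
        | zero => exact fun z hz => hz
        | succ N ih =>
          intro z hz
          rw [Function.iterate_succ_apply]
          exact ih _ (fun h1 => hz (hinv h1))
      refine not_julia_of_triples h x r (min (dist u v) (min (dist v w) (dist u w)))
        hr (lt_min (dist_pos.2 huv) (lt_min (dist_pos.2 hvw) (dist_pos.2 huw))) 0
        (fun N hN => ⟨u, v, w, min_le_left _ _, (min_le_right _ _).trans (min_le_left _ _),
          (min_le_right _ _).trans (min_le_right _ _), fun z hz => ?_⟩) hx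
      have h1 : (ratMap P Q)^[N] (z : OnePoint ℂ) ∉ A := by
        apply hout
        intro h2
        exact hball hz (subset_closure h2)
      exact ⟨fun h2 => h1 (h2 ▸ hu), fun h2 => h1 (h2 ▸ hv), fun h2 => h1 (h2 ▸ hw)⟩
  intro x hx
  cases x using OnePoint.rec with
  | coe x => exact hfin x hx
  | infty =>
    obtain ⟨x₁, hx₁⟩ := finite_preimage_infty h hx
    have hxj : (x₁ : OnePoint ℂ) ∈ julia (ratMap P Q) := julia_backward h (by rw [hx₁]; exact hx)
    have h1 := hfin x₁ hxj
    have hx₁A : (x₁ : OnePoint ℂ) ∉ A := by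
      intro h2
      rw [frontier, hAo.interior_eq] at h1
      exact h1.2 h2
    rw [frontier, hAo.interior_eq, ← hx₁]
    refine ⟨?_, fun h2 => hx₁A (hinv h2)⟩
    have h3 : ratMap P Q (x₁ : OnePoint ℂ) ∈ closure (ratMap P Q '' A) :=
      image_closure_subset_closure_image (ratMap_continuous h) ⟨_, h1.1, rfl⟩
    refine closure_mono ?_ h3
    rintro _ ⟨z, hz, rfl⟩
    exact iterate_mem_immediateBasin h ha 1 hz

end Pool.Agent.Lib.MP_e4ee3e_an.Q1
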