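import Pool.Agent.Lib.MP_e4ee3e_an.Q1.MG
import Pool.Agent.Lib.MP_e4ee3e_an.Q1.CR
import Pool.Agent.Lib.MP_e4ee3e_an.Q1.MO
import Pool.Agent.Lib.MP_e4ee3e_an.Q1.TP
import Pool.Agent.Lib.MP_e4ee3e_an.Q1.JU

/-!
FI. The coding theorem for the immediate basin of an attracting fixed point.
-/

open MeasureTheory Filter Topology

namespace Pool.Agent.Lib.MP_e4ee3e_an.Q1

attribute [local instance] chMetric

theorem main_basin [MeasurableSpace (OnePoint ℂ)] [BorelSpace (OnePoint ℂ)]
    {P Q : Polynomial ℂ} {d : ℕ} (h : RatData P Q d) {a : OnePoint ℂ}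
    (ha : IsAttracting (ratMap P Q) a)
    (hcrit : ∀ c, IsCritPt (ratMap P Q) c → ∀ n, 1 ≤ n → (ratMap P Q)^[n] c ≠ a) :
    Codes (ratMap P Q) d a (frontier (immediateBasin (ratMap P Q) a)) := by
  -- a finite point b which is no iterated preimage of a
  have hcount : {x : OnePoint ℂ | ∃ n, (ratMap P Q)^[n] x = a}.Countable := by
    have : {x : OnePoint ℂ | ∃ n, (ratMap P Q)^[n] x = a} =
        ⋃ n, (ratMap P Q)^[n] ⁻¹' {a} := by
      ext x
      simp
    rw [this]
    exact Set.countable_iUnion fun n => countable_preimage h n (Set.countable_singleton a)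
  have hcount2 : ((fun z : ℂ => (z : OnePoint ℂ)) ⁻¹'
      {x : OnePoint ℂ | ∃ n, (ratMap P Q)^[n] x = a}).Countable :=
    hcount.preimage OnePoint.coe_injective
  obtain ⟨b, hb⟩ : ∃ b : ℂ, ∀ n, (ratMap P Q)^[n] (b : OnePoint ℂ) ≠ a := by
    by_contra hcon
    push Not at hcon
    have : (Set.univ : Set ℂ).Countable := hcount2.mono fun z _ => hcon z
    exact not_countable_complex this
  obtain ⟨M, P', Q', h', hMb, hM⟩ := exists_conj h b
  have hMa : M a ≠ OnePoint.infty := by
    rw [← hMb]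
    intro h1
    exact hb 0 (M.injective h1).symm
  obtain ⟨a₀, ha₀⟩ := OnePoint.ne_infty_iff_exists.1 hMa
  have hatt : IsAttracting (ratMap P' Q') (a₀ : OnePoint ℂ) := by
    rw [ha₀]
    exact isAttracting_conj M hM ha
  have hgood : (a₀ : OnePoint ℂ) ∈ Good P' Q' := by
    refine ⟨OnePoint.coe_ne_infty _, ?_⟩
    rintro k hk c hc
    rw [ha₀]
    obtain ⟨c', rfl⟩ := M.surjective c
    rw [iterate_conj M hM]
    intro h1
    have h2 := M.injective h1
    rcases hc with hc | ⟨y, hy, hw⟩
    · rw [← hMb] at hc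
      rw [M.injective hc] at h2
      exact hb k h2
    · have h3 : IsCritPt (ratMap P' Q') (M c') := by
        rw [hy]
        exact isCritPt_of_wronskian h' hw
      exact hcrit c' ((isCritPt_conj M hM).1 h3) k hk h2
  have key := main_good (P := P') (Q := Q') (d := d) ⟨h', hatt, hgood⟩
  rw [ha₀, frontier_immediateBasin_conj M hM ha.1] at key
  exact codes_of_conj M hM key

/-- Coding all measures on `F` implies coding all points of `F`. -/
theorem points_of_codes [MeasurableSpace (OnePoint ℂ)] [BorelSpace (OnePoint ℂ)]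
    {f : OnePoint ℂ → OnePoint ℂ} {d : ℕ} (T : CodingTree f d) {F : Set (OnePoint ℂ)}
    (hF : MeasurableSet F)
    (hT : ∀ m : Measure (OnePoint ℂ), IsProbabilityMeasure m → m Fᶜ = 0 →
      ∃ μ : Measure (ℕ → Fin d), IsProbabilityMeasure μ ∧ μ T.domainᶜ = 0 ∧
        μ.map T.codingMap = m) {x : OnePoint ℂ} (hx : x ∈ F) :
    ∃ ω, Tendsto (fun n => T.vertex n ω) atTop (𝓝 x) := by
  obtain ⟨μ, hμ, hdom, hmap⟩ := hT (Measure.dirac x) inferInstance (by
    rw [Measure.dirac_apply' _ hF.compl]
    simp [hx])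
  by_contra hcon
  push Not at hcon
  have hae : AEMeasurable T.codingMap μ := by
    by_contra hn
    rw [Measure.map_of_not_aemeasurable hn] at hmap
    have h1 : (Measure.dirac x : Measure (OnePoint ℂ)) Set.univ = 0 := by
      rw [← hmap]
      rfl
    rw [measure_univ] at h1
    exact one_ne_zero h1
  have h2 : μ (T.codingMap ⁻¹' {x}) = 1 := by
    have h3 : (μ.map T.codingMap) {x} = 1 := by
      rw [hmap, Measure.dirac_apply' _ (measurableSet_singleton x)]
      simp
    rwa [Measure.map_apply_of_aemeasurable hae (measurableSet_singleton x)] at h3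
  have h4 : T.codingMap ⁻¹' {x} ⊆ T.domainᶜ := by
    intro ω hω hd
    have h5 : Tendsto (fun n => T.vertex n ω) atTop (𝓝 (T.codingMap ω)) :=
      tendsto_nhds_limUnder hd
    rw [show T.codingMap ω = x from hω] at h5
    exact hcon ω h5
  have h6 := measure_mono_null h4 hdom
  rw [h2] at h6
  exact one_ne_zero h6

end Pool.Agent.Lib.MP_e4ee3e_an.Q1
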