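import Pool.Agent.Lib.MP_e4ee3e_an.K04
import Pool.Agent.Lib.MP_e4ee3e_an.Q1.Defs

/-!
MV. Replace the beginning of a path. ξ' = f^n o π (t / τ) on [0, τ] and ξ on [τ, 1] (continuous:
f^n (π 1) = f^n (η τ) = ξ τ); the lift of ξ' from π 0 is π (t / τ) on [0, τ] and η on [τ, 1], so
liftEnd = η 1 by liftN_unique.
-/

open MeasureTheory Filter Topology

namespace Pool.Agent.Lib.MP_e4ee3e_an.Q1

attribute [local instance] chMetric

theorem exists_modify_cut {P Q : Polynomial ℂ} {d : ℕ} (h : RatData P Q d)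
    {ξ : C(unitInterval, OnePoint ℂ)} (hξ : GoodPath P Q ξ) (a : ℂ) (n : ℕ) (ε : ℝ)
    (τ : unitInterval) (hτ0 : 0 < (τ : ℝ)) (hτε : (τ : ℝ) < ε)
    (hτb : ∀ t, t ≤ τ → ∃ z ∈ Metric.ball a ε, ξ t = ((z : ℂ) : OnePoint ℂ))
    (η : C(unitInterval, OnePoint ℂ)) (hη : ∀ t, (ratMap P Q)^[n] (η t) = ξ t)
    (π : C(unitInterval, OnePoint ℂ)) (hπ0 : (ratMap P Q)^[n] (π 0) = (a : OnePoint ℂ))
    (hπ1 : π 1 = η τ)
    (hπ : ∀ t, ∃ z ∈ Metric.ball a ε, (ratMap P Q)^[n] (π t) = ((z : ℂ) : OnePoint ℂ) ∧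
      ((z : ℂ) : OnePoint ℂ) ∈ Good P Q) :
    ∃ ξ' : C(unitInterval, OnePoint ℂ), GoodPath P Q ξ' ∧ ξ' 0 = (a : OnePoint ℂ) ∧ ξ' 1 = ξ 1 ∧
      Modifies a ε ξ ξ' ∧ liftEnd P Q n ξ' (π 0) = η 1 ∧
      ∀ t, (τ ≤ t ∧ ξ' t = ξ t) ∨
        ∃ t' : unitInterval, (0 < t → 0 < t') ∧ ξ' t = (ratMap P Q)^[n] (π t') := by
  have hfc : Continuous (ratMap P Q)^[n] := (ratMap_continuous h).iterate n
  let v : unitInterval → unitInterval := fun t =>
    ⟨min 1 ((t : ℝ) / τ), by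
      have ht := t.2.1
      exact ⟨le_min zero_le_one (by positivity), min_le_left _ _⟩⟩
  have hvc : Continuous v := by
    refine Continuous.subtype_mk ?_ _
    exact continuous_const.min (continuous_subtype_val.div_const _)
  let Γ : unitInterval → OnePoint ℂ := fun t => if (t : ℝ) ≤ (τ : ℝ) then π (v t) else η t
  have hΓc : Continuous Γ := by
    refine Continuous.if_le (π.continuous.comp hvc) η.continuous
      continuous_subtype_val continuous_const ?_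
    intro t ht
    have hv1 : v t = 1 := by
      apply Subtype.ext
      change min 1 ((t : ℝ) / τ) = 1
      rw [ht, div_self hτ0.ne', min_self]
    have ht' : t = τ := Subtype.ext ht
    change π (v t) = η t
    rw [hv1, hπ1, ht']
  have hv0 : v 0 = 0 := by
    apply Subtype.ext
    change min 1 (((0 : unitInterval) : ℝ) / τ) = 0
    rw [Set.Icc.coe_zero, zero_div]
    exact min_eq_right zero_le_one
  have hvτ : v τ = 1 := by
    apply Subtype.ext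
    change min 1 ((τ : ℝ) / τ) = 1
    rw [div_self hτ0.ne', min_self]
  have hvpos : ∀ t, 0 < t → 0 < v t := by
    intro t ht
    have ht' : (0 : ℝ) < t := ht
    show ((0 : unitInterval) : ℝ) < min 1 ((t : ℝ) / τ)
    rw [Set.Icc.coe_zero]
    exact lt_min one_pos (by positivity)
  have hΓ0 : Γ 0 = π 0 := by
    change (if ((0 : unitInterval) : ℝ) ≤ (τ : ℝ) then π (v 0) else η 0) = π 0
    rw [if_pos (by rw [Set.Icc.coe_zero]; exact hτ0.le), hv0]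
  have hΓge : ∀ t, τ ≤ t → Γ t = η t := by
    intro t ht
    rcases ht.eq_or_lt with h1 | h1
    · rw [← h1]
      change (if (τ : ℝ) ≤ (τ : ℝ) then π (v τ) else η τ) = η τ
      rw [if_pos le_rfl, hvτ, hπ1]
    · change (if (t : ℝ) ≤ (τ : ℝ) then π (v t) else η t) = η t
      exact if_neg (show ¬ (t : ℝ) ≤ (τ : ℝ) from not_le.2 h1)
  have hΓle : ∀ t, t ≤ τ → Γ t = π (v t) := by
    intro t ht
    change (if (t : ℝ) ≤ (τ : ℝ) then π (v t) else η t) = π (v t)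
    exact if_pos (show (t : ℝ) ≤ (τ : ℝ) from ht)
  let ξ' : C(unitInterval, OnePoint ℂ) := ⟨fun t => (ratMap P Q)^[n] (Γ t), hfc.comp hΓc⟩
  have hξ'v : ∀ t, ξ' t = (ratMap P Q)^[n] (Γ t) := fun t => rfl
  have hge : ∀ t, τ ≤ t → ξ' t = ξ t := by
    intro t ht
    rw [hξ'v, hΓge t ht, hη]
  have hle : ∀ t, t ≤ τ → ξ' t = (ratMap P Q)^[n] (π (v t)) := by
    intro t ht
    rw [hξ'v, hΓle t ht]
  have hgood : GoodPath P Q ξ' := by
    intro t
    rcases le_total τ t with h1 | h1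
    · rw [hge t h1]
      exact hξ t
    · rw [hle t h1]
      obtain ⟨z, -, hz, hzg⟩ := hπ (v t)
      rw [hz]
      exact good_iff.1 hzg
  have hξ'0 : ξ' 0 = (a : OnePoint ℂ) := by rw [hξ'v, hΓ0, hπ0]
  refine ⟨ξ', hgood, hξ'0, hge 1 τ.2.2, ⟨τ, hτ0, hτε, fun t ht => (hge t ht).symm, fun t ht => ?_⟩,
    ?_, fun t => ?_⟩
  · refine ⟨hτb t ht, ?_⟩
    obtain ⟨z, hz, hz', -⟩ := hπ (v t)
    exact ⟨z, hz, by rw [hle t ht, hz']⟩
  · have h1 : (⟨Γ, hΓc⟩ : C(unitInterval, OnePoint ℂ)) = liftN P Q n ξ' (π 0) :=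
      liftN_unique h hgood n ⟨Γ, hΓc⟩ hΓ0 (fun t => rfl)
    show liftN P Q n ξ' (π 0) 1 = η 1
    rw [← h1]
    exact hΓge 1 τ.2.2
  · rcases le_total τ t with h1 | h1
    · exact Or.inl ⟨h1, hge t h1⟩
    · exact Or.inr ⟨v t, hvpos t, hle t h1⟩

end Pool.Agent.Lib.MP_e4ee3e_an.Q1
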