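import Pool.Agent.Lib.MP_e4ee3e_an.A04
import Pool.Agent.Lib.MP_e4ee3e_an.B02
import Pool.Agent.Lib.MP_e4ee3e_an.Q1.BC

/-!
SL. Inverse branches of iterates on a small disc in the basin shrink uniformly.

Proof. Take r from exists_disc_ok. E n = {z : ℂ | f^k z in ball q r for some k >= n}:
decreasing, open (measurable), with empty intersection (f^k z tends to a₀, and ‖q - a₀‖ > r), so
sphArea (E n) → 0 (tendsto_measure_iInter_atTop; sphArea is finite: A02) and
volume (E n ∩ closedBall 0 1) → 0. A branch φ of the n-th iterate on ball q r has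
φ '' ball q r ⊆ E n (f^n (φ w) = w is in the basin), so small_area_small_diam (A04) applies for large n
(injectivity: branch_injOn of B02), and C * sphArea (E n) < ε^2 for large n.
-/

open MeasureTheory Filter Topology

namespace Pool.Agent.Lib.MP_e4ee3e_an.Q1

attribute [local instance] chMetric

/-- Points with an iterate of order at least `n` in the disc. -/
def sl_E (P Q : Polynomial ℂ) (q : ℂ) (r : ℝ) (n : ℕ) : Set ℂ :=
  {z | ∃ k, n ≤ k ∧ (ratMap P Q)^[k] (z : OnePoint ℂ) ∈ ((↑) : ℂ → OnePoint ℂ) '' Metric.ball q r}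

theorem sl_open {P Q : Polynomial ℂ} {d : ℕ} (h : RatData P Q d) (q : ℂ) (r : ℝ) (n : ℕ) :
    IsOpen (sl_E P Q q r n) := by
  have h1 : sl_E P Q q r n = ⋃ k, ⋃ (_ : n ≤ k),
      (fun z : ℂ => (ratMap P Q)^[k] (z : OnePoint ℂ)) ⁻¹'
        (((↑) : ℂ → OnePoint ℂ) '' Metric.ball q r) := by
    ext z
    simp [sl_E]
  rw [h1]
  refine isOpen_iUnion fun k => isOpen_iUnion fun _ => ?_
  refine IsOpen.preimage ((ratMap_iter_continuous h k).comp OnePoint.continuous_coe) ?_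
  exact OnePoint.isOpenEmbedding_coe.isOpenMap _ Metric.isOpen_ball

theorem sl_anti (P Q : Polynomial ℂ) (q : ℂ) (r : ℝ) : Antitone (sl_E P Q q r) := by
  intro m n hmn z hz
  obtain ⟨k, hk, hz⟩ := hz
  exact ⟨k, hmn.trans hk, hz⟩

theorem sl_inter {P Q : Polynomial ℂ} {d : ℕ} (h : RatData P Q d) {a₀ q : ℂ} {r : ℝ}
    (hra : r < ‖q - a₀‖)
    (hb : ∀ w ∈ Metric.ball q r, (w : OnePoint ℂ) ∈ basin (ratMap P Q) a₀) :
    ⋂ n, sl_E P Q q r n = ∅ := by
  rw [Set.eq_empty_iff_forall_notMem]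
  intro z hz
  rw [Set.mem_iInter] at hz
  obtain ⟨k, _, w, hw, hkw⟩ := hz 0
  have h1 : (z : OnePoint ℂ) ∈ basin (ratMap P Q) a₀ := by
    rw [← iterate_mem_basin_iff k, ← hkw]
    exact hb w hw
  have h2 : ((↑) : ℂ → OnePoint ℂ) '' Metric.ball a₀ (‖q - a₀‖ - r) ∈ 𝓝 (a₀ : OnePoint ℂ) :=
    (OnePoint.isOpenEmbedding_coe.isOpenMap _ Metric.isOpen_ball).mem_nhds
      ⟨a₀, Metric.mem_ball_self (by linarith), rfl⟩
  have h3 := (h1 : Tendsto _ _ _).eventually h2
  obtain ⟨N, hN⟩ := eventually_atTop.1 h3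
  obtain ⟨k', hk', w', hw', hkw'⟩ := hz N
  obtain ⟨w'', hw'', hkw''⟩ := hN k' hk'
  have h4 : w'' = w' := OnePoint.coe_injective (hkw''.trans hkw'.symm)
  subst h4
  have h5 := Metric.mem_ball'.1 hw'
  have h6 := Metric.mem_ball.1 hw''
  have h7 := dist_triangle q w'' a₀
  rw [dist_eq_norm q a₀] at h7
  linarith

theorem shrink_local {P Q : Polynomial ℂ} {d : ℕ} (h : RatData P Q d) {a₀ : ℂ}
    (ha : IsAttracting (ratMap P Q) (a₀ : OnePoint ℂ)) {q : ℂ}
    (hq : (q : OnePoint ℂ) ∈ basin (ratMap P Q) a₀) (hqa : q ≠ a₀)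
    (hgood : (q : OnePoint ℂ) ∈ Good P Q) :
    ∃ r : ℝ, 0 < r ∧ (∀ n, DiscOK P Q n q r) ∧
      ∀ ε : ℝ, 0 < ε → ∃ n₀ : ℕ, ∀ n, n₀ ≤ n → ∀ φ : ℂ → ℂ, IsBranch P Q n q r φ →
        ∀ w ∈ Metric.ball q (r / 4), ∀ w' ∈ Metric.ball q (r / 4),
          dist ((φ w : ℂ) : OnePoint ℂ) ((φ w' : ℂ) : OnePoint ℂ) < ε := by
  obtain ⟨r, hr, hok, hra, hbas⟩ := exists_disc_ok h ha hq hqa hgood
  obtain ⟨C, hC, hA⟩ := small_area_small_diam
  refine ⟨r, hr, hok, fun ε hε => ?_⟩
  have hint := sl_inter h hra hbas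
  have hm : ∀ n, MeasurableSet (sl_E P Q q r n) := fun n => (sl_open h q r n).measurableSet
  have h1 : Tendsto (fun n => sphArea (sl_E P Q q r n)) atTop (𝓝 0) := by
    have := tendsto_measure_iInter_atTop (μ := sphArea) (s := sl_E P Q q r)
      (fun n => (hm n).nullMeasurableSet) (sl_anti P Q q r)
      ⟨0, (lt_of_le_of_lt (measure_mono (Set.subset_univ _)) sphArea_lt_top).ne⟩
    rwa [hint, measure_empty] at this
  have h2 : Tendsto (fun n => volume (sl_E P Q q r n ∩ Metric.closedBall (0 : ℂ) 1)) atTop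
      (𝓝 0) := by
    have := tendsto_measure_iInter_atTop (μ := (volume : Measure ℂ))
      (s := fun n => sl_E P Q q r n ∩ Metric.closedBall (0 : ℂ) 1)
      (fun n => ((hm n).inter measurableSet_closedBall).nullMeasurableSet)
      (fun m n hmn => Set.inter_subset_inter_left _ (sl_anti P Q q r hmn))
      ⟨0, (lt_of_le_of_lt (measure_mono Set.inter_subset_right)
        (measure_closedBall_lt_top (x := (0 : ℂ)) (r := 1))).ne⟩
    rwa [← Set.iInter_inter, hint, Set.empty_inter, measure_empty] at this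
  have h3 : ∀ᶠ n in atTop, ENNReal.ofReal C * sphArea (sl_E P Q q r n) < ENNReal.ofReal (ε ^ 2) := by
    have h4 : Tendsto (fun n => ENNReal.ofReal C * sphArea (sl_E P Q q r n)) atTop (𝓝 0) := by
      have := ENNReal.Tendsto.const_mul h1 (Or.inr (ENNReal.ofReal_ne_top (r := C)))
      rwa [mul_zero] at this
    exact h4.eventually_lt_const (by positivity)
  have h4 : ∀ᶠ n in atTop, volume (sl_E P Q q r n ∩ Metric.closedBall (0 : ℂ) 1) <
      ENNReal.ofReal (Real.pi / 2) := h2.eventually_lt_const (by positivity)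
  obtain ⟨n₀, hn₀⟩ := eventually_atTop.1 (h3.and h4)
  refine ⟨n₀, fun n hn φ hφ w hw w' hw' => ?_⟩
  obtain ⟨h5, h6⟩ := hn₀ n hn
  have hsub : φ '' Metric.ball q r ⊆ sl_E P Q q r n := by
    rintro _ ⟨y, hy, rfl⟩
    refine ⟨n, le_rfl, y, hy, (hφ.2 y hy).symm⟩
  have hvol : ENNReal.ofReal (Real.pi / 2) ≤
      volume (Metric.closedBall (0 : ℂ) 1 \ (φ '' Metric.ball q r)) := by
    have h7 : volume (Metric.closedBall (0 : ℂ) 1) ≤
        volume (Metric.closedBall (0 : ℂ) 1 \ (φ '' Metric.ball q r)) +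
          ENNReal.ofReal (Real.pi / 2) := by
      calc volume (Metric.closedBall (0 : ℂ) 1)
          ≤ volume ((Metric.closedBall (0 : ℂ) 1 \ (φ '' Metric.ball q r)) ∪
            (sl_E P Q q r n ∩ Metric.closedBall (0 : ℂ) 1)) := by
            refine measure_mono fun y hy => ?_
            by_cases hy2 : y ∈ φ '' Metric.ball q r
            · exact Or.inr ⟨hsub hy2, hy⟩
            · exact Or.inl ⟨hy, hy2⟩
        _ ≤ _ := measure_union_le _ _
        _ ≤ _ := by gcongr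
    have h8 : volume (Metric.closedBall (0 : ℂ) 1) =
        ENNReal.ofReal (Real.pi / 2) + ENNReal.ofReal (Real.pi / 2) := by
      rw [Complex.volume_closedBall, ← ENNReal.ofReal_add (by positivity) (by positivity)]
      rw [ENNReal.ofReal_one, one_pow, one_mul, add_halves]
      rw [← NNReal.coe_real_pi, ENNReal.ofReal_coe_nnreal]
    rw [h8] at h7
    exact (ENNReal.add_le_add_iff_right ENNReal.ofReal_ne_top).1 h7
  have h9 := hA φ q r hr hφ.1 (branch_injOn hφ) hvol w hw w' hw'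
  have h10 : ENNReal.ofReal (dist ((φ w : ℂ) : OnePoint ℂ) ((φ w' : ℂ) : OnePoint ℂ) ^ 2) <
      ENNReal.ofReal (ε ^ 2) := by
    refine lt_of_le_of_lt h9 (lt_of_le_of_lt ?_ h5)
    gcongr
  rw [ENNReal.ofReal_lt_ofReal_iff (by positivity)] at h10
  exact lt_of_pow_lt_pow_left₀ 2 hε.le h10

end Pool.Agent.Lib.MP_e4ee3e_an.Q1
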