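import Pool.Agent.Lib.MP_e4ee3e_an.B01
import Pool.Agent.Lib.MP_e4ee3e_an.Q1.SL

/-!
SH. All lifts by the n-th iterate of a fixed good curve in the basin minus `a` have small diameter,
uniformly for large n.

Proof. For t in [0,1] let r t be the radius of shrink_local at γ t; on the set I = {s near t} (an
interval of [0,1] with γ s in ball (γ t) (r t / 4) for s in I) a lift γ' coincides with φ o γ, where φ is
the branch on ball (γ t) (r t) with φ (γ t) = γ' t (branch_exists of B01; uniqueness of lifts s09_unique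
on the preconnected space I). Cover [0,1] by finitely many such intervals: there is δ > 0 (Lebesgue
number lemma, lebesgue_number_lemma_of_metric) such that every interval [s, t] with |s - t| <= δ is in one
of them; so dist (γ' s) (γ' t) < ε' for |s - t| <= δ, and dist (γ' s) (γ' t) <= N ε' in general with
N >= 1/δ. Take ε' = ε / (N + 1).
-/

open MeasureTheory Filter Topology

namespace Pool.Agent.Lib.MP_e4ee3e_an.Q1

attribute [local instance] chMetric

theorem sh_ball_preconnected (t : unitInterval) (δ : ℝ) :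
    IsPreconnected (Metric.ball t δ) := by
  refine Set.OrdConnected.isPreconnected ⟨fun x hx y hy z hz => ?_⟩
  rw [Metric.mem_ball, Subtype.dist_eq, Real.dist_eq, abs_lt] at hx hy ⊢
  have h1 : (x : ℝ) ≤ z := hz.1
  have h2 : (z : ℝ) ≤ y := hz.2
  constructor <;> linarith [hx.1, hx.2, hy.1, hy.2]

/-- The local estimate near one time. -/
theorem sh_local {P Q : Polynomial ℂ} {d : ℕ} (h : RatData P Q d) {a₀ : ℂ}
    (ha : IsAttracting (ratMap P Q) (a₀ : OnePoint ℂ)) (γ : C(unitInterval, OnePoint ℂ))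
    (hγ : ∀ t, γ t ∈ basin (ratMap P Q) a₀ ∧ γ t ∈ Good P Q ∧ γ t ≠ (a₀ : OnePoint ℂ))
    (t : unitInterval) :
    ∃ δ : ℝ, 0 < δ ∧ ∀ ε : ℝ, 0 < ε → ∃ n₀ : ℕ, ∀ n, n₀ ≤ n →
      ∀ γ' : C(unitInterval, OnePoint ℂ), (∀ t, (ratMap P Q)^[n] (γ' t) = γ t) →
        ∀ s ∈ Metric.ball t δ, ∀ s' ∈ Metric.ball t δ, dist (γ' s) (γ' s') < ε := by
  obtain ⟨hb, hg, hna⟩ := hγ t
  obtain ⟨q, hq⟩ := OnePoint.ne_infty_iff_exists.1 hg.1
  rw [← hq] at hb hg hna
  have hqa : q ≠ a₀ := fun h => hna (by rw [h])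
  obtain ⟨r, hr, hok, hsh⟩ := shrink_local h ha hb hqa hg
  have hopen : IsOpen (γ ⁻¹' (((↑) : ℂ → OnePoint ℂ) '' Metric.ball q (r / 4))) :=
    (OnePoint.isOpenEmbedding_coe.isOpenMap _ Metric.isOpen_ball).preimage γ.continuous
  obtain ⟨δ, hδ, hsub⟩ := Metric.isOpen_iff.1 hopen t
    ⟨q, Metric.mem_ball_self (by positivity), hq⟩
  refine ⟨δ, hδ, fun ε hε => ?_⟩
  obtain ⟨n₀, hn₀⟩ := hsh ε hε
  refine ⟨n₀, fun n hn γ' hγ' s hs s' hs' => ?_⟩
  obtain ⟨φ, hφ, hφq⟩ := branch_exists h n q r hr (hok n) (γ' t) (by rw [hγ' t, hq])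
  have hw : ∀ u : Metric.ball t δ, ∃ w ∈ Metric.ball q (r / 4), (w : OnePoint ℂ) = γ u.1 :=
    fun u => hsub u.2
  choose w hwb hwγ using hw
  have hwr : ∀ u, w u ∈ Metric.ball q r := fun u =>
    Metric.ball_subset_ball (by linarith) (hwb u)
  have hwc : Continuous w := by
    rw [OnePoint.isOpenEmbedding_coe.isEmbedding.continuous_iff]
    have : ((↑) : ℂ → OnePoint ℂ) ∘ w = fun u : Metric.ball t δ => γ u.1 := funext hwγ
    rw [this]
    exact γ.continuous.comp continuous_subtype_val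
  have hpre : PreconnectedSpace (Metric.ball t δ) :=
    isPreconnected_iff_preconnectedSpace.1 (sh_ball_preconnected t δ)
  have hφc : Continuous (fun u : Metric.ball t δ => ((φ (w u) : ℂ) : OnePoint ℂ)) :=
    OnePoint.continuous_coe.comp (hφ.1.continuousOn.comp_continuous hwc hwr)
  have htq : w ⟨t, Metric.mem_ball_self hδ⟩ = q :=
    OnePoint.coe_injective ((hwγ _).trans hq.symm)
  have key := s09_unique h n (fun u : Metric.ball t δ => γ' u.1)
    (fun u => ((φ (w u) : ℂ) : OnePoint ℂ)) (γ'.continuous.comp continuous_subtype_val) hφc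
    ⟨t, Metric.mem_ball_self hδ⟩ (by
      change γ' t = ((φ (w ⟨t, Metric.mem_ball_self hδ⟩) : ℂ) : OnePoint ℂ)
      rw [htq, hφq])
    (fun u => by
      change (ratMap P Q)^[n] (γ' u.1) = (ratMap P Q)^[n] ((φ (w u) : ℂ) : OnePoint ℂ)
      rw [hγ', hφ.2 _ (hwr u), hwγ])
    (fun u => by
      change (ratMap P Q)^[n] (γ' u.1) ≠ OnePoint.infty ∧
        AvoidN P Q n ((ratMap P Q)^[n] (γ' u.1))
      rw [hγ']
      have := (good_iff.1 (hγ u.1).2.1)
      exact ⟨this.1, this.2 n⟩)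
  have e1 : γ' s = ((φ (w ⟨s, hs⟩) : ℂ) : OnePoint ℂ) := congrFun key ⟨s, hs⟩
  have e2 : γ' s' = ((φ (w ⟨s', hs'⟩) : ℂ) : OnePoint ℂ) := congrFun key ⟨s', hs'⟩
  rw [e1, e2]
  exact hn₀ n hn φ hφ _ (hwb _) _ (hwb _)

theorem shrink_curve {P Q : Polynomial ℂ} {d : ℕ} (h : RatData P Q d) {a₀ : ℂ}
    (ha : IsAttracting (ratMap P Q) (a₀ : OnePoint ℂ)) (γ : C(unitInterval, OnePoint ℂ))
    (hγ : ∀ t, γ t ∈ basin (ratMap P Q) a₀ ∧ γ t ∈ Good P Q ∧ γ t ≠ (a₀ : OnePoint ℂ))
    {ε : ℝ} (hε : 0 < ε) :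
    ∃ n₀ : ℕ, ∀ n, n₀ ≤ n → ∀ γ' : C(unitInterval, OnePoint ℂ),
      (∀ t, (ratMap P Q)^[n] (γ' t) = γ t) → ∀ s t, dist (γ' s) (γ' t) < ε := by
  choose δ hδ hloc using fun t => sh_local h ha γ hγ t
  obtain ⟨F, hF⟩ := isCompact_univ.elim_finite_subcover (fun t : unitInterval => Metric.ball t (δ t))
    (fun t => Metric.isOpen_ball) (fun t _ => Set.mem_iUnion.2 ⟨t, Metric.mem_ball_self (hδ t)⟩)
  obtain ⟨η, hη, hleb⟩ := lebesgue_number_lemma_of_metric (c := fun t : F => Metric.ball t.1 (δ t.1))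
    isCompact_univ (fun t => Metric.isOpen_ball) (fun t ht => by
      obtain ⟨u, hu⟩ := Set.mem_iUnion.1 (hF ht)
      obtain ⟨huF, hu⟩ := Set.mem_iUnion.1 hu
      exact Set.mem_iUnion.2 ⟨⟨u, huF⟩, hu⟩)
  obtain ⟨N, hN⟩ := exists_nat_gt (1 / (η / 2))
  have hN1 : 1 ≤ (N : ℝ) * (η / 2) := by
    rw [div_lt_iff₀ (by positivity)] at hN
    exact hN.le
  set ε' : ℝ := ε / (N + 1) with hε'
  have hε'0 : 0 < ε' := by positivity
  choose n₀ hn₀ using fun t => hloc t ε' hε'0
  refine ⟨F.sup n₀, fun n hn γ' hγ' => ?_⟩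
  have hstep : ∀ u v : unitInterval, |(u : ℝ) - v| ≤ η / 2 → dist (γ' u) (γ' v) < ε' := by
    intro u v huv
    obtain ⟨t, ht⟩ := hleb u (Set.mem_univ u)
    refine hn₀ t.1 n ((Finset.le_sup t.2).trans hn) γ' hγ' u (ht (Metric.mem_ball_self hη)) v
      (ht ?_)
    rw [Metric.mem_ball', Subtype.dist_eq, Real.dist_eq]
    linarith
  have hind : ∀ k : ℕ, ∀ u v : unitInterval, |(u : ℝ) - v| ≤ k * (η / 2) →
      dist (γ' u) (γ' v) ≤ k * ε' := by
    intro k
    induction k with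
    | zero =>
      intro u v huv
      have h1 : u = v := by
        have h2 : |(u : ℝ) - v| ≤ 0 := by simpa using huv
        exact Subtype.ext (sub_eq_zero.1 (abs_nonpos_iff.1 h2))
      rw [h1, dist_self]
      simp
    | succ k ih =>
      intro u v huv
      have hk : (0 : ℝ) < k + 1 := by positivity
      set c : ℝ := (k : ℝ) / (k + 1) with hc
      have hc0 : 0 ≤ c := by positivity
      have hc1 : c ≤ 1 := by
        rw [hc, div_le_one hk]
        linarith
      have hcc : (1 - c) * (k + 1) = 1 := by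
        rw [hc]; field_simp; ring
      have hm : (1 - c) * (u : ℝ) + c * v ∈ Set.Icc (0 : ℝ) 1 := by
        constructor
        · have := u.2.1; have := v.2.1
          have h1 : 0 ≤ 1 - c := by linarith
          positivity
        · have hu1 := u.2.2; have hv1 := v.2.2
          nlinarith
      have h1 : |(u : ℝ) - ((1 - c) * (u : ℝ) + c * v)| ≤ k * (η / 2) := by
        rw [show (u : ℝ) - ((1 - c) * (u : ℝ) + c * v) = c * (u - v) by ring, abs_mul,
          abs_of_nonneg hc0]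
        calc c * |(u : ℝ) - v| ≤ c * ((k + 1 : ℕ) * (η / 2)) := by gcongr
          _ = k * (η / 2) := by rw [hc]; push_cast; field_simp
      have h2 : |((1 - c) * (u : ℝ) + c * v) - v| ≤ η / 2 := by
        rw [show ((1 - c) * (u : ℝ) + c * v) - v = (1 - c) * (u - v) by ring, abs_mul,
          abs_of_nonneg (by linarith : (0 : ℝ) ≤ 1 - c)]
        calc (1 - c) * |(u : ℝ) - v| ≤ (1 - c) * ((k + 1 : ℕ) * (η / 2)) := by
              have : 0 ≤ 1 - c := by linarith
              gcongr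
          _ = ((1 - c) * (k + 1)) * (η / 2) := by push_cast; ring
          _ = η / 2 := by rw [hcc, one_mul]
      have h3 := ih u ⟨_, hm⟩ h1
      have h4 := hstep ⟨_, hm⟩ v h2
      have h5 := dist_triangle (γ' u) (γ' ⟨_, hm⟩) (γ' v)
      push_cast
      nlinarith
  intro s t
  have h1 : |(s : ℝ) - t| ≤ N * (η / 2) := by
    refine le_trans ?_ hN1
    rw [abs_le]
    constructor <;> linarith [s.2.1, s.2.2, t.2.1, t.2.2]
  have h2 := hind N s t h1
  refine lt_of_le_of_lt h2 ?_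
  rw [hε', ← mul_div_assoc, div_lt_iff₀ (by positivity)]
  nlinarith

end Pool.Agent.Lib.MP_e4ee3e_an.Q1
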