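import Pool.Agent.Lib.MP_e4ee3e_an.Q1.SA
import Pool.Agent.Lib.MP_e4ee3e_an.Q1.SH
import Pool.Agent.Lib.MP_e4ee3e_an.Q1.MV

/-!
OS. One step of the construction of the wild curve. A = immediate basin.

Proof. x₀ in B ∩ frontier A, ball x₀ (4 κ) ⊆ B. Let ε' <= ε with DD a₀ ε' ⊆ basin. τ₀ > 0, τ₀ < ε' with
ξ [0, τ₀] in DD a₀ ε' (continuity at 0). ξ τ₀ ≠ a₀. exists_good_circle gives r < min (ε'/2) ‖ξ τ₀ - a₀‖ with
good circle; intermediate value theorem: τ in (0, τ₀) with ‖ξ τ - a₀‖ = r; e = ξ τ. Ω t =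
a₀ + (e - a₀) exp(2πit): curve in the circle, Ω 0 = e, good, in basin minus a₀. shrink_curve for Ω and for
ξ restricted to [τ, 1] (reparametrised; in the basin, good, ≠ a₀), bound κ. exists_near_frontier with r,
bound κ. eventually_mem_component for y. Take n >= all these and n >= N (then f^n y = a₀ since
f a₀ = a₀). b with f^n b = z on the circle, so = Ω t₀ for some t₀; lift Ω' of Ω with Ω' t₀ = b
(t06_iter_lift), v = Ω' 0: f^n v = e, dist b v < κ, v in O n (curve_mem_component; b in O n). η = lift of ξ with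
η τ = v (t06_iter_lift): dist (η 1) v < κ by shrink_curve for the restriction; so η 1 in B. O n is open,
preconnected, contains y and v; exists_curve_from with C = f^-n (Goodᶜ ∪ {a₀}) (countable) gives π from y
to v in O n with f^n (π t) good and ≠ a₀ for t > 0 (and f^n y = a₀ good). exists_modify_cut with ε' gives
ξ' (Modifies a₀ ε' implies Modifies a₀ ε). ξ' stays in A: DD a₀ ε' ⊆ A by disc_subset_immediateBasin.
-/

open MeasureTheory Filter Topology

namespace Pool.Agent.Lib.MP_e4ee3e_an.Q1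

attribute [local instance] chMetric

/-- The circle about `a₀` through `e`, as a curve. -/
noncomputable def osCircle (a₀ e : ℂ) : C(unitInterval, OnePoint ℂ) where
  toFun t := ((a₀ + (e - a₀) * Complex.exp (((2 * Real.pi * (t : ℝ) : ℝ) : ℂ) * Complex.I) : ℂ) :
    OnePoint ℂ)
  continuous_toFun := by
    refine OnePoint.continuous_coe.comp ?_
    fun_prop

theorem osCircle_zero (a₀ e : ℂ) : osCircle a₀ e 0 = (e : OnePoint ℂ) := by
  show ((a₀ + (e - a₀) * Complex.exp (((2 * Real.pi * ((0 : unitInterval) : ℝ) : ℝ) : ℂ) *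
    Complex.I) : ℂ) : OnePoint ℂ) = _
  simp

theorem osCircle_norm (a₀ e : ℂ) (t : unitInterval) :
    ∃ z : ℂ, ‖z - a₀‖ = ‖e - a₀‖ ∧ osCircle a₀ e t = (z : OnePoint ℂ) := by
  refine ⟨a₀ + (e - a₀) * Complex.exp (((2 * Real.pi * (t : ℝ) : ℝ) : ℂ) * Complex.I), ?_, rfl⟩
  rw [add_sub_cancel_left, norm_mul, Complex.norm_exp_ofReal_mul_I, mul_one]

theorem osCircle_surj {a₀ e z : ℂ} (he : e ≠ a₀) (hz : ‖z - a₀‖ = ‖e - a₀‖) :
    ∃ t, osCircle a₀ e t = (z : OnePoint ℂ) := by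
  have he' : e - a₀ ≠ 0 := sub_ne_zero.2 he
  set u : ℂ := (z - a₀) / (e - a₀) with hu
  have hu1 : ‖u‖ = 1 := by
    rw [hu, norm_div, hz, div_self (norm_ne_zero_iff.2 he')]
  have hexp : Complex.exp ((u.arg : ℂ) * Complex.I) = u := by
    have := Complex.norm_mul_exp_arg_mul_I u
    rwa [hu1, Complex.ofReal_one, one_mul] at this
  have hpi := Real.pi_pos
  have h1 := Complex.neg_pi_lt_arg u
  have h2 := Complex.arg_le_pi u
  have hkey : ∀ s : ℝ, (hs : s ∈ Set.Icc (0 : ℝ) 1) →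
      Complex.exp (((2 * Real.pi * s : ℝ) : ℂ) * Complex.I) = u →
      ∃ t, osCircle a₀ e t = (z : OnePoint ℂ) := by
    intro s hs h3
    refine ⟨⟨s, hs⟩, ?_⟩
    show ((a₀ + (e - a₀) * Complex.exp (((2 * Real.pi * s : ℝ) : ℂ) * Complex.I) : ℂ) :
      OnePoint ℂ) = _
    rw [h3, hu, mul_div_cancel₀ _ he', add_sub_cancel]
  rcases le_or_gt 0 u.arg with h | h
  · refine hkey (u.arg / (2 * Real.pi)) ⟨by positivity, ?_⟩ ?_
    · rw [div_le_one (by positivity)]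
      linarith
    · rw [mul_div_cancel₀ _ (by positivity)]
      exact hexp
  · refine hkey (u.arg / (2 * Real.pi) + 1) ⟨?_, ?_⟩ ?_
    · have : -(1 : ℝ) ≤ u.arg / (2 * Real.pi) := by
        rw [le_div_iff₀ (by positivity)]
        linarith
      linarith
    · have : u.arg / (2 * Real.pi) ≤ 0 := div_nonpos_of_nonpos_of_nonneg h.le (by positivity)
      linarith
    · have h3 : ((2 * Real.pi * (u.arg / (2 * Real.pi) + 1) : ℝ) : ℂ) * Complex.I =
          (u.arg : ℂ) * Complex.I + 2 * Real.pi * Complex.I := by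
        have h4 : 2 * Real.pi * (u.arg / (2 * Real.pi) + 1) = u.arg + 2 * Real.pi := by
          field_simp
        rw [h4]
        push_cast
        ring
      rw [h3, Complex.exp_add, Complex.exp_two_pi_mul_I, mul_one]
      exact hexp

/-- The path crosses the circle of radius `r`. -/
theorem os_cross {ξ : C(unitInterval, OnePoint ℂ)} {a₀ : ℂ} (h0 : ξ 0 = (a₀ : OnePoint ℂ))
    {δ r : ℝ} (τ₀ : unitInterval)
    (hb : ∀ t, t ≤ τ₀ → ∃ z ∈ Metric.ball a₀ δ, ξ t = ((z : ℂ) : OnePoint ℂ)) {w : ℂ}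
    (hw : ξ τ₀ = (w : OnePoint ℂ)) (hr : 0 < r) (hrw : r < ‖w - a₀‖) :
    ∃ (τ : unitInterval) (e : ℂ), 0 < τ ∧ τ ≤ τ₀ ∧ ξ τ = (e : OnePoint ℂ) ∧ ‖e - a₀‖ = r := by
  let u : unitInterval → unitInterval := fun x => min x τ₀
  have hu : Continuous u := continuous_id.min continuous_const
  have hule : ∀ x, u x ≤ τ₀ := fun x => min_le_right _ _
  choose g hgb hg using fun x => hb (u x) (hule x)
  have hgc : Continuous g := by
    rw [(OnePoint.isOpenEmbedding_coe (X := ℂ)).isInducing.continuous_iff]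
    have : ((fun z : ℂ => (z : OnePoint ℂ)) ∘ g) = ξ ∘ u := by
      funext x
      exact (hg x).symm
    show Continuous ((fun z : ℂ => (z : OnePoint ℂ)) ∘ g)
    rw [this]
    exact ξ.continuous.comp hu
  have hnc : Continuous fun x => ‖g x - a₀‖ := (hgc.sub continuous_const).norm
  have hu0 : u 0 = 0 := min_eq_left τ₀.2.1
  have hu1 : u 1 = τ₀ := min_eq_right τ₀.2.2
  have h1 : ‖g 0 - a₀‖ = 0 := by
    have : g 0 = a₀ := by
      have h2 := hg 0
      rw [hu0, h0] at h2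
      exact (OnePoint.coe_injective h2).symm
    rw [this, sub_self, norm_zero]
  have h2 : g 1 = w := by
    have h3 := hg 1
    rw [hu1, hw] at h3
    exact (OnePoint.coe_injective h3).symm
  obtain ⟨x, hx⟩ : r ∈ Set.range fun x => ‖g x - a₀‖ := by
    apply mem_range_of_exists_le_of_exists_ge hnc
    · exact ⟨0, by simp only [h1]; exact hr.le⟩
    · exact ⟨1, by simp only [h2]; exact hrw.le⟩
  refine ⟨u x, g x, ?_, hule x, hg x, hx⟩
  rcases (show (0 : unitInterval) ≤ u x from (u x).2.1).eq_or_lt with h | h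
  · exfalso
    have h3 := hg x
    rw [← h, h0] at h3
    have h4 := OnePoint.coe_injective h3
    simp only [← h4, sub_self, norm_zero] at hx
    linarith
  · exact h

/-- Affine reparametrisation of the unit interval onto `[τ, 1]`. -/
noncomputable def osTail (τ : unitInterval) : C(unitInterval, unitInterval) where
  toFun t := ⟨τ + (1 - τ) * t, by
    have h0 := t.2.1
    have h1 := t.2.2
    have h2 := τ.2.1
    have h3 := τ.2.2
    constructor
    · nlinarith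
    · nlinarith⟩
  continuous_toFun := by
    refine Continuous.subtype_mk ?_ _
    fun_prop

theorem osTail_zero (τ : unitInterval) : osTail τ 0 = τ := by
  apply Subtype.ext
  show (τ : ℝ) + (1 - τ) * ((0 : unitInterval) : ℝ) = τ
  simp

theorem osTail_one (τ : unitInterval) : osTail τ 1 = 1 := by
  apply Subtype.ext
  show (τ : ℝ) + (1 - τ) * ((1 : unitInterval) : ℝ) = ((1 : unitInterval) : ℝ)
  simp

theorem osTail_pos {τ : unitInterval} (hτ : 0 < τ) (t : unitInterval) : 0 < osTail τ t := by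
  show ((0 : unitInterval) : ℝ) < (τ : ℝ) + (1 - τ) * (t : ℝ)
  have h0 := t.2.1
  have h3 := τ.2.2
  have h4 : (0 : ℝ) < τ := hτ
  simp only [Set.Icc.coe_zero]
  nlinarith

theorem ib_step {P Q : Polynomial ℂ} {d : ℕ} {a₀ : ℂ} (c : Ctx P Q d a₀)
    {ξ : C(unitInterval, OnePoint ℂ)} (hξ : GoodPath P Q ξ) (h0 : ξ 0 = (a₀ : OnePoint ℂ))
    (hA : ∀ t, ξ t ∈ immediateBasin (ratMap P Q) a₀)
    (hne : ∀ t : unitInterval, 0 < t → ξ t ≠ (a₀ : OnePoint ℂ))
    {B : Set (OnePoint ℂ)} (hB : IsOpen B)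
    (hBF : (B ∩ frontier (immediateBasin (ratMap P Q) a₀)).Nonempty) (N : ℕ) {y : OnePoint ℂ}
    (hyA : y ∈ immediateBasin (ratMap P Q) a₀) (hy : (ratMap P Q)^[N] y = (a₀ : OnePoint ℂ))
    (ε : ℝ) (hε : 0 < ε) :
    ∃ (ξ' : C(unitInterval, OnePoint ℂ)) (n : ℕ), N ≤ n ∧ GoodPath P Q ξ' ∧
      ξ' 0 = (a₀ : OnePoint ℂ) ∧ ξ' 1 = ξ 1 ∧ (∀ t, ξ' t ∈ immediateBasin (ratMap P Q) a₀) ∧
      (∀ t : unitInterval, 0 < t → ξ' t ≠ (a₀ : OnePoint ℂ)) ∧ Modifies a₀ ε ξ ξ' ∧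
      liftEnd P Q n ξ' y ∈ B := by
  have h := c.data
  have hatt := c.attr
  have hfa : ratMap P Q (a₀ : OnePoint ℂ) = (a₀ : OnePoint ℂ) := hatt.1
  obtain ⟨x₀, hx₀B, hx₀F⟩ := hBF
  obtain ⟨κ₀, hκ₀, hκB⟩ := Metric.isOpen_iff.1 hB x₀ hx₀B
  set κ : ℝ := κ₀ / 4 with hκdef
  have hκ : 0 < κ := by positivity
  obtain ⟨ρ, hρ, hρb⟩ := exists_disc_basin h hatt
  set ε' : ℝ := min ε ρ with hε'def
  have hε' : 0 < ε' := lt_min hε hρ
  have hε'b : DD a₀ ε' ⊆ basin (ratMap P Q) a₀ :=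
    (Set.image_mono (Metric.ball_subset_ball (min_le_right _ _))).trans hρb
  have hε'A : DD a₀ ε' ⊆ immediateBasin (ratMap P Q) a₀ := disc_subset_immediateBasin hε' hε'b
  obtain ⟨τ₀, hτ₀0, hτ₀ε, -, hτ₀b⟩ := k04_tau ξ a₀ h0 ε' hε'
  obtain ⟨w, -, hw⟩ := hτ₀b τ₀ le_rfl
  have hwa : w ≠ a₀ := by
    rintro rfl
    exact hne τ₀ hτ₀0 hw
  have hwn : 0 < ‖w - a₀‖ := norm_pos_iff.2 (sub_ne_zero.2 hwa)
  obtain ⟨r, hr, hrlt, hcirc⟩ := exists_good_circle h a₀ (min (ε' / 2) ‖w - a₀‖)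
    (lt_min (by positivity) hwn)
  have hr1 : r < ε' / 2 := hrlt.trans_le (min_le_left _ _)
  have hr2 : r < ‖w - a₀‖ := hrlt.trans_le (min_le_right _ _)
  obtain ⟨τ, e, hτ0, hττ₀, hτe, hen⟩ := os_cross h0 τ₀ hτ₀b hw hr hr2
  have hea : e ≠ a₀ := by
    rintro rfl
    rw [sub_self, norm_zero] at hen
    exact hr.ne hen
  have hDD : DD a₀ (2 * r) ⊆ DD a₀ ε' := Set.image_mono (Metric.ball_subset_ball (by linarith))
  have hDDb : DD a₀ (2 * r) ⊆ basin (ratMap P Q) a₀ := hDD.trans hε'b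
  -- the circle
  set Ω := osCircle a₀ e with hΩ
  have hΩ0 : Ω 0 = (e : OnePoint ℂ) := osCircle_zero a₀ e
  have hΩm : ∀ t, Ω t ∈ DD a₀ (2 * r) := by
    intro t
    obtain ⟨z, hz, hzt⟩ := osCircle_norm a₀ e t
    rw [hΩ, hzt]
    refine ⟨z, ?_, rfl⟩
    rw [Metric.mem_ball, dist_eq_norm, hz, hen]
    linarith
  have hΩg : ∀ t, Ω t ∈ basin (ratMap P Q) a₀ ∧ Ω t ∈ Good P Q ∧ Ω t ≠ (a₀ : OnePoint ℂ) := by
    intro t
    refine ⟨hDDb (hΩm t), ?_⟩
    obtain ⟨z, hz, hzt⟩ := osCircle_norm a₀ e t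
    rw [hΩ, hzt]
    refine ⟨hcirc z (hz.trans hen), fun h1 => ?_⟩
    rw [OnePoint.coe_injective h1, sub_self, norm_zero, hen] at hz
    exact hr.ne hz
  -- the tail of ξ
  have hξG := goodPath_iff.1 hξ
  set ξt : C(unitInterval, OnePoint ℂ) := ξ.comp (osTail τ) with hξt
  have hξtg : ∀ t, ξt t ∈ basin (ratMap P Q) a₀ ∧ ξt t ∈ Good P Q ∧
      ξt t ≠ (a₀ : OnePoint ℂ) := by
    intro t
    exact ⟨immediateBasin_subset (hA _), hξG _, hne _ (osTail_pos hτ0 t)⟩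
  obtain ⟨n₁, hn₁⟩ := shrink_curve h hatt Ω hΩg hκ
  obtain ⟨n₂, hn₂⟩ := shrink_curve h hatt ξt hξtg hκ
  obtain ⟨n₃, hn₃⟩ := exists_near_frontier c hr hDDb hx₀F hκ
  have hnhd : DD a₀ (2 * r) ∈ 𝓝 (a₀ : OnePoint ℂ) :=
    (OnePoint.isOpenEmbedding_coe.isOpenMap _ Metric.isOpen_ball).mem_nhds
      ⟨a₀, Metric.mem_ball_self (by positivity), rfl⟩
  obtain ⟨n₄, hn₄⟩ := eventually_atTop.1 (eventually_mem_component h hatt hnhd hyA)
  set n : ℕ := max N (max (max n₁ n₂) (max n₃ n₄)) with hn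
  have hnN : N ≤ n := le_max_left _ _
  have hnn₁ : n₁ ≤ n := (le_max_left _ _).trans ((le_max_left _ _).trans (le_max_right _ _))
  have hnn₂ : n₂ ≤ n := (le_max_right _ _).trans ((le_max_left _ _).trans (le_max_right _ _))
  have hnn₃ : n₃ ≤ n := (le_max_left _ _).trans ((le_max_right _ _).trans (le_max_right _ _))
  have hnn₄ : n₄ ≤ n := (le_max_right _ _).trans ((le_max_right _ _).trans (le_max_right _ _))
  obtain ⟨b, hbx, hbO, z, hbz, hzr⟩ := hn₃ n hnn₃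
  obtain ⟨t₀, ht₀⟩ := osCircle_surj hea (hzr.trans hen.symm)
  have hΩgood : GoodPath P Q Ω := goodPath_iff.2 fun t => (hΩg t).2.1
  obtain ⟨Ω', hΩ't₀, hΩ'⟩ := t06_iter_lift h n Ω (k01_good hΩgood n) t₀ b
    (hbz.trans ht₀.symm)
  set v := Ω' 0 with hv
  have hfv : (ratMap P Q)^[n] v = (e : OnePoint ℂ) := (hΩ' 0).trans hΩ0
  have hvO : v ∈ connectedComponentIn ((ratMap P Q)^[n] ⁻¹' (DD a₀ (2 * r))) a₀ := by
    refine curve_mem_component n Ω' t₀ (by rw [hΩ't₀]; exact hbO) (fun t => ?_) 0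
    rw [hΩ']
    exact hΩm t
  have hbv : dist v b < κ := by
    rw [← hΩ't₀]
    exact hn₁ n hnn₁ Ω' hΩ' 0 t₀
  -- the lift of ξ
  obtain ⟨η, hητ, hη⟩ := t06_iter_lift h n ξ (k01_good hξ n) τ v (hfv.trans hτe.symm)
  have hηv : dist (η 1) v < κ := by
    have h1 := hn₂ n hnn₂ (η.comp (osTail τ)) (fun t => hη _) 1 0
    have h2 : (η.comp (osTail τ)) 1 = η 1 := by
      show η (osTail τ 1) = η 1
      rw [osTail_one]
    have h3 : (η.comp (osTail τ)) 0 = v := by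
      show η (osTail τ 0) = v
      rw [osTail_zero, hητ]
    rwa [h2, h3] at h1
  have hηB : η 1 ∈ B := by
    apply hκB
    rw [Metric.mem_ball]
    have h1 : dist (η 1) x₀ ≤ dist (η 1) v + (dist v b + dist b x₀) :=
      (dist_triangle _ v _).trans (add_le_add le_rfl (dist_triangle _ _ _))
    have h2 : 4 * κ = κ₀ := by rw [hκdef]; ring
    linarith
  -- y
  have hyO : y ∈ connectedComponentIn ((ratMap P Q)^[n] ⁻¹' (DD a₀ (2 * r))) a₀ := hn₄ n hnn₄
  have hfix : ∀ m, (ratMap P Q)^[m] (a₀ : OnePoint ℂ) = (a₀ : OnePoint ℂ) := fun m =>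
    Function.iterate_fixed hfa m
  have hfy : (ratMap P Q)^[n] y = (a₀ : OnePoint ℂ) := by
    obtain ⟨m, hm⟩ := Nat.exists_eq_add_of_le hnN
    rw [hm, add_comm, Function.iterate_add_apply, hy, hfix]
  -- the path π
  have hCc : ((ratMap P Q)^[n] ⁻¹' ((Good P Q)ᶜ ∪ {(a₀ : OnePoint ℂ)})).Countable :=
    countable_preimage h n ((countable_compl_good h).union (Set.countable_singleton _))
  have hegood : (e : OnePoint ℂ) ∈ Good P Q := hcirc e hen
  obtain ⟨π, hπ0, hπ1, hπO, hπC⟩ := exists_curve_from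
    (isOpen_component h n (OnePoint.isOpenEmbedding_coe.isOpenMap _ Metric.isOpen_ball) _)
    isPreconnected_connectedComponentIn hCc hyO hvO (by
      rintro (h1 | h1)
      · rw [hfv] at h1
        exact h1 hegood
      · have h2 : (ratMap P Q)^[n] v = (a₀ : OnePoint ℂ) := h1
        rw [hfv] at h2
        exact hea (OnePoint.coe_injective h2))
  have hπD : ∀ t, (ratMap P Q)^[n] (π t) ∈ DD a₀ (2 * r) := by
    intro t
    have h1 := connectedComponentIn_subset _ _ (hπO t)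
    exact h1
  have hπgood : ∀ t, (ratMap P Q)^[n] (π t) ∈ Good P Q := by
    intro t
    rcases (show (0 : unitInterval) ≤ t from t.2.1).eq_or_lt with h1 | h1
    · rw [← h1, hπ0, hfy]
      exact c.good
    · by_contra h2
      exact hπC t h1 (Or.inl h2)
  have hπne : ∀ t : unitInterval, 0 < t → (ratMap P Q)^[n] (π t) ≠ (a₀ : OnePoint ℂ) :=
    fun t h1 h2 => hπC t h1 (Or.inr h2)
  obtain ⟨ξ', hξ'g, hξ'0, hξ'1, hmod, hend, hcases⟩ := exists_modify_cut h hξ a₀ n ε' τ hτ0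
    (lt_of_le_of_lt (show (τ : ℝ) ≤ τ₀ from hττ₀) hτ₀ε)
    (fun t ht => hτ₀b t (ht.trans hττ₀)) η hη π (by rw [hπ0, hfy]) (by rw [hπ1, hητ])
    (fun t => by
      obtain ⟨z, hz, hzt⟩ := hDD (hπD t)
      have hzt' : (z : OnePoint ℂ) = (ratMap P Q)^[n] (π t) := hzt
      exact ⟨z, hz, hzt'.symm, by rw [hzt']; exact hπgood t⟩)
  refine ⟨ξ', n, hnN, hξ'g, hξ'0, hξ'1, fun t => ?_, fun t ht => ?_, ?_, ?_⟩
  · rcases hcases t with ⟨-, h1⟩ | ⟨t', -, h1⟩
    · rw [h1]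
      exact hA t
    · rw [h1]
      exact hε'A (hDD (hπD t'))
  · rcases hcases t with ⟨-, h1⟩ | ⟨t', ht', h1⟩
    · rw [h1]
      exact hne t ht
    · rw [h1]
      exact hπne t' (ht' ht)
  · obtain ⟨σ, hσ0, hσε, hσ1, hσ2⟩ := hmod
    refine ⟨σ, hσ0, hσε.trans_le (min_le_left _ _), hσ1, fun t ht => ?_⟩
    obtain ⟨⟨z, hz, hz'⟩, z₂, hz₂, hz₂'⟩ := hσ2 t ht
    exact ⟨⟨z, Metric.ball_subset_ball (min_le_left _ _) hz, hz'⟩,
      z₂, Metric.ball_subset_ball (min_le_left _ _) hz₂, hz₂'⟩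
  · rw [← hπ0, hend]
    exact hηB

end Pool.Agent.Lib.MP_e4ee3e_an.Q1
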