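import Pool.Agent.Lib.MP_e4ee3e_an.Q1.BB

/-!
SA. A point b of the component O n at a₀ of the n-th preimage of the disc of radius 2r, close to the
frontier point x₀ and mapped to the circle of radius r.

Proof. U = connected open neighbourhood of x₀ in ball x₀ ε (exists_nhds_preconnected); b₀ in U ∩ A
(A = immediate basin, x₀ in closure A). For n large b₀ is in O n (eventually_mem_component with
U = DD a₀ (2r)) and f^n b₀ is in DD a₀ r. If no point of U ∩ O n were mapped to the circle of radius r,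
the set H = {z in U ∩ O n : f^n z in DD a₀ r} would be open, and closed in U (a limit z in U of points of
H has f^n z in the closed disc of radius r, so z is in the closure of O n and f^n z in DD a₀ (2r), hence
z in O n by mem_component_of_closure, and f^n z is not on the circle), nonempty; so U ⊆ O n ⊆ A
(component_subset), but x₀ is not in A (A is open, x₀ in its frontier).
-/

open MeasureTheory Filter Topology

namespace Pool.Agent.Lib.MP_e4ee3e_an.Q1

attribute [local instance] chMetric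

theorem sa_isOpen_DD (a₀ : ℂ) (r : ℝ) : IsOpen (DD a₀ r) :=
  OnePoint.isOpenEmbedding_coe.isOpenMap _ Metric.isOpen_ball

theorem sa_closure_DD (a₀ : ℂ) (r : ℝ) :
    closure (DD a₀ r) ⊆ ((↑) : ℂ → OnePoint ℂ) '' Metric.closedBall a₀ r := by
  have h1 : IsClosed (((↑) : ℂ → OnePoint ℂ) '' Metric.closedBall a₀ r) :=
    ((isCompact_closedBall a₀ r).image OnePoint.continuous_coe).isClosed
  exact closure_minimal (Set.image_mono Metric.ball_subset_closedBall) h1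

theorem exists_near_frontier {P Q : Polynomial ℂ} {d : ℕ} {a₀ : ℂ} (c : Ctx P Q d a₀) {r : ℝ}
    (hr : 0 < r) (hb : DD a₀ (2 * r) ⊆ basin (ratMap P Q) a₀)
    {x₀ : OnePoint ℂ} (hx₀ : x₀ ∈ frontier (immediateBasin (ratMap P Q) a₀))
    {ε : ℝ} (hε : 0 < ε) :
    ∃ n₀ : ℕ, ∀ n, n₀ ≤ n → ∃ b, dist b x₀ < ε ∧
      b ∈ connectedComponentIn ((ratMap P Q)^[n] ⁻¹' (DD a₀ (2 * r))) a₀ ∧
      ∃ z : ℂ, (ratMap P Q)^[n] b = (z : OnePoint ℂ) ∧ ‖z - a₀‖ = r := by
  have hAo := isOpen_immediateBasin c.data c.attr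
  have hxA : x₀ ∉ immediateBasin (ratMap P Q) (a₀ : OnePoint ℂ) := by
    intro h
    rw [hAo.frontier_eq] at hx₀
    exact hx₀.2 h
  have hxc : x₀ ∈ closure (immediateBasin (ratMap P Q) (a₀ : OnePoint ℂ)) := hx₀.1
  obtain ⟨U, hUo, hxU, hUε, hUc⟩ := exists_nhds_preconnected x₀ (Metric.ball_mem_nhds x₀ hε)
  obtain ⟨b₀, hbU, hbA⟩ := mem_closure_iff.1 hxc U hUo hxU
  have hD2 : DD a₀ (2 * r) ∈ 𝓝 (a₀ : OnePoint ℂ) :=
    (sa_isOpen_DD a₀ (2 * r)).mem_nhds ⟨a₀, Metric.mem_ball_self (by linarith), rfl⟩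
  have hD1 : DD a₀ r ∈ 𝓝 (a₀ : OnePoint ℂ) :=
    (sa_isOpen_DD a₀ r).mem_nhds ⟨a₀, Metric.mem_ball_self hr, rfl⟩
  have h1 := eventually_mem_component c.data c.attr hD2 hbA
  have h2 : ∀ᶠ n in atTop, (ratMap P Q)^[n] b₀ ∈ DD a₀ r :=
    (immediateBasin_subset hbA : Tendsto (fun n => (ratMap P Q)^[n] b₀) atTop (𝓝 (a₀ : OnePoint ℂ))) hD1
  obtain ⟨n₀, hn₀⟩ := eventually_atTop.1 (h1.and h2)
  refine ⟨n₀, ?_⟩
  intro n hn
  obtain ⟨hbO, hbr⟩ := hn₀ n hn
  by_contra hcon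
  push Not at hcon
  have hcont := ratMap_iter_continuous c.data n
  set O := connectedComponentIn ((ratMap P Q)^[n] ⁻¹' (DD a₀ (2 * r))) (a₀ : OnePoint ℂ) with hO
  have hOo : IsOpen O := isOpen_component c.data n (sa_isOpen_DD a₀ (2 * r)) _
  have hu : IsOpen (O ∩ (ratMap P Q)^[n] ⁻¹' (DD a₀ r)) :=
    hOo.inter ((sa_isOpen_DD a₀ r).preimage hcont)
  have hsub : U ⊆ O ∩ (ratMap P Q)^[n] ⁻¹' (DD a₀ r) := by
    refine hUc.subset_of_closure_inter_subset hu ⟨b₀, hbU, hbO, hbr⟩ ?_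
    rintro p ⟨hpc, hpU⟩
    have hp1 : (ratMap P Q)^[n] p ∈ closure (DD a₀ r) := by
      have h3 : p ∈ closure ((ratMap P Q)^[n] ⁻¹' (DD a₀ r)) := closure_mono Set.inter_subset_right hpc
      exact hcont.closure_preimage_subset _ h3
    obtain ⟨z, hz, hzp⟩ := sa_closure_DD a₀ r hp1
    have hz' : ‖z - a₀‖ ≤ r := by rwa [Metric.mem_closedBall, dist_eq_norm] at hz
    have hp2 : (ratMap P Q)^[n] p ∈ DD a₀ (2 * r) :=
      ⟨z, by rw [Metric.mem_ball, dist_eq_norm]; linarith, hzp⟩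
    have hpO : p ∈ O := mem_component_of_closure c.data n (sa_isOpen_DD a₀ (2 * r))
      (closure_mono Set.inter_subset_left hpc) hp2
    have hne : ‖z - a₀‖ ≠ r := hcon p (hUε hpU) hpO z hzp.symm
    exact ⟨hpO, ⟨z, by rw [Metric.mem_ball, dist_eq_norm]; exact lt_of_le_of_ne hz' hne, hzp⟩⟩
  have h4 := component_subset (P := P) (Q := Q) (a := (a₀ : OnePoint ℂ)) n hb
    (self_mem_immediateBasin c.attr)
  exact hxA (h4 (hsub hxU).1)

end Pool.Agent.Lib.MP_e4ee3e_an.Q1
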