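import Pool.Agent.Lib.MP_e4ee3e_an.S05
import Pool.Agent.Lib.MP_e4ee3e_an.S09
import Pool.Agent.Lib.MP_e4ee3e_an.T06
import Pool.Agent.Lib.MP_e4ee3e_an.Q1.SA
import Pool.Agent.Lib.MP_e4ee3e_an.Q1.SH

/-!
SP. The immediate basin A contains a second preimage of a₀.

Proof. a₀ has d >= 2 preimages (regular_fiber, S05; a₀ is in good1). Suppose a₀ is the only one in A. Then
a₀ is the only point x of A with f^n x = a₀, for every n (iterate_mem_immediateBasin). Let r be small with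
DD a₀ (2r) in the basin and good circle of radius r. O n = component at a₀ of f^-n (DD a₀ (2r)), contained
in A.
Step 1: for n and a good point e of DD a₀ (2r) there is at most one v in O n with f^n v = e. Take a curve σ
from e to a₀ in DD a₀ (2r) outside the countable set of bad points (exists_curve_avoiding; a₀ is good). The
lift of σ from v (t06_iter_lift) stays in O n (curve_mem_component), so it ends at a point of A over a₀, which is
a₀. Two such lifts (from v and v') have the same end, so they are equal (iter_path_unique), v = v'.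
Step 2: frontier A is nonempty (else A is clopen and nonempty, so everything, but A misses a preimage of
a₀). Let x₀ be a frontier point, U a neighbourhood of x₀ not containing a₀ and V ⊆ U a neighbourhood of x₀
with connected complement (exists_nhds_compl_preconnected), ball x₀ (2κ) ⊆ V. Ω t = a₀ + r exp(2πit). For n
large: b within κ of x₀ in O n with f^n b on the circle (exists_near_frontier), Ω' the lift of Ω through b,
of diameter < κ (shrink_curve), contained in O n. By Step 1 every point of O n over the circle is on Ω', so in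
V. O' = component at a₀ of f^-n (DD a₀ r): open, contained in O n; a point p of its frontier has f^n p in the
closed disc and not in DD a₀ r (mem_component_of_closure, O' open), so on the circle; p is in the closure of
O n, f^n p in DD a₀ (2r), so p in O n, hence p in V. So the connected set Vᶜ meets O' (at a₀) but not its
frontier: Vᶜ ⊆ O' ⊆ A. So A contains the complement of every small neighbourhood of x₀: A = {x₀}ᶜ (x₀ is not in
A, as A is open). Let a' ≠ a₀ be another preimage of a₀. If a' ≠ x₀ then a' is in A, contradiction. If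
a' = x₀ then f x₀ = a₀, so x₀ is in the basin, the basin is everything, connected, so A is everything,
contradiction. -/

open MeasureTheory Filter Topology

namespace Pool.Agent.Lib.MP_e4ee3e_an.Q1

attribute [local instance] chMetric

theorem sp_isOpen_DD (a₀ : ℂ) (r : ℝ) : IsOpen (DD a₀ r) :=
  OnePoint.isOpenEmbedding_coe.isOpenMap _ Metric.isOpen_ball

theorem sp_preconn_DD (a₀ : ℂ) (r : ℝ) : IsPreconnected (DD a₀ r) :=
  ((convex_ball a₀ r).isPreconnected).image _ OnePoint.continuous_coe.continuousOn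

theorem sp_mem_DD {a₀ z : ℂ} {r : ℝ} : (z : OnePoint ℂ) ∈ DD a₀ r ↔ ‖z - a₀‖ < r := by
  constructor
  · rintro ⟨w, hw, hwz⟩
    rw [← OnePoint.coe_injective hwz, ← mem_ball_iff_norm]
    exact hw
  · intro h
    exact ⟨z, mem_ball_iff_norm.2 h, rfl⟩

theorem sp_closure_DD {a₀ : ℂ} {r : ℝ} {p : OnePoint ℂ} (hp : p ∈ closure (DD a₀ r)) :
    ∃ z : ℂ, p = (z : OnePoint ℂ) ∧ ‖z - a₀‖ ≤ r := by
  have h1 : IsClosed (((↑) : ℂ → OnePoint ℂ) '' Metric.closedBall a₀ r) :=
    ((isCompact_closedBall a₀ r).image OnePoint.continuous_coe).isClosed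
  have h2 : closure (DD a₀ r) ⊆ ((↑) : ℂ → OnePoint ℂ) '' Metric.closedBall a₀ r :=
    closure_minimal (Set.image_mono Metric.ball_subset_closedBall) h1
  obtain ⟨z, hz, rfl⟩ := h2 hp
  exact ⟨z, rfl, mem_closedBall_iff_norm.1 hz⟩

/-- The circle of radius `r`. -/
theorem sp_circle (a₀ : ℂ) (r : ℝ) (hr : 0 < r) :
    ∃ Ω : C(unitInterval, OnePoint ℂ),
      (∀ t, ∃ z : ℂ, Ω t = (z : OnePoint ℂ) ∧ ‖z - a₀‖ = r) ∧
      ∀ z : ℂ, ‖z - a₀‖ = r → ∃ t, Ω t = (z : OnePoint ℂ) := by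
  refine ⟨⟨fun t => ((a₀ + r * Complex.exp (2 * Real.pi * (t : ℝ) * Complex.I) : ℂ) : OnePoint ℂ),
    OnePoint.continuous_coe.comp (by fun_prop)⟩, ?_, ?_⟩
  · intro t
    refine ⟨_, rfl, ?_⟩
    rw [add_sub_cancel_left, norm_mul, Complex.norm_real, Real.norm_eq_abs, abs_of_pos hr]
    have h1 : (2 * (Real.pi : ℂ) * ((t : ℝ) : ℂ) * Complex.I) =
        ((2 * Real.pi * (t : ℝ) : ℝ) : ℂ) * Complex.I := by push_cast; ring
    rw [h1, Complex.norm_exp_ofReal_mul_I, mul_one]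
  · intro z hz
    have hz0 : z - a₀ ≠ 0 := by
      intro h0
      rw [h0, norm_zero] at hz
      linarith
    have h2 := Complex.norm_mul_exp_arg_mul_I (z - a₀)
    rw [hz] at h2
    have hpi := Real.pi_pos
    rcases le_or_gt 0 (Complex.arg (z - a₀)) with h | h
    · have h3 : Complex.arg (z - a₀) ≤ Real.pi := Complex.arg_le_pi _
      refine ⟨⟨Complex.arg (z - a₀) / (2 * Real.pi), by positivity, ?_⟩, ?_⟩
      · rw [div_le_one (by positivity)]; linarith
      · show ((a₀ + r * Complex.exp (2 * Real.pi * ((Complex.arg (z - a₀) / (2 * Real.pi) : ℝ) : ℂ) *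
          Complex.I) : ℂ) : OnePoint ℂ) = (z : OnePoint ℂ)
        have h4 : (2 * (Real.pi : ℂ) * ((Complex.arg (z - a₀) / (2 * Real.pi) : ℝ) : ℂ) *
          Complex.I) = (Complex.arg (z - a₀) : ℂ) * Complex.I := by
          push_cast
          have : (Real.pi : ℂ) ≠ 0 := by exact_mod_cast hpi.ne'
          field_simp
        rw [h4, h2, add_sub_cancel]
    · have h3 : -Real.pi < Complex.arg (z - a₀) := Complex.neg_pi_lt_arg _
      refine ⟨⟨Complex.arg (z - a₀) / (2 * Real.pi) + 1, ?_, ?_⟩, ?_⟩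
      · have : -1 ≤ Complex.arg (z - a₀) / (2 * Real.pi) := by
          rw [le_div_iff₀ (by positivity)]; linarith
        linarith
      · have : Complex.arg (z - a₀) / (2 * Real.pi) ≤ 0 :=
          div_nonpos_of_nonpos_of_nonneg h.le (by positivity)
        linarith
      · show ((a₀ + r * Complex.exp (2 * Real.pi *
          ((Complex.arg (z - a₀) / (2 * Real.pi) + 1 : ℝ) : ℂ) *
          Complex.I) : ℂ) : OnePoint ℂ) = (z : OnePoint ℂ)
        have h4 : (2 * (Real.pi : ℂ) * ((Complex.arg (z - a₀) / (2 * Real.pi) + 1 : ℝ) : ℂ) *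
          Complex.I) = (Complex.arg (z - a₀) : ℂ) * Complex.I + 2 * Real.pi * Complex.I := by
          push_cast
          have : (Real.pi : ℂ) ≠ 0 := by exact_mod_cast hpi.ne'
          field_simp
        rw [h4, Complex.exp_add, Complex.exp_two_pi_mul_I, mul_one, h2, add_sub_cancel]

theorem sp_fix {P Q : Polynomial ℂ} {d : ℕ} {a₀ : ℂ} (c : Ctx P Q d a₀) (n : ℕ) :
    (ratMap P Q)^[n] (a₀ : OnePoint ℂ) = (a₀ : OnePoint ℂ) :=
  Function.iterate_fixed c.attr.1 n

/-- If a₀ has only one preimage in the immediate basin, it has only one preimage under the iterates. -/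
theorem sp_only {P Q : Polynomial ℂ} {d : ℕ} {a₀ : ℂ} (c : Ctx P Q d a₀)
    (hA : ∀ x ∈ immediateBasin (ratMap P Q) a₀, ratMap P Q x = (a₀ : OnePoint ℂ) →
      x = (a₀ : OnePoint ℂ)) (n : ℕ) (x : OnePoint ℂ) (hx : x ∈ immediateBasin (ratMap P Q) a₀)
    (h : (ratMap P Q)^[n] x = (a₀ : OnePoint ℂ)) : x = (a₀ : OnePoint ℂ) := by
  induction n with
  | zero => exact h
  | succ n ih =>
    rw [Function.iterate_succ_apply'] at h
    exact ih (hA _ (iterate_mem_immediateBasin c.data c.attr n hx) h)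

theorem sp_step1 {P Q : Polynomial ℂ} {d : ℕ} {a₀ : ℂ} (c : Ctx P Q d a₀)
    (hA : ∀ x ∈ immediateBasin (ratMap P Q) a₀, ratMap P Q x = (a₀ : OnePoint ℂ) →
      x = (a₀ : OnePoint ℂ)) (n : ℕ) {R : ℝ} (hR : 0 < R)
    (hb : DD a₀ R ⊆ basin (ratMap P Q) a₀) {v v' : OnePoint ℂ}
    (hv : v ∈ connectedComponentIn ((ratMap P Q)^[n] ⁻¹' (DD a₀ R)) a₀)
    (hv' : v' ∈ connectedComponentIn ((ratMap P Q)^[n] ⁻¹' (DD a₀ R)) a₀)
    (he : (ratMap P Q)^[n] v = (ratMap P Q)^[n] v')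
    (hg : (ratMap P Q)^[n] v ∈ Good P Q) : v = v' := by
  have hvD : (ratMap P Q)^[n] v ∈ DD a₀ R :=
    connectedComponentIn_subset ((ratMap P Q)^[n] ⁻¹' (DD a₀ R)) (a₀ : OnePoint ℂ) hv
  have haD : (a₀ : OnePoint ℂ) ∈ DD a₀ R := sp_mem_DD.2 (by simpa using hR)
  obtain ⟨σ, h0, h1, hσ⟩ := exists_curve_avoiding (sp_isOpen_DD a₀ R) (sp_preconn_DD a₀ R)
    (countable_compl_good c.data) hvD haD (fun h => h hg) (fun h => h c.good)
  have hσg : ∀ t, σ t ≠ OnePoint.infty ∧ AvoidN P Q n (σ t) := by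
    intro t
    have h2 : σ t ∈ Good P Q := not_not.1 (hσ t).2
    have h3 := good_iff.1 h2
    exact ⟨h3.1, h3.2 n⟩
  obtain ⟨γ, hγ0, hγ⟩ := t06_iter_lift c.data n σ hσg 0 v h0.symm
  obtain ⟨γ', hγ0', hγ'⟩ := t06_iter_lift c.data n σ hσg 0 v' (he.symm.trans h0.symm)
  have hm : ∀ (g : C(unitInterval, OnePoint ℂ)),
      g 0 ∈ connectedComponentIn ((ratMap P Q)^[n] ⁻¹' (DD a₀ R)) a₀ →
      (∀ t, (ratMap P Q)^[n] (g t) = σ t) → g 1 = (a₀ : OnePoint ℂ) := by
    intro g hg0 hgσ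
    have h4 := curve_mem_component n g 0 hg0 (fun t => by rw [hgσ]; exact (hσ t).1) 1
    have h5 := component_subset n hb (self_mem_immediateBasin c.attr) h4
    exact sp_only c hA n _ h5 (by rw [hgσ, h1])
  have h6 : γ 1 = (a₀ : OnePoint ℂ) := hm γ (by rw [hγ0]; exact hv) hγ
  have h7 : γ' 1 = (a₀ : OnePoint ℂ) := hm γ' (by rw [hγ0']; exact hv') hγ'
  have h8 : γ = γ' := iter_path_unique c.data n γ γ' 1 (h6.trans h7.symm)
    (fun t => by rw [hγ, hγ']) (fun t => by rw [hγ]; exact hσg t)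
  rw [← hγ0, ← hγ0', h8]

theorem sp_step2 {P Q : Polynomial ℂ} {d : ℕ} {a₀ : ℂ} (c : Ctx P Q d a₀)
    (hA : ∀ x ∈ immediateBasin (ratMap P Q) a₀, ratMap P Q x = (a₀ : OnePoint ℂ) →
      x = (a₀ : OnePoint ℂ)) {x₀ : OnePoint ℂ}
    (hx₀ : x₀ ∈ frontier (immediateBasin (ratMap P Q) a₀)) (hx₀a : x₀ ≠ (a₀ : OnePoint ℂ))
    {y : OnePoint ℂ} (hy : y ≠ x₀) : y ∈ immediateBasin (ratMap P Q) a₀ := by
  have hU : ({y}ᶜ ∩ {(a₀ : OnePoint ℂ)}ᶜ : Set (OnePoint ℂ)) ∈ 𝓝 x₀ :=
    Filter.inter_mem (isOpen_compl_singleton.mem_nhds (Ne.symm hy))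
      (isOpen_compl_singleton.mem_nhds hx₀a)
  obtain ⟨V, hV, hVU, hVc⟩ := exists_nhds_compl_preconnected x₀ hU
  have hya : y ∈ Vᶜ := fun h => (hVU h).1 rfl
  have haV : (a₀ : OnePoint ℂ) ∈ Vᶜ := fun h => (hVU h).2 rfl
  obtain ⟨κ0, hκ0, hκV⟩ := Metric.mem_nhds_iff.1 hV
  obtain ⟨ρ, hρ, hρb⟩ := exists_disc_basin c.data c.attr
  obtain ⟨r, hr, hrρ, hrg⟩ := exists_good_circle c.data a₀ (ρ / 2) (by linarith)
  have hDb : DD a₀ (2 * r) ⊆ basin (ratMap P Q) a₀ :=
    (Set.image_mono (Metric.ball_subset_ball (by linarith))).trans hρb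
  obtain ⟨Ω, hΩ1, hΩ2⟩ := sp_circle a₀ r hr
  have hΩD : ∀ t, Ω t ∈ DD a₀ (2 * r) := by
    intro t
    obtain ⟨z, hz, hzr⟩ := hΩ1 t
    rw [hz, sp_mem_DD, hzr]
    linarith
  have hΩg : ∀ t, Ω t ∈ Good P Q := by
    intro t
    obtain ⟨z, hz, hzr⟩ := hΩ1 t
    rw [hz]
    exact hrg z hzr
  obtain ⟨n₁, hn₁⟩ := shrink_curve c.data c.attr Ω (fun t => ⟨hDb (hΩD t), hΩg t, by
    obtain ⟨z, hz, hzr⟩ := hΩ1 t
    rw [hz]
    intro h
    rw [OnePoint.coe_injective h, sub_self, norm_zero] at hzr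
    linarith⟩) (half_pos hκ0)
  obtain ⟨n₂, hn₂⟩ := exists_near_frontier c hr hDb hx₀ (half_pos hκ0)
  set n := max n₁ n₂ with hn
  obtain ⟨b, hbx, hbO, z, hbz, hzr⟩ := hn₂ n (le_max_right _ _)
  obtain ⟨t₀, ht₀⟩ := hΩ2 z hzr
  obtain ⟨γ, hγ0, hγ⟩ := t06_iter_lift c.data n Ω
    (fun t => ⟨(good_iff.1 (hΩg t)).1, (good_iff.1 (hΩg t)).2 n⟩) t₀ b (by rw [hbz, ht₀])
  have hγO : ∀ t, γ t ∈ connectedComponentIn ((ratMap P Q)^[n] ⁻¹' (DD a₀ (2 * r))) a₀ := by
    intro t
    exact curve_mem_component n γ t₀ (by rw [hγ0]; exact hbO) (fun t => by rw [hγ]; exact hΩD t) t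
  have hγV : ∀ t, γ t ∈ V := by
    intro t
    apply hκV
    rw [Metric.mem_ball]
    have h1 := hn₁ n (le_max_left _ _) γ hγ t t₀
    rw [hγ0] at h1
    calc dist (γ t) x₀ ≤ dist (γ t) b + dist b x₀ := dist_triangle _ _ _
      _ < κ0 / 2 + κ0 / 2 := add_lt_add h1 hbx
      _ = κ0 := add_halves κ0
  -- every point of O n over the circle is in V
  have hcirc : ∀ p ∈ connectedComponentIn ((ratMap P Q)^[n] ⁻¹' (DD a₀ (2 * r))) a₀,
      ∀ w : ℂ, (ratMap P Q)^[n] p = (w : OnePoint ℂ) → ‖w - a₀‖ = r → p ∈ V := by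
    intro p hp w hw hwr
    obtain ⟨t, ht⟩ := hΩ2 w hwr
    have h1 : p = γ t := sp_step1 c hA n (by linarith) hDb hp (hγO t)
      (by rw [hγ, hw, ht]) (by rw [hw]; exact hrg w hwr)
    rw [h1]
    exact hγV t
  have hOsub : connectedComponentIn ((ratMap P Q)^[n] ⁻¹' (DD a₀ r)) (a₀ : OnePoint ℂ) ⊆
      connectedComponentIn ((ratMap P Q)^[n] ⁻¹' (DD a₀ (2 * r))) a₀ := by
    apply connectedComponentIn_mono
    exact Set.preimage_mono (Set.image_mono (Metric.ball_subset_ball (by linarith)))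
  have hsub : Vᶜ ⊆ connectedComponentIn ((ratMap P Q)^[n] ⁻¹' (DD a₀ r)) (a₀ : OnePoint ℂ) := by
    refine hVc.subset_of_closure_inter_subset
      (isOpen_component c.data n (sp_isOpen_DD a₀ r) _) ⟨a₀, haV, ?_⟩ ?_
    · apply mem_connectedComponentIn
      show (ratMap P Q)^[n] (a₀ : OnePoint ℂ) ∈ DD a₀ r
      rw [sp_fix c, sp_mem_DD, sub_self, norm_zero]
      exact hr
    · rintro p ⟨hp1, hp2⟩
      have hfc : Continuous (ratMap P Q)^[n] := (ratMap_continuous c.data).iterate n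
      have h1 : (ratMap P Q)^[n] p ∈ closure (DD a₀ r) := by
        have h2 : closure (connectedComponentIn ((ratMap P Q)^[n] ⁻¹' (DD a₀ r))
            (a₀ : OnePoint ℂ)) ⊆ (ratMap P Q)^[n] ⁻¹' closure (DD a₀ r) :=
          (closure_mono (connectedComponentIn_subset _ _)).trans
            (hfc.closure_preimage_subset _)
        exact h2 hp1
      obtain ⟨w, hw, hwr⟩ := sp_closure_DD h1
      rcases lt_or_eq_of_le hwr with h3 | h3
      · exact mem_component_of_closure c.data n (sp_isOpen_DD a₀ r) hp1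
          (by rw [hw]; exact sp_mem_DD.2 h3)
      · exfalso
        apply hp2
        refine hcirc p ?_ w hw h3
        exact mem_component_of_closure c.data n (sp_isOpen_DD a₀ (2 * r))
          (closure_mono hOsub hp1) (by rw [hw]; exact sp_mem_DD.2 (by linarith))
  have h1 := hsub hya
  exact component_subset n ((Set.image_mono (Metric.ball_subset_ball (by linarith))).trans hDb)
    (self_mem_immediateBasin c.attr) h1

theorem exists_second_preimage {P Q : Polynomial ℂ} {d : ℕ} {a₀ : ℂ} (c : Ctx P Q d a₀) :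
    ∃ a' ∈ immediateBasin (ratMap P Q) a₀, a' ≠ (a₀ : OnePoint ℂ) ∧
      ratMap P Q a' = (a₀ : OnePoint ℂ) := by
  by_contra hcon
  have hA : ∀ x ∈ immediateBasin (ratMap P Q) a₀, ratMap P Q x = (a₀ : OnePoint ℂ) →
      x = (a₀ : OnePoint ℂ) := by
    intro x hx hfx
    by_contra hne
    exact hcon ⟨x, hx, hne, hfx⟩
  have hg1 : (a₀ : OnePoint ℂ) ∈ good1 P Q := ⟨c.good.1, fun x hx => c.good.2 1 le_rfl x hx⟩
  obtain ⟨child, hinj, hmap, -, -⟩ := regular_fiber c.data hg1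
  have h2 := c.data.two
  obtain ⟨a', ha', hfa'⟩ : ∃ a', a' ≠ (a₀ : OnePoint ℂ) ∧ ratMap P Q a' = (a₀ : OnePoint ℂ) := by
    by_cases h : child ⟨0, by omega⟩ = (a₀ : OnePoint ℂ)
    · refine ⟨child ⟨1, by omega⟩, fun h' => ?_, hmap _⟩
      have h3 := hinj (h.trans h'.symm)
      simp at h3
    · exact ⟨_, h, hmap _⟩
  have ha'A : a' ∉ immediateBasin (ratMap P Q) a₀ := fun h => ha' (hA a' h hfa')
  have hAo := isOpen_immediateBasin c.data c.attr
  have haA := self_mem_immediateBasin c.attr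
  have hfr : (frontier (immediateBasin (ratMap P Q) a₀)).Nonempty := by
    rw [Set.nonempty_iff_ne_empty]
    intro h
    have h4 : IsClopen (immediateBasin (ratMap P Q) a₀) := isClopen_iff_frontier_eq_empty.2 h
    have h5 := h4.eq_univ ⟨_, haA⟩
    exact ha'A (h5 ▸ Set.mem_univ a')
  obtain ⟨x₀, hx₀⟩ := hfr
  have hx₀A : x₀ ∉ immediateBasin (ratMap P Q) a₀ := by
    rw [hAo.frontier_eq] at hx₀
    exact hx₀.2
  have hx₀a : x₀ ≠ (a₀ : OnePoint ℂ) := fun h => hx₀A (h ▸ haA)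
  by_cases hax : a' = x₀
  · have h6 : a' ∈ basin (ratMap P Q) (a₀ : OnePoint ℂ) := by
      rw [← iterate_mem_basin_iff 1]
      show ratMap P Q a' ∈ _
      rw [hfa']
      exact self_mem_basin c.attr
    have h7 : basin (ratMap P Q) (a₀ : OnePoint ℂ) = Set.univ := by
      rw [Set.eq_univ_iff_forall]
      intro y
      by_cases hy : y = x₀
      · rw [hy, ← hax]; exact h6
      · exact immediateBasin_subset (sp_step2 c hA hx₀ hx₀a hy)
    apply ha'A
    unfold immediateBasin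
    rw [h7, connectedComponentIn_univ, PreconnectedSpace.connectedComponent_eq_univ]
    exact Set.mem_univ _
  · exact ha'A (sp_step2 c hA hx₀ hx₀a hax)

end Pool.Agent.Lib.MP_e4ee3e_an.Q1
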