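import Pool.Agent.Lib.MP_e4ee3e_an.Q1.Engine
import Pool.Agent.Lib.MP_e4ee3e_an.Q1.OS
import Pool.Agent.Lib.MP_e4ee3e_an.Q1.SP
import Pool.Agent.Lib.MP_e4ee3e_an.Q1.CO

/-!
MG. The coding theorem for the immediate basin of a finite good attracting fixed point.
-/

open MeasureTheory Filter Topology

namespace Pool.Agent.Lib.MP_e4ee3e_an.Q1

attribute [local instance] chMetric

theorem main_good [MeasurableSpace (OnePoint ℂ)] [BorelSpace (OnePoint ℂ)]
    {P Q : Polynomial ℂ} {d : ℕ} {a₀ : ℂ} (c : Ctx P Q d a₀) :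
    Codes (ratMap P Q) d (a₀ : OnePoint ℂ)
      (frontier (immediateBasin (ratMap P Q) (a₀ : OnePoint ℂ))) := by
  set A := immediateBasin (ratMap P Q) (a₀ : OnePoint ℂ) with hA
  have hfa : ratMap P Q (a₀ : OnePoint ℂ) = (a₀ : OnePoint ℂ) := c.attr.1
  obtain ⟨a', ha'A, hne, hfa'⟩ := exists_second_preimage c
  have hav : ∀ n, AvoidN P Q n (a₀ : OnePoint ℂ) := (good_iff.1 c.good).2
  have haA : (a₀ : OnePoint ℂ) ∈ A := self_mem_immediateBasin c.attr
  have ha'g : a' ∈ Good P Q := by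
    apply good_of_image (n := 1)
    rw [Function.iterate_one, hfa']
    exact c.good
  -- the first path: from a' to a₀ in A, avoiding bad points and a₀ for positive time
  obtain ⟨ξ₀, h00, h01, hξA, hξC⟩ := exists_curve_from
    (U := A) (C := (Good P Q)ᶜ ∪ {(a₀ : OnePoint ℂ)}) (isOpen_immediateBasin c.data c.attr)
    isPreconnected_immediateBasin
    ((countable_compl_good c.data).union (Set.countable_singleton _)) haA ha'A
    (by
      rintro (h | h)
      · exact h ha'g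
      · exact hne h)
  have hξg : GoodPath P Q ξ₀ := by
    rw [goodPath_iff]
    intro t
    rcases eq_or_lt_of_le (show (0 : unitInterval) ≤ t from t.2.1) with h | h
    · rw [← h, h00]
      exact c.good
    · by_contra hb
      exact hξC t h (Or.inl hb)
  have hξne : ∀ t : unitInterval, 0 < t → ξ₀ t ≠ (a₀ : OnePoint ℂ) :=
    fun t ht h => hξC t ht (Or.inr h)
  -- basis of the topology
  haveI : Nonempty (OnePoint ℂ) := ⟨OnePoint.infty⟩
  let D : ℕ → OnePoint ℂ := TopologicalSpace.denseSeq (OnePoint ℂ)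
  let U : ℕ → Set (OnePoint ℂ) := fun k =>
    Metric.ball (D k.unpair.1) (1 / ((k.unpair.2 : ℝ) + 1))
  have hbasis : ∀ (x : OnePoint ℂ) (O : Set (OnePoint ℂ)), IsOpen O → x ∈ O →
      ∃ k, x ∈ U k ∧ U k ⊆ O := by
    intro x O hO hx
    obtain ⟨ε, hε, hεO⟩ := Metric.isOpen_iff.1 hO x hx
    obtain ⟨m, hm⟩ := exists_nat_one_div_lt (half_pos hε)
    have hpos : (0 : ℝ) < 1 / ((m : ℝ) + 1) := by positivity
    obtain ⟨hy, hdy⟩ := (TopologicalSpace.denseRange_denseSeq (OnePoint ℂ)).exists_dist_lt x hpos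
    refine ⟨Nat.pair hy m, ?_, ?_⟩
    · show x ∈ Metric.ball (D (Nat.unpair (Nat.pair hy m)).1) _
      rw [Nat.unpair_pair]
      exact hdy
    · intro z hz
      have hz' : dist z (D hy) < 1 / ((m : ℝ) + 1) := by
        have : z ∈ Metric.ball (D (Nat.unpair (Nat.pair hy m)).1)
          (1 / (((Nat.unpair (Nat.pair hy m)).2 : ℝ) + 1)) := hz
        rw [Nat.unpair_pair] at this
        exact this
      apply hεO
      rw [Metric.mem_ball]
      calc dist z x ≤ dist z (D hy) + dist x (D hy) := dist_triangle_right _ _ _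
        _ < ε / 2 + ε / 2 := by
          have : dist x (D hy) < 1 / ((m : ℝ) + 1) := hdy
          linarith
        _ = ε := by ring
  obtain ⟨γ, hγg, hγ0, hγ1, hw⟩ := engine_class c.data a₀ a' hav hfa hfa'
    (fun ξ => (∀ t, ξ t ∈ A) ∧ ∀ t : unitInterval, 0 < t → ξ t ≠ (a₀ : OnePoint ℂ)) A haA
    (by
      intro ξ hξ hC hξ0 hξ1 N y hyA hy
      obtain ⟨h1, h2⟩ := liftN_spec c.data hξ N (y := y) (hy.trans hξ0.symm)
      refine curve_mem_immediateBasin (liftN P Q N ξ y) 0 (by rw [h1]; exact hyA) (fun t => ?_) 1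
      rw [← iterate_mem_basin_iff N, h2]
      exact immediateBasin_subset (hC.1 t))
    {k | (U k ∩ frontier A).Nonempty} U ⟨ξ₀, hξg, ⟨hξA, hξne⟩, h00, h01⟩
    (by
      intro k hk ξ hξ hC hξ0 hξ1 N y hyA hy ε hε
      obtain ⟨ξ', n, h1, h2, h3, h4, h5, h6, h7, h8⟩ :=
        ib_step c hξ hξ0 hC.1 hC.2 (B := U k) Metric.isOpen_ball hk N hyA hy ε hε
      exact ⟨ξ', n, h1, h2, ⟨h5, h6⟩, h3, h4.trans hξ1, h7, h8⟩)
  refine codes_of_wild c.data hfa c.good hne hfa' hγg hγ0 hγ1 (frontier A) ?_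
  rintro w O hO ⟨x, hxO, hxF⟩
  obtain ⟨k, hxk, hkO⟩ := hbasis x O hO hxO
  obtain ⟨M, hM⟩ := hw w k ⟨x, hxk, hxF⟩
  exact ⟨M, fun α hα => hkO (hM α hα)⟩

end Pool.Agent.Lib.MP_e4ee3e_an.Q1
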