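import Pool.Agent.Lib.MP_e4ee3e_an.Q1.Defs

/-!
PL. Local topology of the sphere `OnePoint ℂ`. Finite points: round discs of the plane (images under
the open embedding ℂ → OnePoint ℂ). At infinity: complements of closed discs, {z | ‖z - x‖ > R} ∪ {∞}
(connected: {‖z - x‖ > R} is path connected (polar coordinates: image of Ioi R × ℝ under
(ρ, θ) ↦ x + ρ e^(iθ)), nonempty, and ∞ is in its closure: IsPreconnected.subset_closure), neighbourhoods
of infinity: OnePoint.hasBasis_nhds_infty or OnePoint.isOpen_compl_image_coe and bounded/compact sets.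
-/

open MeasureTheory Filter Topology

namespace Pool.Agent.Lib.MP_e4ee3e_an.Q1

attribute [local instance] chMetric

/-- The image of a product of a half line and the line under polar coordinates. -/
theorem pl_polar (c : ℂ) {S : Set ℝ} (hS : IsPreconnected S) (hS0 : ∀ ρ ∈ S, 0 ≤ ρ) :
    IsPreconnected {z : ℂ | ‖z - c‖ ∈ S} := by
  have h1 : IsPreconnected ((fun p : ℝ × ℝ => c + (p.1 : ℂ) * Complex.exp (p.2 * Complex.I)) ''
      (S ×ˢ (Set.univ : Set ℝ))) := by
    refine (hS.prod isPreconnected_univ).image _ ?_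
    exact Continuous.continuousOn (by fun_prop)
  convert h1 using 1
  ext z
  simp only [Set.mem_ofPred_eq, Set.mem_image, Set.mem_prod, Set.mem_univ, and_true, Prod.exists]
  constructor
  · intro hz
    refine ⟨‖z - c‖, Complex.arg (z - c), hz, ?_⟩
    rw [Complex.norm_mul_exp_arg_mul_I]
    ring
  · rintro ⟨ρ, θ, hρ, rfl⟩
    rw [add_sub_cancel_left, norm_mul, Complex.norm_exp_ofReal_mul_I, mul_one, Complex.norm_real,
      Real.norm_of_nonneg (hS0 ρ hρ)]
    exact hρ

/-- Adding the point at infinity to an unbounded preconnected set of the plane. -/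
theorem pl_add_infty {A : Set ℂ} (hA : IsPreconnected A) (hA2 : ∀ R : ℝ, ∃ z ∈ A, R < ‖z‖) :
    IsPreconnected (((↑) : ℂ → OnePoint ℂ) '' A ∪ {OnePoint.infty}) := by
  have h1 : IsPreconnected (((↑) : ℂ → OnePoint ℂ) '' A) :=
    hA.image _ OnePoint.continuous_coe.continuousOn
  refine h1.subset_closure Set.subset_union_left ?_
  rintro x (hx | hx)
  · exact subset_closure hx
  · rw [Set.mem_singleton_iff] at hx
    rw [hx, mem_closure_iff_nhds_basis OnePoint.hasBasis_nhds_infty]
    rintro s ⟨_, hs⟩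
    obtain ⟨R, hR⟩ := hs.isBounded.subset_closedBall 0
    obtain ⟨z, hz, hz2⟩ := hA2 R
    refine ⟨(z : OnePoint ℂ), ⟨z, hz, rfl⟩, Or.inl ⟨z, ?_, rfl⟩⟩
    intro hzs
    have := hR hzs
    rw [Metric.mem_closedBall, dist_zero_right] at this
    linarith

theorem pl_unbounded (c : ℂ) (r R : ℝ) : ∃ z : ℂ, r < ‖z - c‖ ∧ R < ‖z‖ := by
  refine ⟨((|r| + |R| + 2 * ‖c‖ + 1 : ℝ) : ℂ), ?_, ?_⟩
  · have h1 := norm_sub_norm_le ((|r| + |R| + 2 * ‖c‖ + 1 : ℝ) : ℂ) c
    rw [Complex.norm_real, Real.norm_of_nonneg (by positivity)] at h1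
    have h2 := le_abs_self r
    have h3 := abs_nonneg R
    have h4 := norm_nonneg c
    linarith
  · rw [Complex.norm_real, Real.norm_of_nonneg (by positivity)]
    have h2 := le_abs_self R
    have h3 := abs_nonneg r
    have h4 := norm_nonneg c
    linarith

theorem pl_compl_image (B : Set ℂ) :
    (((↑) : ℂ → OnePoint ℂ) '' B)ᶜ = ((↑) : ℂ → OnePoint ℂ) '' Bᶜ ∪ {OnePoint.infty} := by
  rw [OnePoint.compl_image_coe]

/-- Every neighbourhood of a point of the sphere contains a connected open neighbourhood. -/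
theorem exists_nhds_preconnected (x : OnePoint ℂ) {U : Set (OnePoint ℂ)} (hU : U ∈ 𝓝 x) :
    ∃ V, IsOpen V ∧ x ∈ V ∧ V ⊆ U ∧ IsPreconnected V := by
  induction x using OnePoint.rec with
  | infty =>
    obtain ⟨s, ⟨_, hs⟩, hsU⟩ := OnePoint.hasBasis_nhds_infty.mem_iff.1 hU
    obtain ⟨R, hR⟩ := hs.isBounded.subset_closedBall 0
    refine ⟨(((↑) : ℂ → OnePoint ℂ) '' Metric.closedBall 0 (max R 0))ᶜ, ?_, ?_, ?_, ?_⟩
    · exact OnePoint.isOpen_compl_image_coe.2
        ⟨Metric.isClosed_closedBall, isCompact_closedBall _ _⟩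
    · exact OnePoint.infty_notMem_image_coe
    · rw [pl_compl_image]
      refine Set.Subset.trans ?_ hsU
      refine Set.union_subset_union_left _ (Set.image_mono (Set.compl_subset_compl.2 ?_))
      exact hR.trans (Metric.closedBall_subset_closedBall (le_max_left _ _))
    · rw [pl_compl_image]
      have h1 : (Metric.closedBall (0 : ℂ) (max R 0))ᶜ = {z : ℂ | ‖z - 0‖ ∈ Set.Ioi (max R 0)} := by
        ext z
        simp [Metric.mem_closedBall, dist_eq_norm]
      rw [h1]
      refine pl_add_infty (pl_polar 0 isPreconnected_Ioi ?_) ?_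
      · intro ρ hρ
        exact le_trans (le_max_right R 0) (le_of_lt hρ)
      · intro R'
        obtain ⟨z, hz1, hz2⟩ := pl_unbounded 0 (max R 0) R'
        exact ⟨z, hz1, hz2⟩
  | coe c =>
    have h1 : ((↑) : ℂ → OnePoint ℂ) ⁻¹' U ∈ 𝓝 c :=
      OnePoint.continuous_coe.continuousAt.preimage_mem_nhds hU
    obtain ⟨r, hr, hrU⟩ := Metric.mem_nhds_iff.1 h1
    refine ⟨((↑) : ℂ → OnePoint ℂ) '' Metric.ball c r, ?_, ?_, ?_, ?_⟩
    · exact OnePoint.isOpen_image_coe.2 Metric.isOpen_ball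
    · exact ⟨c, Metric.mem_ball_self hr, rfl⟩
    · rintro _ ⟨z, hz, rfl⟩
      exact hrU hz
    · exact (convex_ball c r).isPreconnected.image _ OnePoint.continuous_coe.continuousOn

theorem locallyConnectedSpace_sphere : LocallyConnectedSpace (OnePoint ℂ) := by
  rw [locallyConnectedSpace_iff_subsets_isOpen_isConnected]
  intro x U hU
  obtain ⟨V, hV, hxV, hVU, hVc⟩ := exists_nhds_preconnected x hU
  exact ⟨V, hVU, hV, hxV, ⟨⟨x, hxV⟩, hVc⟩⟩

/-- Every neighbourhood of a point of the sphere contains a neighbourhood with connected complement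
(a round disc of the plane, or the complement of a closed round disc). -/
theorem exists_nhds_compl_preconnected (x : OnePoint ℂ) {U : Set (OnePoint ℂ)} (hU : U ∈ 𝓝 x) :
    ∃ V ∈ 𝓝 x, V ⊆ U ∧ IsPreconnected Vᶜ := by
  induction x using OnePoint.rec with
  | infty =>
    obtain ⟨s, ⟨_, hs⟩, hsU⟩ := OnePoint.hasBasis_nhds_infty.mem_iff.1 hU
    obtain ⟨R, hR⟩ := hs.isBounded.subset_closedBall 0
    refine ⟨(((↑) : ℂ → OnePoint ℂ) '' Metric.closedBall 0 R)ᶜ, ?_, ?_, ?_⟩
    · refine IsOpen.mem_nhds ?_ OnePoint.infty_notMem_image_coe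
      exact OnePoint.isOpen_compl_image_coe.2
        ⟨Metric.isClosed_closedBall, isCompact_closedBall _ _⟩
    · rw [pl_compl_image]
      refine Set.Subset.trans ?_ hsU
      exact Set.union_subset_union_left _ (Set.image_mono (Set.compl_subset_compl.2 hR))
    · rw [compl_compl]
      exact (convex_closedBall 0 R).isPreconnected.image _ OnePoint.continuous_coe.continuousOn
  | coe c =>
    have h1 : ((↑) : ℂ → OnePoint ℂ) ⁻¹' U ∈ 𝓝 c :=
      OnePoint.continuous_coe.continuousAt.preimage_mem_nhds hU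
    obtain ⟨r, hr, hrU⟩ := Metric.mem_nhds_iff.1 h1
    refine ⟨((↑) : ℂ → OnePoint ℂ) '' Metric.ball c r, ?_, ?_, ?_⟩
    · exact IsOpen.mem_nhds (OnePoint.isOpen_image_coe.2 Metric.isOpen_ball)
        ⟨c, Metric.mem_ball_self hr, rfl⟩
    · rintro _ ⟨z, hz, rfl⟩
      exact hrU hz
    · rw [pl_compl_image]
      have h2 : (Metric.ball c r)ᶜ = {z : ℂ | ‖z - c‖ ∈ Set.Ici r} := by
        ext z
        simp [Metric.mem_ball, dist_eq_norm]
      rw [h2]
      refine pl_add_infty (pl_polar c isPreconnected_Ici ?_) ?_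
      · intro ρ hρ
        exact le_trans hr.le hρ
      · intro R'
        obtain ⟨z, hz1, hz2⟩ := pl_unbounded c r R'
        exact ⟨z, le_of_lt hz1, hz2⟩

end Pool.Agent.Lib.MP_e4ee3e_an.Q1
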